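import Pool.Agent.Lib.SmD.ResMap

/-!
SMITH, block E: the elements of a place `w` fixed by the decomposition group fall into finitely many
classes modulo every nonzero element of `K`; small elements of `K`.
-/

set_option autoImplicit false

namespace Pool.Agent.SmithE

open Pool.Agent.Lib.SmD

variable {K Om : Type} [Field K] [Field Om] [Algebra K Om] {w : ValuationSubring Om} {π : K}

/-- the value of the uniformizer is a positive element -/
theorem locHyp_pos (hL : LocHyp K w π) : w.valuation (algebraMap K Om π) ≠ 0 :=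
  (w.valuation.ne_zero_iff).mpr ((map_ne_zero_iff _ (algebraMap K Om).injective).mpr hL.pi_ne)

/-- every nonzero element of `K` has value at least that of a power of the uniformizer -/
theorem exists_pow_le (hL : LocHyp K w π) {c : K} (hc : c ≠ 0) : ∃ N : ℕ,
    w.valuation (algebraMap K Om π) ^ N ≤ w.valuation (algebraMap K Om c) := by
  obtain ⟨n, hn⟩ := hL.disc c hc
  refine ⟨n.toNat, ?_⟩
  rw [hn, ← zpow_natCast]
  exact zpow_le_zpow_right_of_le_one₀ (zero_lt_iff.mpr (locHyp_pos hL)) hL.pi_lt.le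
    (Int.self_le_toNat n)

/-- small elements of `K` -/
theorem exists_small (hL : LocHyp K w π) (c : K) (hc : c ≠ 0) : ∃ t : K, t ≠ 0 ∧
    w.valuation (algebraMap K Om t) ^ 2 < w.valuation (algebraMap K Om c) := by
  obtain ⟨N, hN⟩ := exists_pow_le hL hc
  refine ⟨π ^ (N + 1), pow_ne_zero _ hL.pi_ne, lt_of_lt_of_le ?_ hN⟩
  rw [map_pow, map_pow, ← pow_mul]
  exact pow_lt_pow_right_of_lt_one₀ (zero_lt_iff.mpr (locHyp_pos hL)) hL.pi_lt (by omega)

/-- an integral element fixed by a Frobenius element is congruent to one of finitely many elements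
of `K` -/
theorem exists_reps (hL : LocHyp K w π) {φ : Om ≃ₐ[K] Om} (hφ : IsFrob K w φ) :
    ∃ R : Set K, R.Finite ∧ ∀ u, w.valuation u ≤ 1 → φ u = u →
      ∃ r ∈ R, w.valuation (u - algebraMap K Om r) < 1 := by
  have := hL.fin
  choose rep hrep using IsLocalRing.residue_surjective (R := below K w)
  refine ⟨Set.range fun c => ((rep c : below K w) : K), Set.finite_range _, ?_⟩
  intro u hu hfix
  have huw : u ∈ w := (ValuationSubring.valuation_le_one_iff _ _).mp hu
  have h1 := hφ.frob u huw
  rw [hfix] at h1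
  have h2 : w.valuation (u ^ resCard (below K w) - u) < 1 := by
    rw [← Valuation.map_neg, neg_sub]
    exact h1
  obtain ⟨a, ha⟩ := residue_fixed' K w huw h2
  have haw : a ∈ below K w := by
    change algebraMap K Om a ∈ w
    rw [← ValuationSubring.valuation_le_one_iff]
    have e : algebraMap K Om a = u - (u - algebraMap K Om a) := by ring
    rw [e]
    exact (w.valuation.map_sub _ _).trans (max_le hu ha.le)
  refine ⟨_, ⟨IsLocalRing.residue (below K w) ⟨a, haw⟩, rfl⟩, ?_⟩
  have h3 := hrep (IsLocalRing.residue (below K w) ⟨a, haw⟩)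
  have h4 := congrArg (resMap K w) h3
  rw [resMap_residue] at h4
  rw [resMap_residue] at h4
  have h5 := (residue_eq_iff w _ _).mp h4
  have e : u - algebraMap K Om ((rep (IsLocalRing.residue (below K w) ⟨a, haw⟩) : below K w) : K) =
      (u - algebraMap K Om a) - (algebraMap K Om
        ((rep (IsLocalRing.residue (below K w) ⟨a, haw⟩) : below K w) : K) -
          algebraMap K Om a) := by ring
  rw [e]
  exact (w.valuation.map_sub _ _).trans_lt (max_lt ha h5)

/-- finitely many classes modulo `π ^ N` -/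
theorem fin_classes_pow (hL : LocHyp K w π) {φ : Om ≃ₐ[K] Om} (hφ : IsFrob K w φ)
    (hval : ∀ x : Om, x ≠ 0 → (∀ s ∈ dec K w, s x = x) →
      ∃ n : ℤ, w.valuation x = w.valuation (algebraMap K Om π) ^ n) (N : ℕ) :
    ∃ F : Set Om, F.Finite ∧ ∀ u, w.valuation u ≤ 1 → (∀ s ∈ dec K w, s u = u) →
      ∃ f ∈ F, w.valuation (u - f) ≤ w.valuation (algebraMap K Om π) ^ N := by
  have hπ := locHyp_pos hL
  have hπ0 : algebraMap K Om π ≠ 0 :=
    (map_ne_zero_iff _ (algebraMap K Om).injective).mpr hL.pi_ne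
  obtain ⟨R, hR, hR'⟩ := exists_reps hL hφ
  induction N with
  | zero =>
    refine ⟨{0}, Set.finite_singleton _, fun u hu _ => ⟨0, rfl, ?_⟩⟩
    rw [sub_zero, pow_zero]
    exact hu
  | succ N ih =>
    obtain ⟨F, hF, hF'⟩ := ih
    refine ⟨Set.image2 (fun r f => algebraMap K Om r + algebraMap K Om π * f) R F,
      hR.image2 _ hF, ?_⟩
    intro u hu hfix
    obtain ⟨r, hr, hur⟩ := hR' u hu (hfix φ hφ.mem)
    have hfix' : ∀ s ∈ dec K w, s ((u - algebraMap K Om r) / algebraMap K Om π) =
        (u - algebraMap K Om r) / algebraMap K Om π := by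
      intro s hs
      rw [map_div₀, map_sub, hfix s hs, AlgEquiv.commutes, AlgEquiv.commutes]
    have hint : w.valuation ((u - algebraMap K Om r) / algebraMap K Om π) ≤ 1 := by
      by_cases h0 : u - algebraMap K Om r = 0
      · rw [h0, zero_div, map_zero]
        exact zero_le
      · obtain ⟨n, hn⟩ := hval _ h0 (fun s hs => by
          rw [map_sub, hfix s hs, AlgEquiv.commutes])
        rw [map_div₀, hn]
        rw [hn] at hur
        have hn1 : 1 ≤ n := by
          by_contra hc
          have hc' : n ≤ 0 := by omega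
          have : (1 : w.ValueGroup) ≤ w.valuation (algebraMap K Om π) ^ n :=
            one_le_zpow_of_nonpos₀ (zero_lt_iff.mpr hπ) hL.pi_lt.le hc'
          exact absurd hur (not_lt.mpr this)
        rw [div_eq_mul_inv, ← zpow_neg_one, ← zpow_add₀ hπ]
        exact zpow_le_one₀ (zero_lt_iff.mpr hπ) hL.pi_lt.le (by omega)
    obtain ⟨f, hf, hf'⟩ := hF' _ hint hfix'
    refine ⟨_, ⟨r, hr, f, hf, rfl⟩, ?_⟩
    have e : u - (algebraMap K Om r + algebraMap K Om π * f) =
        algebraMap K Om π * ((u - algebraMap K Om r) / algebraMap K Om π - f) := by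
      field_simp
      ring
    change w.valuation (u - (algebraMap K Om r + algebraMap K Om π * f)) ≤ _
    rw [e, map_mul, pow_succ']
    exact mul_le_mul' le_rfl hf'

/-- finitely many classes modulo a nonzero element of `K` -/
theorem fin_classes (hL : LocHyp K w π) {φ : Om ≃ₐ[K] Om} (hφ : IsFrob K w φ)
    (hval : ∀ x : Om, x ≠ 0 → (∀ s ∈ dec K w, s x = x) →
      ∃ n : ℤ, w.valuation x = w.valuation (algebraMap K Om π) ^ n) (t : K) (ht : t ≠ 0) :
    ∃ F : Set Om, F.Finite ∧ ∀ u, w.valuation u ≤ 1 → (∀ s ∈ dec K w, s u = u) →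
      ∃ f ∈ F, w.valuation (u - f) ≤ w.valuation (algebraMap K Om t) := by
  obtain ⟨N, hN⟩ := exists_pow_le hL ht
  obtain ⟨F, hF, hF'⟩ := fin_classes_pow hL hφ hval N
  refine ⟨F, hF, fun u hu hfix => ?_⟩
  obtain ⟨f, hf, h⟩ := hF' u hu hfix
  exact ⟨f, hf, h.trans hN⟩

end Pool.Agent.SmithE
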