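import Pool.Agent.Lib.SM.E.Bdd
import Pool.Agent.Lib.Sm.G.Sys

/-!
SMITH, block E, part E3: for every place and every quadratic twist, the points of `V` fixed by the
(twisted) action of the decomposition group are finite in number.
-/

set_option autoImplicit false

namespace Pool.Agent.SmithE

open WeierstrassCurve WeierstrassCurve.Affine
open Pool.Agent.Lib.SmD Pool.Agent.Sm

variable {K Om : Type} [Field K] [Field Om] [Algebra K Om] {w : ValuationSubring Om}
  {e₁ e₂ e₃ : K}

/-- an element of `K` dominating `e₁, e₂, e₃` -/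
theorem exists_dom (w : ValuationSubring Om) (h12 : e₁ ≠ e₂) : ∃ m : K, m ≠ 0 ∧
    w.valuation (algebraMap K Om e₁) ≤ w.valuation (algebraMap K Om m) ∧
    w.valuation (algebraMap K Om e₂) ≤ w.valuation (algebraMap K Om m) ∧
    w.valuation (algebraMap K Om e₃) ≤ w.valuation (algebraMap K Om m) := by
  -- the largest one of two
  have two : ∀ a b : K, ∃ c : K, (c = a ∨ c = b) ∧
      w.valuation (algebraMap K Om a) ≤ w.valuation (algebraMap K Om c) ∧
      w.valuation (algebraMap K Om b) ≤ w.valuation (algebraMap K Om c) := by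
    intro a b
    rcases le_total (w.valuation (algebraMap K Om a)) (w.valuation (algebraMap K Om b)) with h | h
    · exact ⟨b, Or.inr rfl, h, le_rfl⟩
    · exact ⟨a, Or.inl rfl, le_rfl, h⟩
  obtain ⟨c, -, c1, c2⟩ := two e₁ e₂
  obtain ⟨d, -, d1, d2⟩ := two c e₃
  refine ⟨d, ?_, c1.trans d1, c2.trans d1, d2⟩
  rintro rfl
  rw [map_zero, map_zero] at d1
  have h0 : ∀ {a : K}, w.valuation (algebraMap K Om a) ≤ 0 → a = 0 := by
    intro a ha
    have h1 := le_antisymm ha zero_le
    have h3 := (w.valuation.zero_iff).mp h1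
    exact (map_eq_zero_iff _ (algebraMap K Om).injective).mp h3
  exact h12 ((h0 (c1.trans d1)).trans (h0 (c2.trans d1)).symm)

variable [DecidableEq Om]

/-- the `x`-coordinate (`0` for the point at infinity) -/
def xco : Pt Om e₁ e₂ e₃ → Om
  | .zero => 0
  | .some x _ _ => x

/-- **E3**, for points -/
theorem finite_fixed_pt (h2 : w.valuation 2 = 1) (h12 : e₁ ≠ e₂) (h13 : e₁ ≠ e₃) (h23 : e₂ ≠ e₃)
    (hFin : ∀ t : K, t ≠ 0 → ∃ F : Set Om, F.Finite ∧ ∀ u, w.valuation u ≤ 1 →
      (∀ s ∈ dec K w, s u = u) → ∃ f ∈ F, w.valuation (u - f) ≤ w.valuation (algebraMap K Om t))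
    (hSmall : ∀ c : K, c ≠ 0 → ∃ t : K, t ≠ 0 ∧
      w.valuation (algebraMap K Om t) ^ 2 < w.valuation (algebraMap K Om c)) :
    {P : Pt Om e₁ e₂ e₃ | (∃ j : ℕ, (2 ^ j) • P = 0) ∧
      ∀ s ∈ dec K w, s • P = P ∨ s • P = -P}.Finite := by
  have hW := baseChange_crv (Ω := Om) (e₁ := e₁) (e₂ := e₂) (e₃ := e₃)
  have inj := (algebraMap K Om).injective
  have h20 : (2 : Om) ≠ 0 := by
    intro h
    rw [h, map_zero] at h2
    exact zero_ne_one h2
  have h2K : (2 : K) ≠ 0 := by
    intro h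
    apply h20
    rw [← map_ofNat (algebraMap K Om), h, map_zero]
  obtain ⟨m, m0, m1, m2, m3⟩ := exists_dom (e₃ := e₃) w h12
  have m0' : algebraMap K Om m ≠ 0 := (map_ne_zero_iff _ inj).mpr m0
  have vm0 : w.valuation (algebraMap K Om m) ≠ 0 := (w.valuation.ne_zero_iff).mpr m0'
  set D : K := (e₁ - e₂) * (e₁ - e₃) * (e₂ - e₃) with hD
  have D0 : D ≠ 0 := mul_ne_zero (mul_ne_zero (sub_ne_zero.mpr h12) (sub_ne_zero.mpr h13))
    (sub_ne_zero.mpr h23)
  obtain ⟨t, t0, ht⟩ := hSmall (D ^ 2 / m ^ 6) (div_ne_zero (pow_ne_zero _ D0) (pow_ne_zero _ m0))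
  obtain ⟨F, hF, hF'⟩ := hFin t t0
  -- split off the points of order dividing 2
  set S := {P : Pt Om e₁ e₂ e₃ | (∃ j : ℕ, (2 ^ j) • P = 0) ∧
      ∀ s ∈ dec K w, s • P = P ∨ s • P = -P} with hS
  have hsplit : S ⊆ {P | P + P = 0} ∪ {P | P ∈ S ∧ P + P ≠ 0} := by
    intro P hP
    by_cases h : P + P = 0
    · exact Or.inl h
    · exact Or.inr ⟨hP, h⟩
  refine Set.Finite.subset (Set.Finite.union ?_ ?_) hsplit
  · refine Set.Finite.subset (s := {0, pt1 h12 h13 Om, pt2 h12 h23 Om, pt3 h13 h23 Om})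
      (Set.toFinite _) ?_
    intro P hP
    exact (pt_add_self_eq_zero_iff h12 h13 h23 h2K P).mp hP
  · -- facts about the points in question
    have fact : ∀ P ∈ {P | P ∈ S ∧ P + P ≠ 0}, ∃ (x y : Om) (h : _), P = .some x y h ∧ y ≠ 0 ∧
        (∃ j : ℕ, (2 ^ j) • (.some x y h : Pt Om e₁ e₂ e₃) = 0) ∧ (∀ s ∈ dec K w, s x = x) ∧
        w.valuation x ≤ w.valuation (algebraMap K Om m) := by
      rintro P ⟨⟨⟨j, hj⟩, hP⟩, hPP⟩
      obtain ⟨x, y, h, rfl, hy⟩ := exists_of_add_self_ne hW hPP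
      refine ⟨x, y, h, rfl, hy, ⟨j, hj⟩, ?_, x_le hW h2 m1 m2 m3 j h hj⟩
      intro s hs
      obtain ⟨h', e⟩ := smul_some s h
      rcases hP s hs with h1 | h1
      · rw [e, WeierstrassCurve.Affine.Point.some.injEq] at h1
        exact h1.1
      · rw [e, WeierstrassCurve.Affine.Point.neg_some,
          WeierstrassCurve.Affine.Point.some.injEq] at h1
        exact h1.1
    refine Set.Finite.of_finite_fibers xco ?_ ?_
    · -- the set of x-coordinates
      have hg : ∀ x ∈ xco '' {P | P ∈ S ∧ P + P ≠ 0}, ∃ f ∈ F,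
          w.valuation (x / algebraMap K Om m - f) ≤ w.valuation (algebraMap K Om t) := by
        rintro _ ⟨P, hP, rfl⟩
        obtain ⟨x, y, h, rfl, hy, -, hx, hxm⟩ := fact P hP
        apply hF'
        · change w.valuation (x / algebraMap K Om m) ≤ 1
          rw [map_div₀]
          exact div_le_one_of_le₀ hxm zero_le
        · intro s hs
          change s (x / algebraMap K Om m) = x / algebraMap K Om m
          rw [map_div₀, hx s hs, AlgEquiv.commutes]
      choose! g hg1 hg2 using hg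
      refine Set.Finite.of_injOn (f := g) (t := F) (fun x hx => hg1 x hx) ?_ hF
      rintro x hx x' hx' hxx
      have b1 := hg2 x hx
      have b2 := hg2 x' hx'
      rw [← hxx] at b2
      obtain ⟨P, hP, rfl⟩ := hx
      obtain ⟨P', hP', rfl⟩ := hx'
      obtain ⟨x, y, h, rfl, hy, ⟨j, hj⟩, -, -⟩ := fact P hP
      obtain ⟨x', y', h', rfl, -, ⟨j', hj'⟩, -, -⟩ := fact P' hP'
      change x = x'
      change w.valuation (x / algebraMap K Om m - g x) ≤ _ at b1
      change w.valuation (x' / algebraMap K Om m - g x) ≤ _ at b2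
      by_contra hne
      have dist := dist_ge hW h2 m1 m2 m3 (inj.ne h12) (inj.ne h13) (inj.ne h23) h h' hy hj hj' hne
      have b3 : w.valuation ((x - x') / algebraMap K Om m) ≤ w.valuation (algebraMap K Om t) := by
        have e1 : (x - x') / algebraMap K Om m =
            (x / algebraMap K Om m - g x) - (x' / algebraMap K Om m - g x) := by ring
        rw [e1]
        exact (w.valuation.map_sub _ _).trans (max_le b1 b2)
      rw [map_div₀, div_le_iff₀ (zero_lt_iff.mpr vm0)] at b3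
      have b4 : w.valuation (x - x') ^ 2 ≤
          (w.valuation (algebraMap K Om t) * w.valuation (algebraMap K Om m)) ^ 2 :=
        pow_le_pow_left₀ zero_le b3 2
      have eD : w.valuation (algebraMap K Om D) = w.valuation ((algebraMap K Om e₁ -
          algebraMap K Om e₂) * (algebraMap K Om e₁ - algebraMap K Om e₃) *
          (algebraMap K Om e₂ - algebraMap K Om e₃)) := by
        rw [hD]
        simp only [map_mul, map_sub]
      rw [← eD] at dist
      have b5 : w.valuation (algebraMap K Om D) ^ 2 ≤ w.valuation (algebraMap K Om t) ^ 2 *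
          w.valuation (algebraMap K Om m) ^ 6 := by
        refine dist.trans ((mul_le_mul_right b4 _).trans (le_of_eq ?_))
        rw [mul_pow, ← mul_assoc, mul_comm (w.valuation (algebraMap K Om m) ^ 4), mul_assoc,
          ← pow_add]
      rw [map_div₀, map_pow, map_pow, map_div₀, map_pow, map_pow] at ht
      rw [lt_div_iff₀ (zero_lt_iff.mpr (pow_ne_zero _ vm0))] at ht
      exact absurd ht (not_lt.mpr b5)
    · rintro _ ⟨P, hP, rfl⟩
      obtain ⟨x, y, h, rfl, hy, -, hx, hxm⟩ := fact P hP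
      refine Set.Finite.subset (s := {.some x y h, -.some x y h}) (Set.toFinite _) ?_
      rintro Q ⟨hQ, hQx⟩
      obtain ⟨x', y', h', rfl, -⟩ := fact Q hQ
      have hxx : x' = x := hQx
      exact WeierstrassCurve.Affine.Point.X_eq_iff.mp hxx

/-- **E3**: finitely many elements of `V` are fixed by the twisted action of a decomposition
group -/
theorem finite_fixed (h2 : w.valuation 2 = 1) (h12 : e₁ ≠ e₂) (h13 : e₁ ≠ e₃) (h23 : e₂ ≠ e₃)
    (hFin : ∀ t : K, t ≠ 0 → ∃ F : Set Om, F.Finite ∧ ∀ u, w.valuation u ≤ 1 →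
      (∀ s ∈ dec K w, s u = u) → ∃ f ∈ F, w.valuation (u - f) ≤ w.valuation (algebraMap K Om t))
    (hSmall : ∀ c : K, c ≠ 0 → ∃ t : K, t ≠ 0 ∧
      w.valuation (algebraMap K Om t) ^ 2 < w.valuation (algebraMap K Om c))
    (chi : (Om ≃ₐ[K] Om) → ZMod 2) :
    {Q : VV Om e₁ e₂ e₃ | ∀ s ∈ dec K w, dl chi Q s = 0}.Finite := by
  have h := finite_fixed_pt h2 h12 h13 h23 hFin hSmall
  refine Set.Finite.of_injOn (f := Subtype.val) ?_ (Subtype.val_injective.injOn) h
  intro Q hQ
  refine ⟨Q.2, fun s hs => ?_⟩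
  have h1 := hQ s hs
  rw [dl, tw, sub_eq_zero] at h1
  unfold sgn at h1
  split_ifs at h1
  · left
    rw [one_smul] at h1
    exact congrArg Subtype.val h1
  · right
    rw [neg_smul, one_smul] at h1
    have h3 := congrArg Subtype.val h1
    exact neg_eq_iff_eq_neg.mp h3

end Pool.Agent.SmithE
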