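import Pool.Agent.Lib.SmD.Sqrt
import Pool.Agent.Lib.Sm.G.Sys

/-!
SMITH, block E, part E4 (1): signs, and the Steinberg relation for the explicit tame symbol.
-/

set_option autoImplicit false

namespace Pool.Agent.SmithE

open Pool.Agent.Lib.SmD Pool.Agent.Sm

/-- the bracket of two pairs of values `(c sg, c phi)` -/
def br (ep : ZMod 2) (u v : ZMod 2 × ZMod 2) : ZMod 2 := u.1 * v.2 + u.2 * v.1 + ep * (u.1 * v.1)

section signs

variable {K Om : Type} [Field K] [Field Om] [Algebra K Om]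

/-- `s r = (-1) ^ a r` -/
def Sg (s : Om ≃ₐ[K] Om) (r : Om) (a : ZMod 2) : Prop := s r = ((sgn a : ℤ) : Om) * r

theorem zcases (a : ZMod 2) : a = 0 ∨ a = 1 := by
  revert a; decide

theorem sgn_zero : sgn 0 = 1 := rfl

theorem sgn_one : sgn 1 = -1 := rfl

theorem Sg_zero {s : Om ≃ₐ[K] Om} {r : Om} : Sg s r 0 ↔ s r = r := by
  rw [Sg, sgn_zero, Int.cast_one, one_mul]

theorem Sg_one {s : Om ≃ₐ[K] Om} {r : Om} : Sg s r 1 ↔ s r = -r := by
  rw [Sg, sgn_one, Int.cast_neg, Int.cast_one, neg_one_mul]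

theorem Sg.mul {s : Om ≃ₐ[K] Om} {r r' : Om} {a a' : ZMod 2} (h : Sg s r a) (h' : Sg s r' a') :
    Sg s (r * r') (a + a') := by
  rcases zcases a with rfl | rfl <;> rcases zcases a' with rfl | rfl
  · rw [add_zero, Sg_zero]
    rw [Sg_zero] at h h'
    rw [map_mul, h, h']
  · rw [zero_add, Sg_one]
    rw [Sg_zero] at h
    rw [Sg_one] at h'
    rw [map_mul, h, h', mul_neg]
  · rw [add_zero, Sg_one]
    rw [Sg_one] at h
    rw [Sg_zero] at h'
    rw [map_mul, h, h', neg_mul]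
  · have : (1 : ZMod 2) + 1 = 0 := by decide
    rw [this, Sg_zero]
    rw [Sg_one] at h h'
    rw [map_mul, h, h', neg_mul_neg]

theorem Sg.inv {s : Om ≃ₐ[K] Om} {r : Om} {a : ZMod 2} (h : Sg s r a) : Sg s r⁻¹ a := by
  rcases zcases a with rfl | rfl
  · rw [Sg_zero] at *
    rw [map_inv₀, h]
  · rw [Sg_one] at *
    rw [map_inv₀, h, inv_neg]

theorem Sg.div {s : Om ≃ₐ[K] Om} {r r' : Om} {a a' : ZMod 2} (h : Sg s r a) (h' : Sg s r' a') :
    Sg s (r / r') (a + a') := by
  rw [div_eq_mul_inv]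
  exact h.mul h'.inv

theorem Sg.neg {s : Om ≃ₐ[K] Om} {r : Om} {a : ZMod 2} (h : Sg s r a) : Sg s (-r) a := by
  rw [Sg] at *
  rw [map_neg, h, mul_neg]

theorem Sg.unique (h2 : (2 : Om) ≠ 0) {s : Om ≃ₐ[K] Om} {r : Om} (hr : r ≠ 0) {a a' : ZMod 2}
    (h : Sg s r a) (h' : Sg s r a') : a = a' := by
  have key : r = -r → False := by
    intro h3
    have h4 : 2 * r = 0 := by linear_combination h3
    rcases mul_eq_zero.mp h4 with h5 | h5
    · exact h2 h5
    · exact hr h5
  rcases zcases a with rfl | rfl <;> rcases zcases a' with rfl | rfl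
  · rfl
  · exact (key ((Sg_zero.mp h).symm.trans (Sg_one.mp h'))).elim
  · exact (key ((Sg_zero.mp h').symm.trans (Sg_one.mp h))).elim
  · rfl

theorem exists_Sg {s : Om ≃ₐ[K] Om} {r : Om} (h : s (r ^ 2) = r ^ 2) : ∃ a, Sg s r a := by
  rw [map_pow] at h
  rcases sq_eq_sq_iff_eq_or_eq_neg.mp h with h | h
  · exact ⟨0, Sg_zero.mpr h⟩
  · exact ⟨1, Sg_one.mpr h⟩

theorem Sg.sq_fix {s : Om ≃ₐ[K] Om} {r : Om} {a : ZMod 2} (h : Sg s r a) :
    s (r ^ 2) = r ^ 2 := by
  rw [map_pow]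
  rcases zcases a with rfl | rfl
  · rw [Sg_zero.mp h]
  · rw [Sg_one.mp h, neg_sq]

/-- two roots of the same element have the same sign -/
theorem Sg.of_sq_eq {s : Om ≃ₐ[K] Om} {r r' : Om} {a : ZMod 2} (h : Sg s r a)
    (hrr : r' ^ 2 = r ^ 2) : Sg s r' a := by
  rcases sq_eq_sq_iff_eq_or_eq_neg.mp hrr with rfl | rfl
  · exact h
  · exact h.neg

end signs

section local_

variable {K Om : Type} [Field K] [Field Om] [Algebra K Om] {w : ValuationSubring Om}

theorem val_mul_lt {x y : Om} (hx : w.valuation x ≤ 1) (hy : w.valuation y < 1) :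
    w.valuation (x * y) < 1 := by
  rw [map_mul]
  exact mul_lt_one_of_nonneg_of_lt_one_right hx zero_le hy

/-- powers of congruent integral elements are congruent -/
theorem val_pow_sub {x y : Om} (hx : w.valuation x ≤ 1) (hy : w.valuation y ≤ 1)
    (h : w.valuation (x - y) < 1) (m : ℕ) : w.valuation (x ^ m - y ^ m) < 1 := by
  induction m with
  | zero => simp
  | succ m ih =>
    have e : x ^ (m + 1) - y ^ (m + 1) = x * (x ^ m - y ^ m) + y ^ m * (x - y) := by ring
    rw [e]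
    refine (w.valuation.map_add _ _).trans_lt (max_lt (val_mul_lt hx ih) (val_mul_lt ?_ h))
    rw [map_pow]
    exact pow_le_one₀ zero_le hy

/-- a unit with square congruent to `-1`: signs at an inertia and at a Frobenius element -/
theorem Sg_of_sq_neg_one (h2 : w.valuation 2 = 1) {s φ : Om ≃ₐ[K] Om} (hs : s ∈ iner K w)
    (hφ : IsFrob K w φ) {m : ℕ} (hq : resCard (below K w) = 2 * m + 1) {t : Om}
    (ht : w.valuation (t ^ 2 + 1) < 1) (f1 : s (t ^ 2) = t ^ 2) (f2 : φ (t ^ 2) = t ^ 2) :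
    Sg s t 0 ∧ Sg φ t (m : ZMod 2) := by
  have hv2 : w.valuation (t ^ 2) = 1 := by
    have e : t ^ 2 = (t ^ 2 + 1) - 1 := by ring
    rw [e, ← neg_sub, Valuation.map_neg]
    rw [Valuation.map_sub_eq_of_lt_left, map_one]
    rw [map_one]
    exact ht
  have hv : w.valuation t = 1 := val_eq_one_of_sq hv2 rfl
  have hs1 := sqrt_fix_iner h2 hs hv2 f1 rfl
  refine ⟨Sg_zero.mpr hs1, ?_⟩
  -- Frobenius
  have htw : t ∈ w := mem_of_val_eq_one hv
  have h3 := hφ.frob t htw
  rw [hq] at h3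
  have h4 : w.valuation ((t ^ 2) ^ m - (-1) ^ m) < 1 := by
    refine val_pow_sub hv2.le (by rw [Valuation.map_neg, map_one]) ?_ m
    rwa [sub_neg_eq_add]
  have h5 : w.valuation (φ t - (-1) ^ m * t) < 1 := by
    have e : φ t - (-1) ^ m * t = (φ t - t ^ (2 * m + 1)) + t * ((t ^ 2) ^ m - (-1) ^ m) := by ring
    rw [e]
    exact (w.valuation.map_add _ _).trans_lt (max_lt h3 (val_mul_lt hv.le h4))
  have hne : ∀ z : Om, w.valuation z = 1 → ¬ w.valuation (-z - z) < 1 := by
    intro z hz hlt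
    rw [val_sub_neg h2, hz] at hlt
    exact lt_irrefl _ hlt
  rcases Nat.even_or_odd m with he | ho
  · rw [he.neg_one_pow, one_mul] at h5
    have : ((m : ℕ) : ZMod 2) = 0 := by
      rw [ZMod.natCast_eq_zero_iff_even]
      exact he
    rw [this, Sg_zero]
    rcases eq_or_eq_neg_of_fix rfl f2 with h | h
    · exact h
    · rw [h] at h5
      exact absurd h5 (hne t hv)
  · rw [ho.neg_one_pow, neg_one_mul, sub_neg_eq_add] at h5
    have : ((m : ℕ) : ZMod 2) = 1 := by
      rw [ZMod.natCast_eq_one_iff_odd]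
      exact ho
    rw [this, Sg_one]
    rcases eq_or_eq_neg_of_fix rfl f2 with h | h
    · rw [h, ← Valuation.map_neg] at h5
      have e : -(t + t) = -t - t := by ring
      rw [e] at h5
      exact absurd h5 (hne t hv)
    · exact h

/-- **Steinberg relation**: `r ^ 2 + r' ^ 2 = 1` -/
theorem steinberg (h2 : w.valuation 2 = 1) {s φ : Om ≃ₐ[K] Om} (hs : s ∈ iner K w)
    (hφ : IsFrob K w φ) {m : ℕ} (hq : resCard (below K w) = 2 * m + 1) {r r' : Om}
    (hr : r ≠ 0) (hr' : r' ≠ 0) (h1 : r ^ 2 + r' ^ 2 = 1) {a b a' b' : ZMod 2} (ha : Sg s r a)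
    (hb : Sg φ r b) (ha' : Sg s r' a') (hb' : Sg φ r' b') :
    br (m : ZMod 2) (a, b) (a', b') = 0 := by
  have h20 : (2 : Om) ≠ 0 := two_ne_zero_Om h2
  -- a root congruent to `±1` is fixed by both
  have fixed : ∀ {u v : Om}, u ^ 2 + v ^ 2 = 1 → v ≠ 0 → w.valuation u < 1 → ∀ {c d : ZMod 2},
      Sg s v c → Sg φ v d → c = 0 ∧ d = 0 := by
    intro u v huv hv hu c d hc hd
    have h3 : w.valuation (v ^ 2 - 1) < 1 := by
      have e : v ^ 2 - 1 = -(u * u) := by linear_combination huv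
      rw [e, Valuation.map_neg]
      exact val_mul_lt hu.le hu
    have f1 := sqrt_fix_dec h2 hs.1 h3 hc.sq_fix rfl
    have f2 := sqrt_fix_dec h2 hφ.mem h3 hd.sq_fix rfl
    exact ⟨hc.unique h20 hv (Sg_zero.mpr f1), hd.unique h20 hv (Sg_zero.mpr f2)⟩
  rcases lt_trichotomy (w.valuation r) 1 with hv | hv | hv
  · obtain ⟨rfl, rfl⟩ := fixed h1 hr' hv ha' hb'
    simp [br]
  · have hle : w.valuation r' ≤ 1 := by
      have e : r' ^ 2 = 1 - r ^ 2 := by linear_combination h1
      have h3 : w.valuation (r' ^ 2) ≤ 1 := by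
        rw [e]
        refine (w.valuation.map_sub _ _).trans (max_le (by rw [map_one]) ?_)
        rw [map_pow, hv, one_pow]
      rw [map_pow] at h3
      exact (pow_le_one_iff_of_nonneg zero_le two_ne_zero).mp h3
    rcases lt_or_eq_of_le hle with hlt | heq
    · obtain ⟨rfl, rfl⟩ := fixed (by rw [add_comm]; exact h1) hr hlt ha hb
      simp [br]
    · have ea : a = 0 := ha.unique h20 hr (Sg_zero.mpr (sqrt_fix_iner h2 hs
        (by rw [map_pow, hv, one_pow]) ha.sq_fix rfl))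
      have ea' : a' = 0 := ha'.unique h20 hr' (Sg_zero.mpr (sqrt_fix_iner h2 hs
        (by rw [map_pow, heq, one_pow]) ha'.sq_fix rfl))
      rw [ea, ea']
      simp [br]
  · -- `t = r' / r`
    have ht : w.valuation ((r' / r) ^ 2 + 1) < 1 := by
      have e : (r' / r) ^ 2 + 1 = (r⁻¹) ^ 2 := by
        field_simp
        linear_combination h1
      rw [e, map_pow, map_inv₀]
      exact pow_lt_one₀ zero_le (inv_lt_one_of_one_lt₀ hv) two_ne_zero
    have st := ha'.div ha
    have ft := hb'.div hb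
    obtain ⟨c1, c2⟩ := Sg_of_sq_neg_one h2 hs hφ hq ht st.sq_fix ft.sq_fix
    have htn : r' / r ≠ 0 := div_ne_zero hr' hr
    have k1 := st.unique h20 htn c1
    have k2 := ft.unique h20 htn c2
    revert k1 k2
    generalize (m : ZMod 2) = ep
    revert a b a' b' ep
    intro a b a' b' _ _ _ _ _ _ ep k1 k2
    clear * - k1 k2
    revert a b a' b' ep
    decide

end local_

end Pool.Agent.SmithE
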