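import Pool.Agent.Lib.SM.E.Inert
import Pool.Agent.Lib.SM.E.Stein

/-!
SMITH, block E, part E4: the local Kummer groups are isotropic for the explicit symbol.
-/

set_option autoImplicit false

namespace Pool.Agent.SmithE

open WeierstrassCurve WeierstrassCurve.Affine
open Pool.Agent.Lib.SmD Pool.Agent.Sm

variable {K Om : Type} [Field K] [Field Om] [Algebra K Om] [DecidableEq Om] {e₁ e₂ e₃ : K}
  (h2 : (2 : K) ≠ 0) (h12 : e₁ ≠ e₂) (h13 : e₁ ≠ e₃) (h23 : e₂ ≠ e₃)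

section R

theorem Rf_zero_add {W : WeierstrassCurve Om} {a b c : Om} (Q : W.toAffine.Point) :
    Rf a b c (Q + 0) = Rf a b c Q := by rw [add_zero]

/-- `R₁ (Q + z) = (-1) ^ e(T₁, z) R₁ (Q)` -/
theorem Rf1_iota (Q : Pt Om e₁ e₂ e₃) (hQ : Q + Q ≠ 0) (z : V1) :
    Rf (algebraMap K Om e₁) (algebraMap K Om e₂) (algebraMap K Om e₃)
      (Q + (iota h2 h12 h13 h23 Om z : VV Om e₁ e₂ e₃).1) =
      ((sgn z.2 : ℤ) : Om) *
        Rf (algebraMap K Om e₁) (algebraMap K Om e₂) (algebraMap K Om e₃) Q := by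
  have inj := (algebraMap K Om).injective
  have h20 := two_ne_zero_of_algebraMap (Ω := Om) h2
  have hW := baseChange_crv (Ω := Om) (e₁ := e₁) (e₂ := e₂) (e₃ := e₃)
  rcases V1_cases z with rfl | rfl | rfl | rfl
  · have : iota h2 h12 h13 h23 Om (0, 0) = 0 := map_zero _
    rw [this, sgn_zero, Int.cast_one, one_mul]
    exact Rf_zero_add Q
  · rw [iota_one_zero, sgn_zero, Int.cast_one, one_mul, coe_T1]
    exact Rf_add_same hW h20 (inj.ne h12) (inj.ne h13) hQ _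
  · rw [iota_zero_one, sgn_one, Int.cast_neg, Int.cast_one, neg_one_mul, coe_T2]
    exact Rf_add_other hW h20 (inj.ne h12) (inj.ne h23) hQ _
  · rw [iota_one_one, sgn_one, Int.cast_neg, Int.cast_one, neg_one_mul, coe_T3]
    have h := Rf_add_other (hW.trans (crv_swap23 _ _ _)) h20 (inj.ne h13) (inj.ne h23.symm) hQ
      (nonsingular_bc3 h13 h23)
    rw [Rf_comm, Rf_comm Q]
    exact h

/-- `R₂ (Q + z) = (-1) ^ e(T₂, z) R₂ (Q)` -/
theorem Rf2_iota (Q : Pt Om e₁ e₂ e₃) (hQ : Q + Q ≠ 0) (z : V1) :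
    Rf (algebraMap K Om e₂) (algebraMap K Om e₁) (algebraMap K Om e₃)
      (Q + (iota h2 h12 h13 h23 Om z : VV Om e₁ e₂ e₃).1) =
      ((sgn z.1 : ℤ) : Om) *
        Rf (algebraMap K Om e₂) (algebraMap K Om e₁) (algebraMap K Om e₃) Q := by
  have inj := (algebraMap K Om).injective
  have h20 := two_ne_zero_of_algebraMap (Ω := Om) h2
  have hW := (baseChange_crv (Ω := Om) (e₁ := e₁) (e₂ := e₂) (e₃ := e₃)).trans (crv_swap12 _ _ _)
  rcases V1_cases z with rfl | rfl | rfl | rfl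
  · have : iota h2 h12 h13 h23 Om (0, 0) = 0 := map_zero _
    rw [this, sgn_zero, Int.cast_one, one_mul]
    exact Rf_zero_add Q
  · rw [iota_one_zero, sgn_one, Int.cast_neg, Int.cast_one, neg_one_mul, coe_T1]
    exact Rf_add_other hW h20 (inj.ne h12.symm) (inj.ne h13) hQ _
  · rw [iota_zero_one, sgn_zero, Int.cast_one, one_mul, coe_T2]
    exact Rf_add_same hW h20 (inj.ne h12.symm) (inj.ne h23) hQ _
  · rw [iota_one_one, sgn_one, Int.cast_neg, Int.cast_one, neg_one_mul, coe_T3]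
    have h := Rf_add_other (hW.trans (crv_swap23 _ _ _)) h20 (inj.ne h23) (inj.ne h13.symm) hQ
      (nonsingular_bc3 h13 h23)
    rw [Rf_comm, Rf_comm Q]
    exact h

/-- `s Q` from the twisted coboundary -/
theorem smul_of_dl {chi : (Om ≃ₐ[K] Om) → ZMod 2} {Q : VV Om e₁ e₂ e₃} {s : Om ≃ₐ[K] Om} {z : V1}
    (h : dl chi Q s = iota h2 h12 h13 h23 Om z) :
    (chi s = 0 ∧ s • Q.1 = Q.1 + (iota h2 h12 h13 h23 Om z : VV Om e₁ e₂ e₃).1) ∨
    (chi s = 1 ∧ s • Q.1 = -(Q.1 + (iota h2 h12 h13 h23 Om z : VV Om e₁ e₂ e₃).1)) := by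
  rw [dl, tw] at h
  rcases zcases (chi s) with h1 | h1
  · left
    rw [h1, sgn_zero, one_smul, sub_eq_iff_eq_add] at h
    refine ⟨h1, ?_⟩
    have := congrArg Subtype.val h
    rw [add_comm] at this
    exact this
  · right
    rw [h1, sgn_one, neg_smul, one_smul, sub_eq_iff_eq_add] at h
    refine ⟨h1, ?_⟩
    have h3 := neg_eq_iff_eq_neg.mp (congrArg Subtype.val h)
    rw [add_comm] at h3
    exact h3

/-- the sign of `s` on `d R₁ (Q)` -/
theorem Sg_Rf1 {chi : (Om ≃ₐ[K] Om) → ZMod 2} {Q : VV Om e₁ e₂ e₃} {s : Om ≃ₐ[K] Om} {z : V1}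
    (h : dl chi Q s = iota h2 h12 h13 h23 Om z) (hQ : Q.1 + Q.1 ≠ 0) {d : Om}
    (hd : Sg s d (chi s)) :
    Sg s (d * Rf (algebraMap K Om e₁) (algebraMap K Om e₂) (algebraMap K Om e₃) Q.1) z.2 := by
  have hW := baseChange_crv (Ω := Om) (e₁ := e₁) (e₂ := e₂) (e₃ := e₃)
  have key : Sg s (Rf (algebraMap K Om e₁) (algebraMap K Om e₂) (algebraMap K Om e₃) Q.1)
      (chi s + z.2) := by
    rw [Sg, ← Rf_smul]
    rcases smul_of_dl h2 h12 h13 h23 h with ⟨h1, h3⟩ | ⟨h1, h3⟩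
    · rw [h1, zero_add, h3, Rf1_iota h2 h12 h13 h23 _ hQ]
    · rw [h1, h3, Rf_neg hW, Rf1_iota h2 h12 h13 h23 _ hQ]
      rcases zcases z.2 with h4 | h4
      · rw [h4, add_zero, sgn_zero, sgn_one]
        push_cast
        ring
      · have : (1 : ZMod 2) + 1 = 0 := by decide
        rw [h4, this, sgn_zero, sgn_one]
        push_cast
        ring
  have h5 := hd.mul key
  have e : chi s + (chi s + z.2) = z.2 := by
    rw [← add_assoc, CharTwo.add_self_eq_zero, zero_add]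
  rwa [e] at h5

/-- the sign of `s` on `d R₂ (Q)` -/
theorem Sg_Rf2 {chi : (Om ≃ₐ[K] Om) → ZMod 2} {Q : VV Om e₁ e₂ e₃} {s : Om ≃ₐ[K] Om} {z : V1}
    (h : dl chi Q s = iota h2 h12 h13 h23 Om z) (hQ : Q.1 + Q.1 ≠ 0) {d : Om}
    (hd : Sg s d (chi s)) :
    Sg s (d * Rf (algebraMap K Om e₂) (algebraMap K Om e₁) (algebraMap K Om e₃) Q.1) z.1 := by
  have hW := (baseChange_crv (Ω := Om) (e₁ := e₁) (e₂ := e₂) (e₃ := e₃)).trans (crv_swap12 _ _ _)
  have key : Sg s (Rf (algebraMap K Om e₂) (algebraMap K Om e₁) (algebraMap K Om e₃) Q.1)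
      (chi s + z.1) := by
    rw [Sg, ← Rf_smul]
    rcases smul_of_dl h2 h12 h13 h23 h with ⟨h1, h3⟩ | ⟨h1, h3⟩
    · rw [h1, zero_add, h3, Rf2_iota h2 h12 h13 h23 _ hQ]
    · rw [h1, h3, Rf_neg hW, Rf2_iota h2 h12 h13 h23 _ hQ]
      rcases zcases z.1 with h4 | h4
      · rw [h4, add_zero, sgn_zero, sgn_one]
        push_cast
        ring
      · have : (1 : ZMod 2) + 1 = 0 := by decide
        rw [h4, this, sgn_zero, sgn_one]
        push_cast
        ring
  have h5 := hd.mul key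
  have e : chi s + (chi s + z.1) = z.1 := by
    rw [← add_assoc, CharTwo.add_self_eq_zero, zero_add]
  rwa [e] at h5

/-- the coboundary of a point of order dividing 2 vanishes -/
theorem dl_of_add_self {chi : (Om ≃ₐ[K] Om) → ZMod 2} {Q : VV Om e₁ e₂ e₃} {s : Om ≃ₐ[K] Om}
    {z : V1} (h : dl chi Q s = iota h2 h12 h13 h23 Om z) (hQ : Q.1 + Q.1 = 0) : z = 0 := by
  apply iota_injective h2 h12 h13 h23 (Ω := Om)
  rw [map_zero, ← h]
  obtain ⟨z', rfl⟩ := iota_range h2 h12 h13 h23 Q (by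
    rw [two_smul]
    exact Subtype.ext hQ)
  rw [dl, tw, iota_fix]
  rcases zcases (chi s) with h1 | h1
  · rw [h1, sgn_zero, one_smul, sub_self]
  · rw [h1, sgn_one, neg_smul, one_smul]
    have : iota h2 h12 h13 h23 Om z' + iota h2 h12 h13 h23 Om z' = 0 := by
      rw [← map_add]
      have : z' + z' = 0 := by
        rcases V1_cases z' with rfl | rfl | rfl | rfl <;> decide
      rw [this, map_zero]
    rw [← neg_add', this, neg_zero]

end R

/-- the quadratic function vanishing on the Kummer image -/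
def qf (ep : ZMod 2) (A : ZMod 2 × ZMod 2) (x : V1 × V1) : ZMod 2 :=
  br ep (x.1.2, x.2.2) (x.1.1, x.2.1) + br ep (x.1.2, x.2.2) (A.1, A.2 + ep) +
    br ep A (x.1.1, x.2.1)

theorem sym_eq_qf (ep : ZMod 2) (A : ZMod 2 × ZMod 2) (x y : V1 × V1) :
    sym ep x y = qf ep A (x + y) + qf ep A x + qf ep A y := by
  obtain ⟨⟨x11, x12⟩, ⟨x21, x22⟩⟩ := x
  obtain ⟨⟨y11, y12⟩, ⟨y21, y22⟩⟩ := y
  obtain ⟨A1, A2⟩ := A
  have h : ∀ a : ZMod 2, a + a = 0 := by decide
  simp only [sym, ee, qf, br, Prod.mk_add_mk]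
  linear_combination (exp := 1) - h (x12 * x21) - h (x22 * x11) - h (ep * (x12 * x11))
    - h (y12 * y21) - h (y22 * y11) - h (ep * (y12 * y11))
    - h (x12 * (A2 + ep)) - h (x22 * A1) - h (ep * (x12 * A1))
    - h (y12 * (A2 + ep)) - h (y22 * A1) - h (ep * (y12 * A1))
    - h (A1 * x21) - h (A2 * x11) - h (ep * (A1 * x11))
    - h (A1 * y21) - h (A2 * y11) - h (ep * (A1 * y11))

section main

variable [IsSepClosed Om] {w : ValuationSubring Om}

/-- the quadratic function vanishes on the Kummer image -/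
theorem exists_qf (hv2 : w.valuation 2 = 1) {s φ : Om ≃ₐ[K] Om} (hs : s ∈ iner K w)
    (hφ : IsFrob K w φ) {m : ℕ} (hq : resCard (below K w) = 2 * m + 1)
    {chi : (Om ≃ₐ[K] Om) → ZMod 2} {d : Om} (hd : d ≠ 0) (hds : Sg s d (chi s))
    (hdφ : Sg φ d (chi φ)) :
    ∃ A : ZMod 2 × ZMod 2, ∀ (Q : VV Om e₁ e₂ e₃) (x : V1 × V1),
      dl chi Q s = iota h2 h12 h13 h23 Om x.1 → dl chi Q φ = iota h2 h12 h13 h23 Om x.2 →
      qf (m : ZMod 2) A x = 0 := by
  have h20 : (2 : Om) ≠ 0 := two_ne_zero_Om hv2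
  have inj := (algebraMap K Om).injective
  have hW := baseChange_crv (Ω := Om) (e₁ := e₁) (e₂ := e₂) (e₃ := e₃)
  obtain ⟨i, hi⟩ := exists_sqrt h20 (-1 : Om)
  obtain ⟨δ, hδ⟩ := exists_sqrt h20 (algebraMap K Om (e₂ - e₁))
  have hδ0 : δ ≠ 0 := by
    rintro rfl
    rw [zero_pow two_ne_zero] at hδ
    exact h12 (sub_eq_zero.mp (inj (by rw [← hδ, map_zero]))).symm
  have hi0 : i ≠ 0 := by
    rintro rfl
    rw [zero_pow two_ne_zero] at hi
    have : (1 : Om) = 0 := by linear_combination hi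
    exact one_ne_zero this
  obtain ⟨i1, i2⟩ := Sg_of_sq_neg_one hv2 hs hφ hq (t := i) (by rw [hi]; simp)
    (by rw [hi, map_neg, map_one]) (by rw [hi, map_neg, map_one])
  obtain ⟨a1, ha1⟩ := exists_Sg (s := s) (r := δ) (by rw [hδ, AlgEquiv.commutes])
  obtain ⟨a2, ha2⟩ := exists_Sg (s := φ) (r := δ) (by rw [hδ, AlgEquiv.commutes])
  have hA1 := hds.mul ha1
  have hA2 := hdφ.mul ha2
  have hD0 : d * δ ≠ 0 := mul_ne_zero hd hδ0
  refine ⟨(chi s + a1, chi φ + a2), ?_⟩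
  intro Q x hx1 hx2
  by_cases hQ : Q.1 + Q.1 = 0
  · have z1 := dl_of_add_self h2 h12 h13 h23 hx1 hQ
    have z2 := dl_of_add_self h2 h12 h13 h23 hx2 hQ
    obtain ⟨x1, x2⟩ := x
    change x1 = 0 at z1
    change x2 = 0 at z2
    subst z1 z2
    simp [qf, br]
  · obtain ⟨X, Y, hXY, hPP, q1, q2, q3⟩ := Rf_sq hW h20 hQ
    have s1 := Sg_Rf1 h2 h12 h13 h23 hx1 hQ hds
    have f1 := Sg_Rf1 h2 h12 h13 h23 hx2 hQ hdφ
    have s2 := Sg_Rf2 h2 h12 h13 h23 hx1 hQ hds
    have f2 := Sg_Rf2 h2 h12 h13 h23 hx2 hQ hdφ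
    set R1 := Rf (algebraMap K Om e₁) (algebraMap K Om e₂) (algebraMap K Om e₃) Q.1 with hR1
    set R2 := Rf (algebraMap K Om e₂) (algebraMap K Om e₁) (algebraMap K Om e₃) Q.1 with hR2
    have hrel : R1 ^ 2 - R2 ^ 2 = δ ^ 2 := by
      rw [← q1, ← q2, hδ, map_sub]
      ring
    obtain ⟨⟨x11, x12⟩, ⟨x21, x22⟩⟩ := x
    change Sg s (d * R1) x12 at s1
    change Sg φ (d * R1) x22 at f1
    change Sg s (d * R2) x11 at s2
    change Sg φ (d * R2) x21 at f2
    generalize chi s + a1 = A1 at hA1 ⊢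
    generalize chi φ + a2 = A2 at hA2 ⊢
    by_cases hR10 : R1 = 0
    · -- `2 Q = T₁`
      have e1 : (i * (d * δ)) ^ 2 = (d * R2) ^ 2 := by
        rw [hR10] at hrel
        have e3 : δ ^ 2 = - R2 ^ 2 := by rw [← hrel]; ring
        rw [mul_pow, hi, mul_pow, e3]
        ring
      have hne : i * (d * δ) ≠ 0 := mul_ne_zero hi0 hD0
      have k1 := (s2.of_sq_eq e1).unique h20 hne (i1.mul hA1)
      have k2 := (f2.of_sq_eq e1).unique h20 hne (i2.mul hA2)
      rw [zero_add] at k1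
      rw [k1, k2]
      generalize (m : ZMod 2) = ep
      clear * -
      simp only [qf, br]
      revert A1 A2 x12 x22 ep
      decide
    · by_cases hR20 : R2 = 0
      · have e1 : (d * δ) ^ 2 = (d * R1) ^ 2 := by
          rw [hR20] at hrel
          rw [mul_pow, ← hrel]
          ring
        have k1 := (s1.of_sq_eq e1).unique h20 hD0 hA1
        have k2 := (f1.of_sq_eq e1).unique h20 hD0 hA2
        rw [k1, k2]
        generalize (m : ZMod 2) = ep
        clear * -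
        simp only [qf, br]
        revert A1 A2 x11 x21 ep
        decide
      · -- the general case: Steinberg
        have hst : ((d * R1) / (d * δ)) ^ 2 + (i * (d * R2) / (d * δ)) ^ 2 = 1 := by
          have e3 : (d * δ) ^ 2 = (d * R1) ^ 2 - (d * R2) ^ 2 := by
            rw [mul_pow, ← hrel]
            ring
          rw [div_pow, div_pow, ← add_div, mul_pow i, hi, div_eq_one_iff_eq (pow_ne_zero _ hD0), e3]
          ring
        have key := steinberg hv2 hs hφ hq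
          (div_ne_zero (mul_ne_zero hd hR10) hD0)
          (div_ne_zero (mul_ne_zero hi0 (mul_ne_zero hd hR20)) hD0) hst
          (s1.div hA1) (f1.div hA2) ((i1.mul s2).div hA1) ((i2.mul f2).div hA2)
        rw [zero_add] at key
        revert key
        generalize (m : ZMod 2) = ep
        clear * -
        simp only [qf, br]
        revert A1 A2 x11 x21 x12 x22 ep
        decide

/-- **E4**: the Kummer image is isotropic -/
theorem isotropic (hv2 : w.valuation 2 = 1) {s φ : Om ≃ₐ[K] Om} (hs : s ∈ iner K w)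
    (hφ : IsFrob K w φ) {m : ℕ} (hq : resCard (below K w) = 2 * m + 1)
    {chi : (Om ≃ₐ[K] Om) → ZMod 2} {d : Om} (hd : d ≠ 0) (hds : Sg s d (chi s))
    (hdφ : Sg φ d (chi φ)) (Q Q' : VV Om e₁ e₂ e₃) (x y : V1 × V1)
    (hx1 : dl chi Q s = iota h2 h12 h13 h23 Om x.1)
    (hx2 : dl chi Q φ = iota h2 h12 h13 h23 Om x.2)
    (hy1 : dl chi Q' s = iota h2 h12 h13 h23 Om y.1)
    (hy2 : dl chi Q' φ = iota h2 h12 h13 h23 Om y.2) :
    sym (m : ZMod 2) x y = 0 := by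
  obtain ⟨A, hA⟩ := exists_qf h2 h12 h13 h23 hv2 hs hφ hq hd hds hdφ
  have hadd : ∀ t, dl chi (Q + Q') t = dl chi Q t + dl chi Q' t := by
    intro t
    simp only [dl, tw, smul_add]
    abel
  rw [sym_eq_qf _ A, hA Q x hx1 hx2, hA Q' y hy1 hy2, hA (Q + Q') (x + y) ?_ ?_]
  · rfl
  · rw [hadd, hx1, hy1, Prod.fst_add, map_add]
  · rw [hadd, hx2, hy2, Prod.snd_add, map_add]

end main

end Pool.Agent.SmithE
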