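import Pool.Agent.Lib.SM.E.E6
import Pool.Agent.Lib.SmD.DvrBelow
import Pool.Agent.Lib.SmD.ValIner

/-!
SMITH, block E6 over `K = k(t)`, `k` finite: for every nontrivial place `w` of `Ω` containing `k`.
This is `E6Prop` of `Sm/L/Final4.lean`.
-/

set_option autoImplicit false

open WeierstrassCurve Pool.Agent.Lib.SmD

namespace Pool.Agent.SmithE

section general

variable {K Ω : Type} [Field K] [Field Ω] [Algebra K Ω] [DecidableEq Ω] [IsGalois K Ω]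
  [IsSepClosed Ω] {w : ValuationSubring Ω} {π e₁ e₂ e₃ : K}

/-- E6 at a place with a discrete valuation below and finite residue field -/
theorem e6_locHyp (h : LocHyp K w π) (h12 : e₁ ≠ e₂) (h13 : e₁ ≠ e₃) (h23 : e₂ ≠ e₃)
    (Q : Pt Ω e₁ e₂ e₃) (j : ℕ) (hQ : ∀ s ∈ dec K w, (2 : ℕ) ^ j • (s • Q - Q) = 0) :
    ∃ Q' ∈ VV Ω e₁ e₂ e₃, ∀ s ∈ dec K w, s • Q' - Q' = s • Q - Q :=
  e6 h (fun _ hx0 hx => value_iner h hx0 fun σ hσ => hx σ (iner_le_dec K w hσ))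
    h12 h13 h23 Q j hQ

/-- points fixed by the decomposition group -/
theorem e6_div_locHyp (h : LocHyp K w π) (h12 : e₁ ≠ e₂) (h13 : e₁ ≠ e₃) (h23 : e₂ ≠ e₃)
    (P : Pt Ω e₁ e₂ e₃) (hP : ∀ s ∈ dec K w, s • P = P) (j : ℕ) :
    ∃ (t P₁ : Pt Ω e₁ e₂ e₃) (a : ℕ), (2 : ℕ) ^ a • t = 0 ∧ P = t + (2 : ℕ) ^ j • P₁ ∧
      ∀ s ∈ dec K w, s • P₁ = P₁ :=
  e6_div h (fun _ hx0 hx => value_iner h hx0 fun σ hσ => hx σ (iner_le_dec K w hσ))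
    h12 h13 h23 P hP j

/-- E6 for the quadratic twist by `D` -/
theorem e6_twist_locHyp (h : LocHyp K w π) (h12 : e₁ ≠ e₂) (h13 : e₁ ≠ e₃) (h23 : e₂ ≠ e₃)
    {D : K} (hD : D ≠ 0) {d : Ω}
    (hd : d ^ 2 = algebraMap K Ω D) (ε : (Ω ≃ₐ[K] Ω) → ℤˣ)
    (hε : ∀ s, s d = ((ε s : ℤ) : Ω) * d) (Q : Pt Ω e₁ e₂ e₃) (j : ℕ)
    (hQ : ∀ s ∈ dec K w, (2 : ℕ) ^ j • ((ε s : ℤ) • (s • Q) - Q) = 0) :
    ∃ Q' ∈ VV Ω e₁ e₂ e₃, ∀ s ∈ dec K w,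
      (ε s : ℤ) • (s • Q') - Q' = (ε s : ℤ) • (s • Q) - Q :=
  e6_twist h (fun _ hx0 hx => value_iner h hx0 fun σ hσ => hx σ (iner_le_dec K w hσ))
    h12 h13 h23 hD hd ε hε Q j hQ

end general

open scoped Classical in
/-- **E6** over `k(t)`: this is `E6Prop k Ω a b c`. -/
theorem e6_ratFunc {k : Type} [Field k] [Finite k] (h2 : (2 : k) ≠ 0) {Ω : Type} [Field Ω]
    [Algebra (RatFunc k) Ω] [IsGalois (RatFunc k) Ω] [IsSepClosed Ω] {a b c : RatFunc k}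
    (hab : a ≠ b) (hac : a ≠ c) (hbc : b ≠ c) (w : ValuationSubring Ω) (hw : w ≠ ⊤)
    (hc : ∀ x : k, algebraMap (RatFunc k) Ω (algebraMap k (RatFunc k) x) ∈ w) (j : ℕ)
    (Q : Pt Ω a b c)
    (hQ : ∀ s ∈ w.decompositionSubgroup (RatFunc k), (2 : ℕ) ^ j • (s • Q - Q) = 0) :
    ∃ Q' : Pt Ω a b c, (∃ i : ℕ, (2 : ℕ) ^ i • Q' = 0) ∧
      ∀ s ∈ w.decompositionSubgroup (RatFunc k), s • Q - Q = s • Q' - Q' := by
  obtain ⟨π, hπ⟩ := exists_locHyp_of_ne_top h2 w hw hc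
  obtain ⟨Q', h1, h3⟩ := e6_locHyp hπ hab hac hbc Q j hQ
  exact ⟨Q', h1, fun s hs => (h3 s hs).symm⟩

end Pool.Agent.SmithE
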