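import Pool.Agent.Lib.SM.E.Half
import Pool.Agent.Lib.SmD.NN

/-!
SMITH, block E1: the 2-power torsion `V` of `E(Ω)`, `E : y ^ 2 = (x - e₁) (x - e₂) (x - e₃)`, as
a module over `Gal(Ω/K)`; `V1 = E[2] = (ZMod 2) ^ 2`.
-/

set_option autoImplicit false

namespace Pool.Agent.SmithE

open WeierstrassCurve

variable {K : Type} [Field K]

/-- `E(Ω)` -/
abbrev Pt (Ω : Type) [Field Ω] [Algebra K Ω] (e₁ e₂ e₃ : K) : Type :=
  (WeierstrassCurve.Affine.baseChange (crv e₁ e₂ e₃) Ω).Point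

variable {Ω : Type} [Field Ω] [Algebra K Ω] {e₁ e₂ e₃ : K}

lemma baseChange_crv : WeierstrassCurve.Affine.baseChange (crv e₁ e₂ e₃) Ω =
    crv (algebraMap K Ω e₁) (algebraMap K Ω e₂) (algebraMap K Ω e₃) :=
  crv_map e₁ e₂ e₃ (algebraMap K Ω)

section action

variable [DecidableEq Ω]

/-- the Galois action on `E(Ω)` -/
noncomputable instance ptAction : DistribMulAction (Ω ≃ₐ[K] Ω) (Pt Ω e₁ e₂ e₃) where
  smul σ P := WeierstrassCurve.Affine.Point.map (W' := crv e₁ e₂ e₃) (σ : Ω →ₐ[K] Ω) P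
  one_smul P := by cases P <;> rfl
  mul_smul σ τ P := by cases P <;> rfl
  smul_zero _ := rfl
  smul_add σ P Q := map_add (WeierstrassCurve.Affine.Point.map (W' := crv e₁ e₂ e₃)
    (σ : Ω →ₐ[K] Ω)) P Q

lemma smul_some (σ : Ω ≃ₐ[K] Ω) {x y : Ω}
    (h : (WeierstrassCurve.Affine.baseChange (crv e₁ e₂ e₃) Ω).Nonsingular x y) :
    ∃ h' : (WeierstrassCurve.Affine.baseChange (crv e₁ e₂ e₃) Ω).Nonsingular (σ x) (σ y),
      σ • (WeierstrassCurve.Affine.Point.some x y h : Pt Ω e₁ e₂ e₃) = .some (σ x) (σ y) h' :=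
  ⟨_, rfl⟩

lemma smul_some_eq_iff (σ : Ω ≃ₐ[K] Ω) {x y : Ω}
    (h : (WeierstrassCurve.Affine.baseChange (crv e₁ e₂ e₃) Ω).Nonsingular x y) :
    σ • (WeierstrassCurve.Affine.Point.some x y h : Pt Ω e₁ e₂ e₃) = .some x y h ↔
      σ x = x ∧ σ y = y := by
  obtain ⟨h', e⟩ := smul_some σ h
  rw [e, WeierstrassCurve.Affine.Point.some.injEq]

end action

section points

variable (h12 : e₁ ≠ e₂) (h13 : e₁ ≠ e₃) (h23 : e₂ ≠ e₃)

include h12 h13 in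
lemma nonsingular_bc1 : (WeierstrassCurve.Affine.baseChange (crv e₁ e₂ e₃) Ω).Nonsingular
    (algebraMap K Ω e₁) 0 := by
  rw [baseChange_crv]
  exact nonsingular_T1 (fun h => h12 ((algebraMap K Ω).injective h))
    (fun h => h13 ((algebraMap K Ω).injective h))

include h12 h23 in
lemma nonsingular_bc2 : (WeierstrassCurve.Affine.baseChange (crv e₁ e₂ e₃) Ω).Nonsingular
    (algebraMap K Ω e₂) 0 := by
  rw [baseChange_crv]
  exact nonsingular_T2 (fun h => h12 ((algebraMap K Ω).injective h))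
    (fun h => h23 ((algebraMap K Ω).injective h))

include h13 h23 in
lemma nonsingular_bc3 : (WeierstrassCurve.Affine.baseChange (crv e₁ e₂ e₃) Ω).Nonsingular
    (algebraMap K Ω e₃) 0 := by
  rw [baseChange_crv]
  exact nonsingular_T3 (fun h => h13 ((algebraMap K Ω).injective h))
    (fun h => h23 ((algebraMap K Ω).injective h))

/-- `(e₁, 0)` -/
def pt1 (Ω : Type) [Field Ω] [Algebra K Ω] : Pt Ω e₁ e₂ e₃ := .some _ _ (nonsingular_bc1 h12 h13)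

/-- `(e₂, 0)` -/
def pt2 (Ω : Type) [Field Ω] [Algebra K Ω] : Pt Ω e₁ e₂ e₃ := .some _ _ (nonsingular_bc2 h12 h23)

/-- `(e₃, 0)` -/
def pt3 (Ω : Type) [Field Ω] [Algebra K Ω] : Pt Ω e₁ e₂ e₃ := .some _ _ (nonsingular_bc3 h13 h23)

lemma two_ne_zero_of_algebraMap (h2 : (2 : K) ≠ 0) : (2 : Ω) ≠ 0 := by
  intro h
  apply h2
  apply (algebraMap K Ω).injective
  rw [map_ofNat, h, map_zero]

variable [DecidableEq Ω]

include h12 h13 h23 in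
/-- the points of order 2 -/
theorem pt_add_self_eq_zero_iff (h2 : (2 : K) ≠ 0) (P : Pt Ω e₁ e₂ e₃) :
    P + P = 0 ↔ P = 0 ∨ P = pt1 h12 h13 Ω ∨ P = pt2 h12 h23 Ω ∨ P = pt3 h13 h23 Ω := by
  have key : ∀ (W : WeierstrassCurve.Affine Ω) (f₁ f₂ f₃ : Ω) (hW : W = crv f₁ f₂ f₃)
      (k12 : f₁ ≠ f₂) (k13 : f₁ ≠ f₃) (k23 : f₂ ≠ f₃) (n1 : W.Nonsingular f₁ 0)
      (n2 : W.Nonsingular f₂ 0) (n3 : W.Nonsingular f₃ 0) (P : W.Point),
      P + P = 0 ↔ P = 0 ∨ P = .some _ _ n1 ∨ P = .some _ _ n2 ∨ P = .some _ _ n3 := by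
    intro W f₁ f₂ f₃ hW k12 k13 k23 n1 n2 n3 P
    subst hW
    exact add_self_eq_zero_iff (two_ne_zero_of_algebraMap h2) k12 k13 k23 P
  exact key _ _ _ _ baseChange_crv (fun h => h12 ((algebraMap K Ω).injective h))
    (fun h => h13 ((algebraMap K Ω).injective h)) (fun h => h23 ((algebraMap K Ω).injective h))
    _ _ _ P

include h12 h13 h23 in
/-- `E(Ω)` is 2-divisible -/
theorem pt_exists_half [IsSepClosed Ω] (h2 : (2 : K) ≠ 0) (P : Pt Ω e₁ e₂ e₃) :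
    ∃ Q, P = Q + Q := by
  have key : ∀ (W : WeierstrassCurve.Affine Ω) (f₁ f₂ f₃ : Ω) (hW : W = crv f₁ f₂ f₃)
      (k12 : f₁ ≠ f₂) (k13 : f₁ ≠ f₃) (k23 : f₂ ≠ f₃) (P : W.Point), ∃ Q, P = Q + Q := by
    intro W f₁ f₂ f₃ hW k12 k13 k23 P
    subst hW
    exact exists_half_sepClosed (two_ne_zero_of_algebraMap h2) k12 k13 k23 P
  exact key _ _ _ _ baseChange_crv (fun h => h12 ((algebraMap K Ω).injective h))
    (fun h => h13 ((algebraMap K Ω).injective h)) (fun h => h23 ((algebraMap K Ω).injective h)) P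

include h12 h13 h23 in
/-- `#E[2 ^ n] = 4 ^ n` -/
theorem card_pt_torsion [IsSepClosed Ω] (h2 : (2 : K) ≠ 0) (n : ℕ) :
    Nat.card {P : Pt Ω e₁ e₂ e₃ // (2 ^ n) • P = 0} = 4 ^ n := by
  have key : ∀ (W : WeierstrassCurve.Affine Ω) (f₁ f₂ f₃ : Ω) (hW : W = crv f₁ f₂ f₃)
      (k12 : f₁ ≠ f₂) (k13 : f₁ ≠ f₃) (k23 : f₂ ≠ f₃),
      Nat.card {P : W.Point // (2 ^ n) • P = 0} = 4 ^ n := by
    intro W f₁ f₂ f₃ hW k12 k13 k23
    subst hW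
    exact card_torsion_sepClosed (two_ne_zero_of_algebraMap h2) k12 k13 k23 n
  exact key _ _ _ _ baseChange_crv (fun h => h12 ((algebraMap K Ω).injective h))
    (fun h => h13 ((algebraMap K Ω).injective h)) (fun h => h23 ((algebraMap K Ω).injective h))

lemma smul_pt1 (σ : Ω ≃ₐ[K] Ω) : σ • pt1 (e₂ := e₂) (e₃ := e₃) h12 h13 Ω = pt1 h12 h13 Ω := by
  rw [pt1, smul_some_eq_iff]
  exact ⟨σ.commutes _, map_zero σ⟩

lemma smul_pt2 (σ : Ω ≃ₐ[K] Ω) : σ • pt2 (e₁ := e₁) (e₃ := e₃) h12 h23 Ω = pt2 h12 h23 Ω := by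
  rw [pt2, smul_some_eq_iff]
  exact ⟨σ.commutes _, map_zero σ⟩

lemma smul_pt3 (σ : Ω ≃ₐ[K] Ω) : σ • pt3 (e₁ := e₁) (e₂ := e₂) h13 h23 Ω = pt3 h13 h23 Ω := by
  rw [pt3, smul_some_eq_iff]
  exact ⟨σ.commutes _, map_zero σ⟩

include h12 h13 h23 in
lemma pt_sum (h2 : (2 : K) ≠ 0) : pt1 h12 h13 Ω + pt2 h12 h23 Ω = pt3 h13 h23 Ω := by
  have t1 : pt1 h12 h13 Ω + pt1 h12 h13 Ω = 0 :=
    (pt_add_self_eq_zero_iff h12 h13 h23 h2 _).mpr (Or.inr (Or.inl rfl))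
  have t2 : pt2 h12 h23 Ω + pt2 h12 h23 Ω = 0 :=
    (pt_add_self_eq_zero_iff h12 h13 h23 h2 _).mpr (Or.inr (Or.inr (Or.inl rfl)))
  have t3 : (pt1 h12 h13 Ω + pt2 h12 h23 Ω) + (pt1 h12 h13 Ω + pt2 h12 h23 Ω) = 0 := by
    rw [add_add_add_comm, t1, t2, add_zero]
  rcases (pt_add_self_eq_zero_iff h12 h13 h23 h2 _).mp t3 with h | h | h | h
  · exfalso
    have h4 : pt1 h12 h13 Ω = pt2 h12 h23 Ω := by
      rw [eq_neg_of_add_eq_zero_left h]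
      exact (eq_neg_of_add_eq_zero_left t2).symm
    rw [pt1, pt2, WeierstrassCurve.Affine.Point.some.injEq] at h4
    exact h12 ((algebraMap K Ω).injective h4.1)
  · exfalso
    exact WeierstrassCurve.Affine.Point.some_ne_zero _ (add_eq_left.mp h)
  · exfalso
    exact WeierstrassCurve.Affine.Point.some_ne_zero _ (add_eq_right.mp h)
  · exact h

end points

section torsion

variable (Ω) (e₁ e₂ e₃) [DecidableEq Ω]

/-- the 2-power torsion `V` of `E(Ω)` -/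
def VV : AddSubgroup (Pt Ω e₁ e₂ e₃) where
  carrier := {P | ∃ n : ℕ, (2 : ℕ) ^ n • P = 0}
  zero_mem' := ⟨0, by simp⟩
  add_mem' := by
    rintro P Q ⟨n, hn⟩ ⟨m, hm⟩
    refine ⟨n + m, ?_⟩
    rw [smul_add, pow_add, mul_smul, mul_smul, smul_comm, hn, hm, smul_zero, smul_zero, add_zero]
  neg_mem' := by
    rintro P ⟨n, hn⟩
    exact ⟨n, by rw [smul_neg, hn, neg_zero]⟩

variable {Ω e₁ e₂ e₃}

lemma mem_VV {P : Pt Ω e₁ e₂ e₃} : P ∈ VV Ω e₁ e₂ e₃ ↔ ∃ n : ℕ, (2 : ℕ) ^ n • P = 0 := Iff.rfl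

lemma smul_mem_VV (σ : Ω ≃ₐ[K] Ω) {P : Pt Ω e₁ e₂ e₃} (hP : P ∈ VV Ω e₁ e₂ e₃) :
    σ • P ∈ VV Ω e₁ e₂ e₃ := by
  obtain ⟨n, hn⟩ := hP
  exact ⟨n, by rw [smul_comm, hn, smul_zero]⟩

/-- the Galois action on `V` -/
noncomputable instance vvAction : DistribMulAction (Ω ≃ₐ[K] Ω) (VV Ω e₁ e₂ e₃) where
  smul σ P := ⟨σ • P.1, smul_mem_VV σ P.2⟩
  one_smul P := Subtype.ext (one_smul _ P.1)
  mul_smul σ τ P := Subtype.ext (mul_smul σ τ P.1)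
  smul_zero σ := Subtype.ext (smul_zero σ)
  smul_add σ P Q := Subtype.ext (smul_add σ P.1 Q.1)

lemma coe_smul_VV (σ : Ω ≃ₐ[K] Ω) (P : VV Ω e₁ e₂ e₃) :
    ((σ • P : VV Ω e₁ e₂ e₃) : Pt Ω e₁ e₂ e₃) = σ • (P : Pt Ω e₁ e₂ e₃) := rfl

/-- every element of `V` is torsion -/
theorem tors_VV (Q : VV Ω e₁ e₂ e₃) : ∃ j : ℕ, (2 : ℕ) ^ j • Q = 0 := by
  obtain ⟨n, hn⟩ := Q.2
  exact ⟨n, Subtype.ext hn⟩

theorem mem_VV_of_add_self {P : Pt Ω e₁ e₂ e₃} (hP : P + P = 0) : P ∈ VV Ω e₁ e₂ e₃ :=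
  ⟨1, by rw [pow_one, two_smul, hP]⟩

variable (h2 : (2 : K) ≠ 0) (h12 : e₁ ≠ e₂) (h13 : e₁ ≠ e₃) (h23 : e₂ ≠ e₃)

include h2 h12 h13 h23 in
/-- `V` is 2-divisible -/
theorem half_VV [IsSepClosed Ω] (Q : VV Ω e₁ e₂ e₃) : ∃ R : VV Ω e₁ e₂ e₃, (2 : ℕ) • R = Q := by
  obtain ⟨R, hR⟩ := pt_exists_half h12 h13 h23 h2 Q.1
  obtain ⟨n, hn⟩ := Q.2
  refine ⟨⟨R, n + 1, ?_⟩, Subtype.ext ?_⟩
  · rw [pow_succ, mul_smul, two_smul, ← hR, hn]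
  · change (2 : ℕ) • R = Q.1
    rw [two_smul, hR]

/-- `T₁ = (e₁, 0)` in `V` -/
def T1 (Ω : Type) [Field Ω] [Algebra K Ω] [DecidableEq Ω] : VV Ω e₁ e₂ e₃ :=
  ⟨pt1 h12 h13 Ω, mem_VV_of_add_self
    ((pt_add_self_eq_zero_iff h12 h13 h23 h2 _).mpr (Or.inr (Or.inl rfl)))⟩

/-- `T₂ = (e₂, 0)` in `V` -/
def T2 (Ω : Type) [Field Ω] [Algebra K Ω] [DecidableEq Ω] : VV Ω e₁ e₂ e₃ :=
  ⟨pt2 h12 h23 Ω, mem_VV_of_add_self
    ((pt_add_self_eq_zero_iff h12 h13 h23 h2 _).mpr (Or.inr (Or.inr (Or.inl rfl))))⟩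

/-- `T₃ = (e₃, 0)` in `V` -/
def T3 (Ω : Type) [Field Ω] [Algebra K Ω] [DecidableEq Ω] : VV Ω e₁ e₂ e₃ :=
  ⟨pt3 h13 h23 Ω, mem_VV_of_add_self
    ((pt_add_self_eq_zero_iff h12 h13 h23 h2 _).mpr (Or.inr (Or.inr (Or.inr rfl))))⟩

lemma coe_T1 : (T1 h2 h12 h13 h23 Ω : Pt Ω e₁ e₂ e₃) = pt1 h12 h13 Ω := rfl
lemma coe_T2 : (T2 h2 h12 h13 h23 Ω : Pt Ω e₁ e₂ e₃) = pt2 h12 h23 Ω := rfl
lemma coe_T3 : (T3 h2 h12 h13 h23 Ω : Pt Ω e₁ e₂ e₃) = pt3 h13 h23 Ω := rfl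

theorem T1_add_T2 : T1 h2 h12 h13 h23 Ω + T2 h2 h12 h13 h23 Ω = T3 h2 h12 h13 h23 Ω :=
  Subtype.ext (pt_sum h12 h13 h23 h2)

theorem T1_add_T1 : T1 h2 h12 h13 h23 Ω + T1 h2 h12 h13 h23 Ω = 0 :=
  Subtype.ext ((pt_add_self_eq_zero_iff h12 h13 h23 h2 _).mpr (Or.inr (Or.inl rfl)))

theorem T2_add_T2 : T2 h2 h12 h13 h23 Ω + T2 h2 h12 h13 h23 Ω = 0 :=
  Subtype.ext ((pt_add_self_eq_zero_iff h12 h13 h23 h2 _).mpr (Or.inr (Or.inr (Or.inl rfl))))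

theorem T1_ne_zero : T1 h2 h12 h13 h23 Ω ≠ 0 := fun h =>
  WeierstrassCurve.Affine.Point.some_ne_zero _ (congrArg Subtype.val h)

theorem T2_ne_zero : T2 h2 h12 h13 h23 Ω ≠ 0 := fun h =>
  WeierstrassCurve.Affine.Point.some_ne_zero _ (congrArg Subtype.val h)

theorem T3_ne_zero : T3 h2 h12 h13 h23 Ω ≠ 0 := fun h =>
  WeierstrassCurve.Affine.Point.some_ne_zero _ (congrArg Subtype.val h)

/-- the homomorphism from `ZMod 2` to an abelian group given by an element of order 2 -/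
def ofTwo {A : Type*} [AddCommGroup A] (T : A) (hT : T + T = 0) : ZMod 2 →+ A :=
  ZMod.lift 2 ⟨zmultiplesHom A T, by
    rw [zmultiplesHom_apply, Nat.cast_ofNat, ofNat_zsmul, two_nsmul, hT]⟩

lemma ofTwo_one {A : Type*} [AddCommGroup A] (T : A) (hT : T + T = 0) : ofTwo T hT 1 = T := by
  have h := ZMod.lift_coe 2 ⟨zmultiplesHom A T, by
    rw [zmultiplesHom_apply, Nat.cast_ofNat, ofNat_zsmul, two_nsmul, hT]⟩ (1 : ℤ)
  rw [Int.cast_one] at h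
  rw [ofTwo, h, zmultiplesHom_apply, one_smul]

/-- `V1 = (ZMod 2) ^ 2 → V`, `(1, 0) ↦ T₁`, `(0, 1) ↦ T₂` -/
def iota (Ω : Type) [Field Ω] [Algebra K Ω] [DecidableEq Ω] :
    (ZMod 2 × ZMod 2) →+ VV Ω e₁ e₂ e₃ :=
  AddMonoidHom.coprod (ofTwo (T1 h2 h12 h13 h23 Ω) (T1_add_T1 h2 h12 h13 h23))
    (ofTwo (T2 h2 h12 h13 h23 Ω) (T2_add_T2 h2 h12 h13 h23))

lemma iota_one_zero : iota h2 h12 h13 h23 Ω (1, 0) = T1 h2 h12 h13 h23 Ω := by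
  rw [iota, AddMonoidHom.coprod_apply, ofTwo_one, map_zero, add_zero]

lemma iota_zero_one : iota h2 h12 h13 h23 Ω (0, 1) = T2 h2 h12 h13 h23 Ω := by
  rw [iota, AddMonoidHom.coprod_apply, ofTwo_one, map_zero, zero_add]

lemma iota_one_one : iota h2 h12 h13 h23 Ω (1, 1) = T3 h2 h12 h13 h23 Ω := by
  rw [iota, AddMonoidHom.coprod_apply, ofTwo_one, ofTwo_one, T1_add_T2]

lemma V1_cases (w : ZMod 2 × ZMod 2) : w = (0, 0) ∨ w = (1, 0) ∨ w = (0, 1) ∨ w = (1, 1) := by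
  revert w
  decide

theorem iota_injective : Function.Injective (iota h2 h12 h13 h23 Ω) := by
  rw [injective_iff_map_eq_zero]
  intro w hw
  rcases V1_cases w with rfl | rfl | rfl | rfl
  · rfl
  · rw [iota_one_zero] at hw
    exact absurd hw (T1_ne_zero h2 h12 h13 h23)
  · rw [iota_zero_one] at hw
    exact absurd hw (T2_ne_zero h2 h12 h13 h23)
  · rw [iota_one_one] at hw
    exact absurd hw (T3_ne_zero h2 h12 h13 h23)

theorem iota_range (Q : VV Ω e₁ e₂ e₃) (hQ : (2 : ℕ) • Q = 0) :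
    ∃ w, iota h2 h12 h13 h23 Ω w = Q := by
  have h : Q.1 + Q.1 = 0 := by
    have := congrArg Subtype.val hQ
    rw [two_smul] at this
    exact this
  rcases (pt_add_self_eq_zero_iff h12 h13 h23 h2 _).mp h with h | h | h | h
  · exact ⟨0, by rw [map_zero]; exact Subtype.ext h.symm⟩
  · exact ⟨(1, 0), by rw [iota_one_zero]; exact Subtype.ext h.symm⟩
  · exact ⟨(0, 1), by rw [iota_zero_one]; exact Subtype.ext h.symm⟩
  · exact ⟨(1, 1), by rw [iota_one_one]; exact Subtype.ext h.symm⟩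

theorem iota_fix (s : Ω ≃ₐ[K] Ω) (w : ZMod 2 × ZMod 2) :
    s • iota h2 h12 h13 h23 Ω w = iota h2 h12 h13 h23 Ω w := by
  rcases V1_cases w with rfl | rfl | rfl | rfl
  · have : iota h2 h12 h13 h23 Ω (0, 0) = 0 := map_zero _
    rw [this, smul_zero]
  · rw [iota_one_zero]
    exact Subtype.ext (smul_pt1 h12 h13 s)
  · rw [iota_zero_one]
    exact Subtype.ext (smul_pt2 h12 h23 s)
  · rw [iota_one_one]
    exact Subtype.ext (smul_pt3 h13 h23 s)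

end torsion

section finite

variable [DecidableEq Ω] (h2 : (2 : K) ≠ 0) (h12 : e₁ ≠ e₂) (h13 : e₁ ≠ e₃) (h23 : e₂ ≠ e₃)

/-- stabilisers of points are open -/
theorem isOpen_stabilizer_pt [Algebra.IsIntegral K Ω] (Q : Pt Ω e₁ e₂ e₃) :
    IsOpen (MulAction.stabilizer (Ω ≃ₐ[K] Ω) Q : Set (Ω ≃ₐ[K] Ω)) := by
  rcases Q with _ | ⟨x, y, h⟩
  · have : (MulAction.stabilizer (Ω ≃ₐ[K] Ω)
        (WeierstrassCurve.Affine.Point.zero : Pt Ω e₁ e₂ e₃) : Set (Ω ≃ₐ[K] Ω)) = Set.univ := by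
      ext σ
      exact ⟨fun _ => trivial, fun _ => rfl⟩
    rw [this]
    exact isOpen_univ
  · have : (MulAction.stabilizer (Ω ≃ₐ[K] Ω)
        (WeierstrassCurve.Affine.Point.some x y h : Pt Ω e₁ e₂ e₃) : Set (Ω ≃ₐ[K] Ω)) =
        (MulAction.stabilizer (Ω ≃ₐ[K] Ω) x : Set (Ω ≃ₐ[K] Ω)) ∩
          (MulAction.stabilizer (Ω ≃ₐ[K] Ω) y : Set (Ω ≃ₐ[K] Ω)) := by
      ext σ
      exact smul_some_eq_iff σ h
    rw [this]
    exact (stabilizer_isOpen_of_isIntegral x).inter (stabilizer_isOpen_of_isIntegral y)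

/-- the subgroup acting trivially on `V[2 ^ j]` -/
def fixTors (Ω : Type) [Field Ω] [Algebra K Ω] [DecidableEq Ω] (e₁ e₂ e₃ : K) (j : ℕ) :
    Subgroup (Ω ≃ₐ[K] Ω) where
  carrier := {σ | ∀ Q : VV Ω e₁ e₂ e₃, (2 : ℕ) ^ j • Q = 0 → σ • Q = Q}
  one_mem' := fun Q _ => one_smul _ Q
  mul_mem' := by
    intro σ τ hσ hτ Q hQ
    rw [mul_smul, hτ Q hQ, hσ Q hQ]
  inv_mem' := by
    intro σ hσ Q hQ
    rw [inv_smul_eq_iff, hσ Q hQ]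

lemma mem_fixTors {j : ℕ} {σ : Ω ≃ₐ[K] Ω} : σ ∈ fixTors Ω e₁ e₂ e₃ j ↔
    ∀ Q : VV Ω e₁ e₂ e₃, (2 : ℕ) ^ j • Q = 0 → σ • Q = Q := Iff.rfl

include h2 h12 h13 h23 in
lemma exists_pow_fix (σ : Ω ≃ₐ[K] Ω) (j : ℕ) :
    ∃ m : ℕ, σ ^ (2 ^ m) ∈ fixTors Ω e₁ e₂ e₃ j := by
  induction j with
  | zero =>
    refine ⟨0, fun Q hQ => ?_⟩
    rw [pow_zero, one_smul] at hQ
    rw [hQ, smul_zero]
  | succ j ih =>
    obtain ⟨m, hm⟩ := ih
    refine ⟨m + 1, fun Q hQ => ?_⟩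
    set τ := σ ^ (2 ^ m) with hτ
    have e : σ ^ (2 ^ (m + 1)) = τ * τ := by rw [hτ, ← pow_add]; congr 1; ring
    have h1 : τ • ((2 : ℕ) • Q) = (2 : ℕ) • Q := by
      apply hm
      rw [← mul_smul, ← pow_succ, hQ]
    have h3 : (2 : ℕ) • (τ • Q - Q) = 0 := by
      rw [smul_sub, smul_comm, h1, sub_self]
    obtain ⟨w, hw⟩ := iota_range h2 h12 h13 h23 _ h3
    have h4 : τ • (τ • Q - Q) = τ • Q - Q := by rw [← hw, iota_fix]
    rw [e, mul_smul]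
    have h5 : τ • Q = Q + (τ • Q - Q) := by abel
    have h6 : (τ • Q - Q) + (τ • Q - Q) = 0 := by rw [← two_smul ℕ, h3]
    calc τ • τ • Q = τ • (Q + (τ • Q - Q)) := by rw [← h5]
      _ = τ • Q + (τ • Q - Q) := by rw [smul_add, h4]
      _ = Q + ((τ • Q - Q) + (τ • Q - Q)) := by abel
      _ = Q := by rw [h6, add_zero]

include h2 h12 h13 h23 in
theorem finite_tors [IsSepClosed Ω] (j : ℕ) :
    {Q : VV Ω e₁ e₂ e₃ | (2 : ℕ) ^ j • Q = 0}.Finite := by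
  have h1 : Finite {P : Pt Ω e₁ e₂ e₃ // (2 ^ j) • P = 0} := by
    refine Nat.finite_of_card_ne_zero ?_
    rw [card_pt_torsion h12 h13 h23 h2]
    positivity
  have h4 : Function.Injective (fun Q : {Q : VV Ω e₁ e₂ e₃ | (2 : ℕ) ^ j • Q = 0} =>
      (⟨Q.1.1, congrArg Subtype.val Q.2⟩ : {P : Pt Ω e₁ e₂ e₃ // (2 ^ j) • P = 0})) := by
    intro Q R h
    have := congrArg Subtype.val h
    exact Subtype.ext (Subtype.ext this)
  exact @Set.toFinite _ _ (Finite.of_injective _ h4)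

include h2 h12 h13 h23 in
/-- `Gal(Ω/K)` acts on `V[2 ^ j]` through a finite 2-group -/
theorem act_fin [IsGalois K Ω] [IsSepClosed Ω] (j : ℕ) :
    ∃ N ∈ Pool.Agent.SmD.NN K Ω, ∀ s ∈ N, ∀ Q : VV Ω e₁ e₂ e₃, (2 : ℕ) ^ j • Q = 0 →
      s • Q = Q := by
  refine ⟨fixTors Ω e₁ e₂ e₃ j, Pool.Agent.SmD.mem_NN_of_pow ?_ ?_
    (fun σ => exists_pow_fix h2 h12 h13 h23 σ j), fun s hs Q hQ => hs Q hQ⟩
  · refine ⟨fun σ hσ τ Q hQ => ?_⟩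
    rw [mul_smul, mul_smul, hσ, smul_inv_smul]
    rw [smul_comm, hQ, smul_zero]
  · have hfin := finite_tors (Ω := Ω) h2 h12 h13 h23 j
    have h3 : (fixTors Ω e₁ e₂ e₃ j : Set (Ω ≃ₐ[K] Ω)) =
        ⋂ Q ∈ {Q : VV Ω e₁ e₂ e₃ | (2 : ℕ) ^ j • Q = 0},
          (MulAction.stabilizer (Ω ≃ₐ[K] Ω) Q.1 : Set (Ω ≃ₐ[K] Ω)) := by
      ext σ
      simp only [Set.mem_iInter]
      constructor
      · intro h Q hQ
        exact congrArg Subtype.val (h Q hQ)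
      · intro h Q hQ
        exact Subtype.ext (h Q hQ)
    rw [h3]
    exact hfin.isOpen_biInter fun Q _ => isOpen_stabilizer_pt Q.1

end finite

end Pool.Agent.SmithE
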