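import Pool.Agent.Lib.SM.E.RFun
import Pool.Agent.Lib.SM.E.Act
import Pool.Agent.Lib.SmF.Base
import Pool.Agent.Lib.Sm.G.Sys

/-!
SMITH, block E, part E5: if `2 z = w` is a point of order dividing 2 of
`y ^ 2 = (x - e₁) (x - e₂) (x - e₃)`, then `s z - z` is given by the quadratic characters of
`e_j - e_i` (`kap0`); the same with a quadratic twist.
-/

set_option autoImplicit false

namespace Pool.Agent.SmithE

open WeierstrassCurve WeierstrassCurve.Affine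
open Pool.Agent.Lib.SmD Pool.Agent.SmF

variable {K Ω : Type} [Field K] [Field Ω] [Algebra K Ω] {e₁ e₂ e₃ : K}

/-- the value `s z - z` for `2 z = w`, in `V1` -/
noncomputable def kap0 (e₁ e₂ e₃ : K) (s : Ω ≃ₐ[K] Ω) (w : ZMod 2 × ZMod 2) : ZMod 2 × ZMod 2 :=
  (w.1 * chi K (e₁ - e₂) s + w.2 * chi K ((e₂ - e₁) * (e₂ - e₃)) s,
    w.1 * chi K ((e₁ - e₂) * (e₁ - e₃)) s + w.2 * chi K (e₂ - e₁) s)

section general

variable {F : Type} [Field F] {W : WeierstrassCurve F} {a b c : F}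

/-- the three values of `x (2 Q) - e = R_e (Q) ^ 2` if `2 Q = T` -/
theorem Rf_sq_of_eq [DecidableEq F] (hW : W = crv a b c) (h2 : (2 : F) ≠ 0) {P : W.toAffine.Point}
    {x y : F} {h : W.toAffine.Nonsingular x y} (hP : P + P = .some x y h) :
    x - a = (Rf a b c P) ^ 2 ∧ x - b = (Rf b a c P) ^ 2 ∧ x - c = (Rf c a b P) ^ 2 := by
  have hne : P + P ≠ 0 := by
    rw [hP]
    exact WeierstrassCurve.Affine.Point.some_ne_zero _
  obtain ⟨X, Y, h', h1, h3, h4, h5⟩ := Rf_sq hW h2 hne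
  rw [hP, WeierstrassCurve.Affine.Point.some.injEq] at h1
  obtain ⟨rfl, rfl⟩ := h1
  exact ⟨h3, h4, h5⟩

end general

section galois

variable [DecidableEq Ω] (h2 : (2 : K) ≠ 0) (h12 : e₁ ≠ e₂) (h13 : e₁ ≠ e₃) (h23 : e₂ ≠ e₃)

/-- `R_e` of a conjugate point -/
theorem Rf_smul_kap (a b c : K) (s : Ω ≃ₐ[K] Ω) (P : Pt Ω e₁ e₂ e₃) :
    Rf (W := WeierstrassCurve.Affine.baseChange (crv e₁ e₂ e₃) Ω) (algebraMap K Ω a)
      (algebraMap K Ω b) (algebraMap K Ω c) (s • P) =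
      s (Rf (W := WeierstrassCurve.Affine.baseChange (crv e₁ e₂ e₃) Ω) (algebraMap K Ω a)
        (algebraMap K Ω b) (algebraMap K Ω c) P) :=
  Rf_map (E := crv e₁ e₂ e₃) P (s : Ω →ₐ[K] Ω) (s.commutes a) (s.commutes b) (s.commutes c)

include h12 h13 h23 in
/-- `R_(e₁) (z + T) = (-1)^(e (T₁, T)) R_(e₁) (z)` -/
theorem Rsign1 (P : Pt Ω e₁ e₂ e₃) (hP : P + P ≠ 0) (w : ZMod 2 × ZMod 2) :
    Rf (W := WeierstrassCurve.Affine.baseChange (crv e₁ e₂ e₃) Ω) (algebraMap K Ω e₁)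
      (algebraMap K Ω e₂) (algebraMap K Ω e₃) (P + (iota h2 h12 h13 h23 Ω w : Pt Ω e₁ e₂ e₃)) =
      (-1) ^ w.2.val * Rf (W := WeierstrassCurve.Affine.baseChange (crv e₁ e₂ e₃) Ω)
        (algebraMap K Ω e₁) (algebraMap K Ω e₂) (algebraMap K Ω e₃) P := by
  have hW := baseChange_crv (Ω := Ω) (e₁ := e₁) (e₂ := e₂) (e₃ := e₃)
  have h2' := two_ne_zero_of_algebraMap (Ω := Ω) h2
  have k12 : algebraMap K Ω e₁ ≠ algebraMap K Ω e₂ := fun h => h12 ((algebraMap K Ω).injective h)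
  have k13 : algebraMap K Ω e₁ ≠ algebraMap K Ω e₃ := fun h => h13 ((algebraMap K Ω).injective h)
  have k23 : algebraMap K Ω e₂ ≠ algebraMap K Ω e₃ := fun h => h23 ((algebraMap K Ω).injective h)
  rcases V1_cases w with rfl | rfl | rfl | rfl
  · have : iota h2 h12 h13 h23 Ω (0, 0) = 0 := map_zero _
    rw [this, ZeroMemClass.coe_zero, add_zero, ZMod.val_zero, pow_zero, one_mul]
  · rw [iota_one_zero, ZMod.val_zero, pow_zero, one_mul]
    exact Rf_add_same hW h2' k12 k13 hP _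
  · rw [iota_zero_one, ZMod.val_one, pow_one, neg_one_mul]
    exact Rf_add_other hW h2' k12 k23 hP _
  · rw [iota_one_one, ZMod.val_one, pow_one, neg_one_mul, Rf_comm, Rf_comm P]
    exact Rf_add_other (hW.trans (crv_swap23 _ _ _)) h2' k13 k23.symm hP _

include h12 h13 h23 in
/-- `R_(e₂) (z + T) = (-1)^(e (T₂, T)) R_(e₂) (z)` -/
theorem Rsign2 (P : Pt Ω e₁ e₂ e₃) (hP : P + P ≠ 0) (w : ZMod 2 × ZMod 2) :
    Rf (W := WeierstrassCurve.Affine.baseChange (crv e₁ e₂ e₃) Ω) (algebraMap K Ω e₂)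
      (algebraMap K Ω e₁) (algebraMap K Ω e₃) (P + (iota h2 h12 h13 h23 Ω w : Pt Ω e₁ e₂ e₃)) =
      (-1) ^ w.1.val * Rf (W := WeierstrassCurve.Affine.baseChange (crv e₁ e₂ e₃) Ω)
        (algebraMap K Ω e₂) (algebraMap K Ω e₁) (algebraMap K Ω e₃) P := by
  have hW := (baseChange_crv (Ω := Ω) (e₁ := e₁) (e₂ := e₂) (e₃ := e₃)).trans (crv_swap12 _ _ _)
  have h2' := two_ne_zero_of_algebraMap (Ω := Ω) h2
  have k12 : algebraMap K Ω e₁ ≠ algebraMap K Ω e₂ := fun h => h12 ((algebraMap K Ω).injective h)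
  have k13 : algebraMap K Ω e₁ ≠ algebraMap K Ω e₃ := fun h => h13 ((algebraMap K Ω).injective h)
  have k23 : algebraMap K Ω e₂ ≠ algebraMap K Ω e₃ := fun h => h23 ((algebraMap K Ω).injective h)
  rcases V1_cases w with rfl | rfl | rfl | rfl
  · have : iota h2 h12 h13 h23 Ω (0, 0) = 0 := map_zero _
    rw [this, ZeroMemClass.coe_zero, add_zero, ZMod.val_zero, pow_zero, one_mul]
  · rw [iota_one_zero, ZMod.val_one, pow_one, neg_one_mul]
    exact Rf_add_other hW h2' k12.symm k13 hP _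
  · rw [iota_zero_one, ZMod.val_zero, pow_zero, one_mul]
    exact Rf_add_same hW h2' k12.symm k23 hP _
  · rw [iota_one_one, ZMod.val_one, pow_one, neg_one_mul, Rf_comm, Rf_comm P]
    exact Rf_add_other (hW.trans (crv_swap23 _ _ _)) h2' k23 k13.symm hP _

include h12 h13 h23 in
/-- `R_(e₃) (z + T) = (-1)^(e (T₃, T)) R_(e₃) (z)` -/
theorem Rsign3 (P : Pt Ω e₁ e₂ e₃) (hP : P + P ≠ 0) (w : ZMod 2 × ZMod 2) :
    Rf (W := WeierstrassCurve.Affine.baseChange (crv e₁ e₂ e₃) Ω) (algebraMap K Ω e₃)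
      (algebraMap K Ω e₁) (algebraMap K Ω e₂) (P + (iota h2 h12 h13 h23 Ω w : Pt Ω e₁ e₂ e₃)) =
      (-1) ^ (w.1 + w.2).val * Rf (W := WeierstrassCurve.Affine.baseChange (crv e₁ e₂ e₃) Ω)
        (algebraMap K Ω e₃) (algebraMap K Ω e₁) (algebraMap K Ω e₂) P := by
  have hW := ((baseChange_crv (Ω := Ω) (e₁ := e₁) (e₂ := e₂) (e₃ := e₃)).trans
    (crv_swap23 _ _ _)).trans (crv_swap12 _ _ _)
  have h2' := two_ne_zero_of_algebraMap (Ω := Ω) h2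
  have k12 : algebraMap K Ω e₁ ≠ algebraMap K Ω e₂ := fun h => h12 ((algebraMap K Ω).injective h)
  have k13 : algebraMap K Ω e₁ ≠ algebraMap K Ω e₃ := fun h => h13 ((algebraMap K Ω).injective h)
  have k23 : algebraMap K Ω e₂ ≠ algebraMap K Ω e₃ := fun h => h23 ((algebraMap K Ω).injective h)
  have e11 : (1 : ZMod 2) + 1 = 0 := by decide
  rcases V1_cases w with rfl | rfl | rfl | rfl
  · have : iota h2 h12 h13 h23 Ω (0, 0) = 0 := map_zero _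
    rw [this, ZeroMemClass.coe_zero, add_zero, add_zero, ZMod.val_zero, pow_zero, one_mul]
  · rw [iota_one_zero, add_zero, ZMod.val_one, pow_one, neg_one_mul]
    exact Rf_add_other hW h2' k13.symm k12 hP _
  · rw [iota_zero_one, zero_add, ZMod.val_one, pow_one, neg_one_mul, Rf_comm, Rf_comm P]
    exact Rf_add_other (hW.trans (crv_swap23 _ _ _)) h2' k23.symm k12.symm hP _
  · rw [iota_one_one, e11, ZMod.val_zero, pow_zero, one_mul]
    exact Rf_add_same hW h2' k13.symm k23.symm hP _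

/-- the element of `V1` with `s z = z + iota` -/
theorem exists_shift (z : VV Ω e₁ e₂ e₃) (w : ZMod 2 × ZMod 2)
    (hz : (2 : ℕ) • z = iota h2 h12 h13 h23 Ω w) (s : Ω ≃ₐ[K] Ω) :
    ∃ w', s • z - z = iota h2 h12 h13 h23 Ω w' := by
  have h3 : (2 : ℕ) • (s • z - z) = 0 := by
    rw [smul_sub, smul_comm, hz, iota_fix, sub_self]
  obtain ⟨w', hw'⟩ := iota_range h2 h12 h13 h23 _ h3
  exact ⟨w', hw'.symm⟩

theorem kappa_T1 (z : VV Ω e₁ e₂ e₃)
    (hz : (2 : ℕ) • z = iota h2 h12 h13 h23 Ω (1, 0)) (s : Ω ≃ₐ[K] Ω) :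
    s • z - z = iota h2 h12 h13 h23 Ω
      (chi K (e₁ - e₂) s, chi K (e₁ - e₂) s + chi K (e₁ - e₃) s) := by
  obtain ⟨w, hw⟩ := exists_shift h2 h12 h13 h23 z _ hz s
  have hs : s • (z : Pt Ω e₁ e₂ e₃) = (z : Pt Ω e₁ e₂ e₃) +
      (iota h2 h12 h13 h23 Ω w : Pt Ω e₁ e₂ e₃) := by
    have h4 : s • z = z + iota h2 h12 h13 h23 Ω w := by rw [← hw]; abel
    exact congrArg Subtype.val h4
  have hzz : (z : Pt Ω e₁ e₂ e₃) + z = pt1 h12 h13 Ω := by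
    rw [two_smul, iota_one_zero] at hz
    exact congrArg Subtype.val hz
  have hne : (z : Pt Ω e₁ e₂ e₃) + z ≠ 0 := by
    rw [hzz]
    exact WeierstrassCurve.Affine.Point.some_ne_zero _
  obtain ⟨-, q2, q3⟩ := Rf_sq_of_eq (baseChange_crv (Ω := Ω) (e₁ := e₁) (e₂ := e₂) (e₃ := e₃))
    (two_ne_zero_of_algebraMap (Ω := Ω) h2) hzz
  have c2 : chi K (e₁ - e₂) s = w.1 := by
    refine chi_eq_of h2 (sub_ne_zero.mpr h12) (by rw [← q2, map_sub]) s w.1 ?_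
    rw [← Rf_smul_kap e₂ e₁ e₃ s (z : Pt Ω e₁ e₂ e₃), hs]
    exact Rsign2 h2 h12 h13 h23 _ hne w
  have c3 : chi K (e₁ - e₃) s = w.1 + w.2 := by
    refine chi_eq_of h2 (sub_ne_zero.mpr h13) (by rw [← q3, map_sub]) s _ ?_
    rw [← Rf_smul_kap e₃ e₁ e₂ s (z : Pt Ω e₁ e₂ e₃), hs]
    exact Rsign3 h2 h12 h13 h23 _ hne w
  rw [hw, c2, c3]
  congr 1
  have : ∀ w : ZMod 2 × ZMod 2, w = (w.1, w.1 + (w.1 + w.2)) := by decide
  exact this w

theorem kappa_T2 (z : VV Ω e₁ e₂ e₃)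
    (hz : (2 : ℕ) • z = iota h2 h12 h13 h23 Ω (0, 1)) (s : Ω ≃ₐ[K] Ω) :
    s • z - z = iota h2 h12 h13 h23 Ω
      (chi K (e₂ - e₁) s + chi K (e₂ - e₃) s, chi K (e₂ - e₁) s) := by
  obtain ⟨w, hw⟩ := exists_shift h2 h12 h13 h23 z _ hz s
  have hs : s • (z : Pt Ω e₁ e₂ e₃) = (z : Pt Ω e₁ e₂ e₃) +
      (iota h2 h12 h13 h23 Ω w : Pt Ω e₁ e₂ e₃) := by
    have h4 : s • z = z + iota h2 h12 h13 h23 Ω w := by rw [← hw]; abel
    exact congrArg Subtype.val h4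
  have hzz : (z : Pt Ω e₁ e₂ e₃) + z = pt2 h12 h23 Ω := by
    rw [two_smul, iota_zero_one] at hz
    exact congrArg Subtype.val hz
  have hne : (z : Pt Ω e₁ e₂ e₃) + z ≠ 0 := by
    rw [hzz]
    exact WeierstrassCurve.Affine.Point.some_ne_zero _
  obtain ⟨q1, -, q3⟩ := Rf_sq_of_eq (baseChange_crv (Ω := Ω) (e₁ := e₁) (e₂ := e₂) (e₃ := e₃))
    (two_ne_zero_of_algebraMap (Ω := Ω) h2) hzz
  have c1 : chi K (e₂ - e₁) s = w.2 := by
    refine chi_eq_of h2 (sub_ne_zero.mpr h12.symm) (by rw [← q1, map_sub]) s _ ?_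
    rw [← Rf_smul_kap e₁ e₂ e₃ s (z : Pt Ω e₁ e₂ e₃), hs]
    exact Rsign1 h2 h12 h13 h23 _ hne w
  have c3 : chi K (e₂ - e₃) s = w.1 + w.2 := by
    refine chi_eq_of h2 (sub_ne_zero.mpr h23) (by rw [← q3, map_sub]) s _ ?_
    rw [← Rf_smul_kap e₃ e₁ e₂ s (z : Pt Ω e₁ e₂ e₃), hs]
    exact Rsign3 h2 h12 h13 h23 _ hne w
  rw [hw, c1, c3]
  congr 1
  have : ∀ w : ZMod 2 × ZMod 2, w = (w.2 + (w.1 + w.2), w.2) := by decide
  exact this w

variable [IsSepClosure K Ω]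

/-- E5, without a twist -/
theorem kappa (z : VV Ω e₁ e₂ e₃) (w : ZMod 2 × ZMod 2)
    (hz : (2 : ℕ) • z = iota h2 h12 h13 h23 Ω w) (s : Ω ≃ₐ[K] Ω) :
    s • z - z = iota h2 h12 h13 h23 Ω (kap0 e₁ e₂ e₃ s w) := by
  have hsc : IsSepClosed Ω := IsSepClosure.sep_closed K
  obtain ⟨z₁, hz₁⟩ := half_VV h2 h12 h13 h23 (iota h2 h12 h13 h23 Ω (1, 0))
  obtain ⟨z₂, hz₂⟩ := half_VV h2 h12 h13 h23 (iota h2 h12 h13 h23 Ω (0, 1))
  have k1 := kappa_T1 h2 h12 h13 h23 z₁ hz₁ s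
  have k2 := kappa_T2 h2 h12 h13 h23 z₂ hz₂ s
  -- the difference is killed by `2`
  have hfix : ∀ t : VV Ω e₁ e₂ e₃, (2 : ℕ) • t = 0 → s • t = t := by
    intro t ht
    obtain ⟨v, hv⟩ := iota_range h2 h12 h13 h23 t ht
    rw [← hv, iota_fix]
  have hwg : ∀ w : ZMod 2 × ZMod 2, w = w.1.val • ((1, 0) : ZMod 2 × ZMod 2) +
      w.2.val • ((0, 1) : ZMod 2 × ZMod 2) := by decide
  have hw := hwg w
  set t := z - (w.1.val • z₁ + w.2.val • z₂) with ht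
  have h0 : (2 : ℕ) • t = 0 := by
    have e1 : iota h2 h12 h13 h23 Ω w = w.1.val • iota h2 h12 h13 h23 Ω (1, 0) +
        w.2.val • iota h2 h12 h13 h23 Ω (0, 1) := by
      rw [← map_nsmul, ← map_nsmul, ← map_add, ← hw]
    rw [ht, smul_sub, smul_add, smul_comm, hz₁, smul_comm 2 w.2.val z₂, hz₂, hz, e1, sub_self]
  have h1 := hfix t h0
  have h3 : z = t + (w.1.val • z₁ + w.2.val • z₂) := by rw [ht]; abel
  have h4 : s • z - z = w.1.val • (s • z₁ - z₁) + w.2.val • (s • z₂ - z₂) := by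
    conv_lhs => rw [h3]
    rw [smul_add, h1, smul_add, smul_comm s, smul_comm s w.2.val z₂, smul_sub, smul_sub]
    abel
  rw [h4, k1, k2, ← map_nsmul, ← map_nsmul, ← map_add]
  congr 1
  rw [kap0, chi_mul_elt h2 (sub_ne_zero.mpr h12) (sub_ne_zero.mpr h13),
    chi_mul_elt h2 (sub_ne_zero.mpr h12.symm) (sub_ne_zero.mpr h23)]
  generalize chi K (e₁ - e₂) s = x1
  generalize chi K (e₂ - e₁) s = x2
  generalize chi K (e₁ - e₃) s = x3
  generalize chi K (e₂ - e₃) s = x4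
  clear hw h4 h3 h1 h0 ht hz
  clear_value t
  clear t
  revert w x1 x2 x3 x4
  decide

/-- E5, twisted by `χ` -/
theorem kappa_tw (χ : (Ω ≃ₐ[K] Ω) → ZMod 2) (z : VV Ω e₁ e₂ e₃) (w : ZMod 2 × ZMod 2)
    (hz : (2 : ℕ) • z = iota h2 h12 h13 h23 Ω w) (s : Ω ≃ₐ[K] Ω) :
    Pool.Agent.Sm.dl χ z s = iota h2 h12 h13 h23 Ω (χ s • w + kap0 e₁ e₂ e₃ s w) := by
  have h := kappa h2 h12 h13 h23 z w hz s
  have h01 : ∀ a : ZMod 2, a = 0 ∨ a = 1 := by decide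
  rcases h01 (χ s) with h1 | h1
  · rw [Pool.Agent.Sm.dl, Pool.Agent.Sm.tw, h1, Pool.Agent.Sm.sgn, if_pos rfl, one_smul, zero_smul,
      zero_add, h]
  · rw [Pool.Agent.Sm.dl, Pool.Agent.Sm.tw, h1, Pool.Agent.Sm.sgn, if_neg one_ne_zero, neg_one_smul,
      one_smul, map_add, ← h, ← hz, two_smul]
    have h3 : (2 : ℕ) • (s • z - z) = 0 := by
      rw [smul_sub, smul_comm, hz, iota_fix, sub_self]
    have h4 : (s • z - z) = -(s • z - z) := by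
      rw [two_smul] at h3
      exact eq_neg_of_add_eq_zero_left h3
    have h5 : (2 : ℕ) • ((2 : ℕ) • z) = 0 := by
      rw [hz, ← map_nsmul]
      have h7 : ∀ w : ZMod 2 × ZMod 2, (2 : ℕ) • w = 0 := by decide
      rw [h7, map_zero]
    have h6 : z + z = -(z + z) := by
      rw [two_smul, two_smul] at h5
      exact eq_neg_of_add_eq_zero_left h5
    rw [h4, h6]
    abel

end galois

end Pool.Agent.SmithE
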