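import Pool.Agent.Lib.SM.E.Kappa

/-!
SMITH, block E, part E5: the maps `T_μ`, `T_c` of `V1` attached to the curve
`y ^ 2 = x (x - α) (x - β)` over `k(t)` as a `TwData`, and the formula for `κ` in these terms.

`ell μ` are the monic irreducible factors of `α β (α - β)`, `u` is a non-square constant.
-/

set_option autoImplicit false

namespace Pool.Agent.SmithE

open Polynomial UniqueFactorizationMonoid
open Pool.Agent.BSDP.R (primesOf)
open Pool.Agent.Sm (V1 ee TwData)
open Pool.Agent.Lib.SmD Pool.Agent.SmF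

section poly

variable {k : Type} [Field k]

/-- multiplicity of `P` in `f` modulo 2 -/
noncomputable def vm (P f : k[X]) : ZMod 2 :=
  open Classical in ((normalizedFactors f).count P : ZMod 2)

/-- `0` if the leading coefficient of `f` is a square, `1` if not -/
noncomputable def lcz (f : k[X]) : ZMod 2 :=
  open Classical in if IsSquare f.leadingCoeff then 0 else 1

theorem vm_mul {P f g : k[X]} (hf : f ≠ 0) (hg : g ≠ 0) : vm P (f * g) = vm P f + vm P g := by
  classical
  unfold vm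
  rw [normalizedFactors_mul hf hg, Multiset.count_add, Nat.cast_add]

theorem vm_neg (P f : k[X]) : vm P (-f) = vm P f := by
  classical
  unfold vm
  rw [(Associated.neg_left (Associated.refl f)).normalizedFactors_eq]

theorem mem_primesOf {P f : k[X]} (hf : f ≠ 0) :
    P ∈ primesOf f ↔ P.Monic ∧ Irreducible P ∧ P ∣ f := by
  classical
  rw [primesOf, Multiset.mem_toFinset]
  constructor
  · intro h
    have hi := irreducible_of_normalized_factor P h
    have hn := normalize_normalized_factor P h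
    refine ⟨?_, hi, dvd_of_mem_normalizedFactors h⟩
    rw [← hn]
    exact Polynomial.monic_normalize hi.ne_zero
  · rintro ⟨hm, hi, hd⟩
    obtain ⟨q, hq, hPq⟩ := exists_mem_normalizedFactors_of_dvd hf hi hd
    have hq' := normalize_normalized_factor q hq
    have : P = q := by
      rw [← hq', ← hm.normalize_eq_self]
      exact normalize_eq_normalize_iff_associated.mpr hPq
    rwa [this]

theorem vm_eq_zero {P f : k[X]} (h : P ∉ primesOf f) : vm P f = 0 := by
  classical
  rw [primesOf, Multiset.mem_toFinset] at h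
  unfold vm
  rw [Multiset.count_eq_zero_of_notMem h, Nat.cast_zero]

/-- factorisation over the monic irreducible factors -/
theorem eq_prod (f : k[X]) : ∃ n : k[X] → ℕ, (∀ P, (n P : ZMod 2) = vm P f) ∧
    f = C f.leadingCoeff * ∏ P ∈ primesOf f, P ^ n P := by
  classical
  refine ⟨fun P => (normalizedFactors f).count P, fun P => rfl, ?_⟩
  have h := Polynomial.leadingCoeff_mul_prod_normalizedFactors f
  conv_lhs => rw [← h]
  rw [Finset.prod_multiset_count]
  rfl

/-- if all multiplicities are even then `f` is a constant times a square -/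
theorem exists_sq {f : k[X]} (h : ∀ P ∈ primesOf f, vm P f = 0) :
    ∃ (c : k) (g : k[X]), f = C c * g ^ 2 := by
  obtain ⟨n, h1, h3⟩ := eq_prod f
  refine ⟨f.leadingCoeff, ∏ P ∈ primesOf f, P ^ (n P / 2), ?_⟩
  rw [← Finset.prod_pow]
  conv_lhs => rw [h3]
  congr 1
  refine Finset.prod_congr rfl fun P hP => ?_
  have h4 : (n P : ZMod 2) = 0 := by rw [h1, h P hP]
  have h5 : 2 ∣ n P := (ZMod.natCast_eq_zero_iff _ _).mp h4
  rw [← pow_mul, Nat.div_mul_cancel h5]

end poly

section chi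

variable {k : Type} [Field k] {Ω : Type} [Field Ω] [Algebra (RatFunc k) Ω]
  [IsSepClosure (RatFunc k) Ω]

/-- the constant polynomial of the RatFunc -/
noncomputable abbrev rf (f : k[X]) : RatFunc k := algebraMap k[X] (RatFunc k) f

theorem rf_mul (f g : k[X]) : rf (f * g) = rf f * rf g := map_mul _ _ _

theorem rf_neg (f : k[X]) : rf (-f) = -rf f := map_neg _ _

theorem rf_sub (f g : k[X]) : rf (f - g) = rf f - rf g := map_sub _ _ _

theorem rf_pow (f : k[X]) (n : ℕ) : rf (f ^ n) = rf f ^ n := map_pow _ _ _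

theorem rf_prod (S : Finset k[X]) (f : k[X] → k[X]) : rf (∏ P ∈ S, f P) = ∏ P ∈ S, rf (f P) :=
  map_prod _ _ _

theorem rf_ne_zero {f : k[X]} (hf : f ≠ 0) : rf f ≠ 0 := by
  intro h
  exact hf ((map_eq_zero_iff _ (IsFractionRing.injective k[X] (RatFunc k))).mp h)

theorem nonsq_mul [Finite k] {u c : k} (hu : ¬ IsSquare u) (hc : ¬ IsSquare c) :
    IsSquare (c * u) := by
  classical
  have := Fintype.ofFinite k
  have h1 := quadraticChar_neg_one_iff_not_isSquare.mpr hu
  have h2 := quadraticChar_neg_one_iff_not_isSquare.mpr hc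
  have hu0 : u ≠ 0 := by rintro rfl; exact hu ⟨0, by simp⟩
  have hc0 : c ≠ 0 := by rintro rfl; exact hc ⟨0, by simp⟩
  rw [← quadraticChar_one_iff_isSquare (mul_ne_zero hc0 hu0), map_mul, h1, h2]
  norm_num

theorem chi_const [Finite k] (h2 : (2 : RatFunc k) ≠ 0) {u : k} (hu : ¬ IsSquare u) {f : k[X]}
    (hf : f ≠ 0) (s : Ω ≃ₐ[RatFunc k] Ω) :
    chi (RatFunc k) (rf (C f.leadingCoeff)) s = lcz f * chi (RatFunc k) (rf (C u)) s := by
  have hc : f.leadingCoeff ≠ 0 := leadingCoeff_ne_zero.mpr hf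
  unfold lcz
  by_cases h : IsSquare f.leadingCoeff
  · rw [if_pos h, zero_mul]
    obtain ⟨d, hd⟩ := h
    have hd0 : d ≠ 0 := by
      rintro rfl
      rw [mul_zero] at hd
      exact hc hd
    have h4 : rf (C f.leadingCoeff) = rf (C d) ^ 2 := by
      rw [hd, C_mul, rf_mul, pow_two]
    rw [h4]
    exact chi_sq h2 (rf_ne_zero (C_ne_zero.mpr hd0)) s
  · rw [if_neg h, one_mul]
    have hu0 : u ≠ 0 := by rintro rfl; exact hu ⟨0, by simp⟩
    obtain ⟨d, hd⟩ := nonsq_mul hu h
    have hd0 : d ≠ 0 := by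
      rintro rfl
      rw [mul_zero] at hd
      exact mul_ne_zero hc hu0 hd
    have h4 : chi (RatFunc k) (rf (C f.leadingCoeff) * rf (C u)) s = 0 := by
      have : rf (C f.leadingCoeff) * rf (C u) = rf (C d) ^ 2 := by
        rw [← rf_mul, ← C_mul, hd, C_mul, rf_mul, pow_two]
      rw [this]
      exact chi_sq h2 (rf_ne_zero (C_ne_zero.mpr hd0)) s
    rw [chi_mul_elt h2 (rf_ne_zero (C_ne_zero.mpr hc)) (rf_ne_zero (C_ne_zero.mpr hu0))] at h4
    have h5 : ∀ a b : ZMod 2, a + b = 0 → a = b := by decide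
    exact h5 _ _ h4

/-- the quadratic character of a polynomial in terms of those of its factors -/
theorem chi_poly [Finite k] (h2 : (2 : RatFunc k) ≠ 0) {u : k} (hu : ¬ IsSquare u) {f : k[X]}
    (hf : f ≠ 0) (S : Finset k[X]) (hS : primesOf f ⊆ S) (s : Ω ≃ₐ[RatFunc k] Ω) :
    chi (RatFunc k) (rf f) s = lcz f * chi (RatFunc k) (rf (C u)) s +
      ∑ P ∈ S, vm P f * chi (RatFunc k) (rf P) s := by
  obtain ⟨n, h1, h3⟩ := eq_prod f
  have hP0 : ∀ P ∈ primesOf f, P ≠ 0 := fun P hP => ((mem_primesOf hf).mp hP).2.1.ne_zero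
  have h4 : rf f = rf (C f.leadingCoeff) * ∏ P ∈ primesOf f, rf P ^ n P := by
    conv_lhs => rw [h3]
    rw [rf_mul, rf_prod]
    simp only [rf_pow]
  have h5 : ∀ P ∈ primesOf f, rf P ^ n P ≠ 0 := fun P hP => pow_ne_zero _ (rf_ne_zero (hP0 P hP))
  rw [h4, chi_mul_elt h2 (rf_ne_zero (C_ne_zero.mpr (leadingCoeff_ne_zero.mpr hf)))
    (Finset.prod_ne_zero_iff.mpr h5), chi_const h2 hu hf, chi_prod h2 _ _ h5]
  congr 1
  rw [← Finset.sum_subset hS]
  · refine Finset.sum_congr rfl fun P hP => ?_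
    rw [chi_pow h2 (rf_ne_zero (hP0 P hP)), h1]
  · intro P _ hP
    rw [vm_eq_zero hP, zero_mul]

end chi

section twd

variable {k : Type} [Field k]

/-- none of `α β`, `α (α - β)`, `β (β - α)` is a constant times a square (the same as
`Pool.Agent.Sm.L.No4`, whose file is not imported here: its group structure on points would clash
with the one of `SM/E/Act.lean`) -/
structure NoFour (α β : k[X]) : Prop where
  n0 : ∀ (c : k) (f : k[X]), α * β ≠ C c * f ^ 2
  n1 : ∀ (c : k) (f : k[X]), α * (α - β) ≠ C c * f ^ 2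
  n2 : ∀ (c : k) (f : k[X]), β * (β - α) ≠ C c * f ^ 2

/-- the linear map with matrix `[[a, b], [c, d]]` -/
def mat (a b c d : ZMod 2) : V1 →ₗ[ZMod 2] V1 where
  toFun w := (a * w.1 + b * w.2, c * w.1 + d * w.2)
  map_add' x y := by
    ext
    · simp only [Prod.fst_add, Prod.snd_add]; ring
    · simp only [Prod.fst_add, Prod.snd_add]; ring
  map_smul' t x := by
    ext
    · simp only [Prod.smul_fst, Prod.smul_snd, smul_eq_mul, RingHom.id_apply]; ring
    · simp only [Prod.smul_fst, Prod.smul_snd, smul_eq_mul, RingHom.id_apply]; ring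

theorem mat_apply (a b c d : ZMod 2) (w : V1) :
    mat a b c d w = (a * w.1 + b * w.2, c * w.1 + d * w.2) := rfl

variable {α β : k[X]}

theorem no4_ne (h : NoFour α β) : α ≠ 0 ∧ β ≠ 0 ∧ α - β ≠ 0 := by
  refine ⟨?_, ?_, ?_⟩
  · rintro rfl
    exact h.n0 0 0 (by simp)
  · rintro rfl
    exact h.n0 0 0 (by simp)
  · intro h0
    exact h.n1 0 0 (by rw [h0]; simp)

theorem no4_bad (h : NoFour α β) : α * β * (α - β) ≠ 0 :=
  mul_ne_zero (mul_ne_zero (no4_ne h).1 (no4_ne h).2.1) (no4_ne h).2.2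

/-- the bad primes, enumerated -/
noncomputable def ellF (α β : k[X]) (i : Fin (primesOf (α * β * (α - β))).card) : k[X] :=
  ((primesOf (α * β * (α - β))).equivFin.symm i).1

theorem ellF_mem (i : Fin (primesOf (α * β * (α - β))).card) :
    ellF α β i ∈ primesOf (α * β * (α - β)) :=
  ((primesOf (α * β * (α - β))).equivFin.symm i).2

theorem exists_ellF {P : k[X]} (hP : P ∈ primesOf (α * β * (α - β))) :
    ∃ i, ellF α β i = P :=
  ⟨(primesOf (α * β * (α - β))).equivFin ⟨P, hP⟩, by simp [ellF]⟩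

theorem ellF_inj : Function.Injective (ellF α β) := by
  intro i j h
  exact (primesOf (α * β * (α - β))).equivFin.symm.injective (Subtype.ext h)

theorem exists_vm_one {f : k[X]} (hf : f ≠ 0) (hd : f ∣ α * β * (α - β) * (α * β * (α - β)))
    (h0 : α * β * (α - β) ≠ 0) (hn : ∀ (c : k) (g : k[X]), f ≠ C c * g ^ 2) :
    ∃ i, vm (ellF α β i) f = 1 := by
  by_contra hcon
  push Not at hcon
  have h01 : ∀ a : ZMod 2, a ≠ 1 → a = 0 := by decide
  obtain ⟨c, g, h⟩ := exists_sq (f := f) (by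
    intro P hP
    obtain ⟨hm, hi, hPf⟩ := (mem_primesOf hf).mp hP
    have hP' : P ∈ primesOf (α * β * (α - β)) := by
      refine (mem_primesOf h0).mpr ⟨hm, hi, ?_⟩
      rcases hi.prime.dvd_or_dvd (hPf.trans hd) with h | h <;> exact h
    obtain ⟨i, hi⟩ := exists_ellF hP'
    rw [← hi]
    exact h01 _ (hcon i))
  exact hn c g h

/-- the data of the curve `y ^ 2 = x (x - α) (x - β)` -/
noncomputable def twd (u : k) (hu : ¬ IsSquare u) (h : NoFour α β) : TwData k where
  h := (primesOf (α * β * (α - β))).card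
  ell := ellF α β
  u := u
  T := fun i => mat (vm (ellF α β i) α) (vm (ellF α β i) (α * (α - β)))
    (vm (ellF α β i) (α * β)) (vm (ellF α β i) α)
  Tc := mat (lcz (-α)) (lcz (α * (α - β))) (lcz (α * β)) (lcz α)
  ell_monic := fun i => ((mem_primesOf (no4_bad h)).mp (ellF_mem i)).1
  ell_irr := fun i => ((mem_primesOf (no4_bad h)).mp (ellF_mem i)).2.1
  ell_inj := ellF_inj
  u_nonsq := hu
  symm := by
    have key : ∀ (s b c : ZMod 2) (w w' : V1), ee w' (s * w.1 + b * w.2, c * w.1 + s * w.2) =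
        ee w (s * w'.1 + b * w'.2, c * w'.1 + s * w'.2) := by decide
    intro i w w'
    exact key _ _ _ w w'
  nondeg := by
    obtain ⟨ha, hb, hab⟩ := no4_ne h
    have h0 := no4_bad h
    have key : ∀ (s b c : ZMod 2), ee (1, 0) (s * 1 + b * 0, c * 1 + s * 0) = c ∧
        ee (0, 1) (s * 0 + b * 1, c * 0 + s * 1) = b ∧
        ee (1, 1) (s * 1 + b * 1, c * 1 + s * 1) = b + c := by decide
    intro w hw
    rcases V1_cases w with rfl | rfl | rfl | rfl
    · exact absurd rfl hw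
    · obtain ⟨i, hi⟩ := exists_vm_one (f := α * β) (mul_ne_zero ha hb)
        ⟨(α - β) * (α * β * (α - β)), by ring⟩ h0 h.n0
      exact ⟨i, ((key _ _ _).1).trans hi⟩
    · obtain ⟨i, hi⟩ := exists_vm_one (f := α * (α - β)) (mul_ne_zero ha hab)
        ⟨β * (α * β * (α - β)), by ring⟩ h0 h.n1
      exact ⟨i, ((key _ _ _).2.1).trans hi⟩
    · have hba : β - α ≠ 0 := by rwa [← neg_sub, neg_ne_zero]
      obtain ⟨i, hi⟩ := exists_vm_one (f := β * (β - α)) (mul_ne_zero hb hba)
        ⟨-α * (α * β * (α - β)), by ring⟩ h0 h.n2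
      refine ⟨i, ((key _ _ _).2.2).trans ?_⟩
      rw [← hi, vm_mul ha hab, vm_mul ha hb, vm_mul hb hba, ← neg_sub α β, vm_neg]
      have h5 : ∀ a b c : ZMod 2, a + b + (a + c) = c + b := by decide
      exact h5 _ _ _

/-- the bad primes are the monic irreducible factors of `α β (α - β)` -/
theorem twd_ell_iff {u : k} (hu : ¬ IsSquare u) (h : NoFour α β) {P : k[X]}
    (hm : P.Monic) (hi : Irreducible P) :
    (∃ i, (twd u hu h).ell i = P) ↔ P ∣ α * β * (α - β) := by
  constructor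
  · rintro ⟨i, rfl⟩
    exact ((mem_primesOf (no4_bad h)).mp (ellF_mem i)).2.2
  · intro hd
    exact exists_ellF ((mem_primesOf (no4_bad h)).mpr ⟨hm, hi, hd⟩)

end twd

section main

variable {k : Type} [Field k] [Finite k] {α β : k[X]} {Ω : Type} [Field Ω]
  [Algebra (RatFunc k) Ω] [IsSepClosure (RatFunc k) Ω]

omit [Finite k] in
/-- the sum over the bad primes -/
theorem sum_ell {u : k} (hu : ¬ IsSquare u) (h : NoFour α β) (F : k[X] → ZMod 2) :
    ∑ P ∈ primesOf (α * β * (α - β)), F P = ∑ i, F ((twd u hu h).ell i) := by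
  symm
  refine Finset.sum_bij (fun i _ => ellF α β i) (fun i _ => ellF_mem i)
    (fun i _ j _ hij => ellF_inj hij) (fun P hP => ?_) (fun i _ => rfl)
  obtain ⟨i, hi⟩ := exists_ellF hP
  exact ⟨i, Finset.mem_univ _, hi⟩

/-- the value of `κ` (without the twist) in terms of the data -/
theorem kap0_eq (h2 : (2 : RatFunc k) ≠ 0) {u : k} (hu : ¬ IsSquare u)
    (h : NoFour α β) (s : Ω ≃ₐ[RatFunc k] Ω) (w : V1) :
    kap0 0 (rf α) (rf β) s w =
      chi (RatFunc k) (rf (C u)) s • (twd u hu h).Tc w +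
        ∑ i, chi (RatFunc k) (rf ((twd u hu h).ell i)) s • (twd u hu h).T i w := by
  obtain ⟨ha, hb, hab⟩ := no4_ne h
  have h0 := no4_bad h
  have hsub : ∀ f : k[X], f ≠ 0 → f ∣ α * β * (α - β) * (α * β * (α - β)) →
      primesOf f ⊆ primesOf (α * β * (α - β)) := by
    intro f hf hd P hP
    obtain ⟨hm, hi, hPf⟩ := (mem_primesOf hf).mp hP
    refine (mem_primesOf h0).mpr ⟨hm, hi, ?_⟩
    rcases hi.prime.dvd_or_dvd (hPf.trans hd) with h | h <;> exact h
  have e1 : (0 : RatFunc k) - rf α = rf (-α) := by rw [rf_neg, zero_sub]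
  have e2 : (rf α - 0) * (rf α - rf β) = rf (α * (α - β)) := by
    rw [rf_mul, rf_sub, sub_zero]
  have e3 : ((0 : RatFunc k) - rf α) * (0 - rf β) = rf (α * β) := by
    rw [rf_mul]; ring
  have e4 : rf α - 0 = rf α := sub_zero _
  rw [kap0, e3, e2, e1, e4,
    chi_poly h2 hu (neg_ne_zero.mpr ha) _ (hsub _ (neg_ne_zero.mpr ha)
      ⟨-(β * (α - β) * (α * β * (α - β))), by ring⟩) s,
    chi_poly h2 hu (mul_ne_zero ha hab) _ (hsub _ (mul_ne_zero ha hab)
      ⟨β * (α * β * (α - β)), by ring⟩) s,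
    chi_poly h2 hu (mul_ne_zero ha hb) _ (hsub _ (mul_ne_zero ha hb)
      ⟨(α - β) * (α * β * (α - β)), by ring⟩) s,
    chi_poly h2 hu ha _ (hsub _ ha
      ⟨β * (α - β) * (α * β * (α - β)), by ring⟩) s]
  simp only [vm_neg]
  rw [sum_ell hu h, sum_ell hu h, sum_ell hu h]
  have hfst : ∀ (F : Fin (twd u hu h).h → V1), (∑ i, F i).1 = ∑ i, (F i).1 := by
    intro F
    exact map_sum (AddMonoidHom.fst (ZMod 2) (ZMod 2)) F Finset.univ
  have hsnd : ∀ (F : Fin (twd u hu h).h → V1), (∑ i, F i).2 = ∑ i, (F i).2 := by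
    intro F
    exact map_sum (AddMonoidHom.snd (ZMod 2) (ZMod 2)) F Finset.univ
  ext
  · rw [Prod.fst_add, hfst]
    simp only [Prod.smul_fst, smul_eq_mul]
    have h6 : ∀ i, ((twd u hu h).T i w).1 = vm ((twd u hu h).ell i) α * w.1 +
        vm ((twd u hu h).ell i) (α * (α - β)) * w.2 := fun i => rfl
    have h7 : ((twd u hu h).Tc w).1 = lcz (-α) * w.1 + lcz (α * (α - β)) * w.2 := rfl
    rw [h7]
    simp only [h6, mul_add, Finset.sum_add_distrib, Finset.mul_sum]
    have h8 : ∀ (g : k[X]) (c : ZMod 2),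
        ∑ i, chi (RatFunc k) (rf ((twd u hu h).ell i)) s * (vm ((twd u hu h).ell i) g * c) =
        ∑ i, c * (vm ((twd u hu h).ell i) g * chi (RatFunc k) (rf ((twd u hu h).ell i)) s) :=
      fun g c => Finset.sum_congr rfl fun i _ => by ring
    rw [h8, h8]
    ring
  · rw [Prod.snd_add, hsnd]
    simp only [Prod.smul_snd, smul_eq_mul]
    have h6 : ∀ i, ((twd u hu h).T i w).2 = vm ((twd u hu h).ell i) (α * β) * w.1 +
        vm ((twd u hu h).ell i) α * w.2 := fun i => rfl
    have h7 : ((twd u hu h).Tc w).2 = lcz (α * β) * w.1 + lcz α * w.2 := rfl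
    rw [h7]
    simp only [h6, mul_add, Finset.sum_add_distrib, Finset.mul_sum]
    have h8 : ∀ (g : k[X]) (c : ZMod 2),
        ∑ i, chi (RatFunc k) (rf ((twd u hu h).ell i)) s * (vm ((twd u hu h).ell i) g * c) =
        ∑ i, c * (vm ((twd u hu h).ell i) g * chi (RatFunc k) (rf ((twd u hu h).ell i)) s) :=
      fun g c => Finset.sum_congr rfl fun i _ => by ring
    rw [h8, h8]
    ring

/-- **E5**. If `2 z = w` then `χ(s) s z - z = κ(w)(s)`, where
`κ(w) = χ ⊗ w + χ_u ⊗ T_c w + ∑ χ_(ell i) ⊗ T_i w`. -/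
theorem E5 [DecidableEq Ω] (h2 : (2 : RatFunc k) ≠ 0) {u : k} (hu : ¬ IsSquare u)
    (h : NoFour α β) (h12 : (0 : RatFunc k) ≠ rf α) (h13 : (0 : RatFunc k) ≠ rf β)
    (h23 : rf α ≠ rf β) (χ : (Ω ≃ₐ[RatFunc k] Ω) → ZMod 2) (z : VV Ω 0 (rf α) (rf β)) (w : V1)
    (hz : (2 : ℕ) • z = iota h2 h12 h13 h23 Ω w) (s : Ω ≃ₐ[RatFunc k] Ω) :
    Pool.Agent.Sm.dl χ z s = iota h2 h12 h13 h23 Ω
      (χ s • w + chi (RatFunc k) (rf (C u)) s • (twd u hu h).Tc w +
        ∑ i, chi (RatFunc k) (rf ((twd u hu h).ell i)) s • (twd u hu h).T i w) := by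
  rw [kappa_tw h2 h12 h13 h23 χ z w hz s, kap0_eq h2 hu h s w, add_assoc]

end main

end Pool.Agent.SmithE
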