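import Pool.Agent.Lib.SM.E.Inert

/-!
SMITH, block E, part E3 (1): bounds for the coordinates of the 2-power torsion of
`y ^ 2 = (x - e₁) (x - e₂) (x - e₃)` at a place `w` of `Om` where `2` is a unit.
-/

set_option autoImplicit false

namespace Pool.Agent.SmithE

open WeierstrassCurve WeierstrassCurve.Affine

section one

variable {F : Type} [Field F] {W : WeierstrassCurve F} {a b c m : F}
  {w : ValuationSubring F}

theorem val_sq_eq {x y : w.ValueGroup} (h : x ^ 2 ≤ y ^ 2) : x ≤ y :=
  (pow_le_pow_iff_left₀ zero_le zero_le two_ne_zero).mp h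

/-- doubling a point with large `x` -/
theorem val_double (hW : W = crv a b c) (h2 : w.valuation 2 = 1) (ha : w.valuation a ≤ w.valuation m)
    (hb : w.valuation b ≤ w.valuation m) (hc : w.valuation c ≤ w.valuation m) {x y : F}
    (h : W.toAffine.Nonsingular x y) (hx : w.valuation m < w.valuation x) :
    y ≠ 0 ∧ w.valuation (((x - a) ^ 2 - (a - b) * (a - c)) / (2 * y)) ^ 2 = w.valuation x := by
  have he := eqn hW h
  have x0 : w.valuation x ≠ 0 := (lt_of_le_of_lt zero_le hx).ne'
  have sub : ∀ {e : F}, w.valuation e ≤ w.valuation m → w.valuation (x - e) = w.valuation x :=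
    fun h => Valuation.map_sub_eq_of_lt_left _ (h.trans_lt hx)
  have hy2 : w.valuation y ^ 2 = w.valuation x ^ 3 := by
    rw [← map_pow, he, map_mul, map_mul, sub ha, sub hb, sub hc, pow_three']
  have hy : y ≠ 0 := by
    rintro rfl
    rw [map_zero, zero_pow two_ne_zero] at hy2
    exact x0 (pow_eq_zero_iff (three_ne_zero) |>.mp hy2.symm)
  refine ⟨hy, ?_⟩
  have hnum : w.valuation ((x - a) ^ 2 - (a - b) * (a - c)) = w.valuation x ^ 2 := by
    rw [Valuation.map_sub_eq_of_lt_left, map_pow, sub ha]
    rw [map_pow, sub ha, map_mul]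
    have k1 : w.valuation (a - b) ≤ w.valuation m := (w.valuation.map_sub _ _).trans (max_le ha hb)
    have k2 : w.valuation (a - c) ≤ w.valuation m := (w.valuation.map_sub _ _).trans (max_le ha hc)
    calc w.valuation (a - b) * w.valuation (a - c) ≤ w.valuation m * w.valuation m :=
          mul_le_mul' k1 k2
      _ = w.valuation m ^ 2 := (sq _).symm
      _ < w.valuation x ^ 2 := pow_lt_pow_left₀ hx zero_le two_ne_zero
  rw [map_div₀, hnum, map_mul, h2, one_mul, div_pow, hy2]
  field_simp

variable [DecidableEq F]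

/-- the `x`-coordinates of the 2-power torsion are bounded -/
theorem x_le (hW : W = crv a b c) (h2 : w.valuation 2 = 1) (ha : w.valuation a ≤ w.valuation m)
    (hb : w.valuation b ≤ w.valuation m) (hc : w.valuation c ≤ w.valuation m) (j : ℕ) :
    ∀ {x y : F} (h : W.toAffine.Nonsingular x y),
      (2 ^ j) • (.some x y h : W.toAffine.Point) = 0 → w.valuation x ≤ w.valuation m := by
  have h20 : (2 : F) ≠ 0 := by
    intro h
    rw [h, map_zero] at h2
    exact zero_ne_one h2
  induction j with
  | zero =>
    intro x y h h0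
    rw [pow_zero, one_smul] at h0
    exact absurd h0 (WeierstrassCurve.Affine.Point.some_ne_zero _)
  | succ j ih =>
    intro x y h h0
    rw [pow_succ, mul_smul, two_smul] at h0
    refine not_lt.mp fun hx => ?_
    obtain ⟨hy, hv⟩ := val_double hW h2 ha hb hc h hx
    obtain ⟨X, Y, h', h1, r₁, -, -⟩ := add_self_coord hW h20 h hy
    rw [h1] at h0
    have hX := ih h' h0
    have k1 : w.valuation (X - a) ≤ w.valuation m := (w.valuation.map_sub _ _).trans (max_le hX ha)
    rw [r₁, map_pow, hv] at k1
    exact absurd hx (not_lt.mpr k1)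

/-- bound for `x - a`, where `(a, 0)` is one of the points of order 2 -/
theorem sub_ge (hW : W = crv a b c) (h2 : w.valuation 2 = 1) (ha : w.valuation a ≤ w.valuation m)
    (hb : w.valuation b ≤ w.valuation m) (hc : w.valuation c ≤ w.valuation m) (hab : a ≠ b)
    (hac : a ≠ c) {x y : F} (h : W.toAffine.Nonsingular x y) (hy : y ≠ 0) {j : ℕ}
    (hj : (2 ^ j) • (.some x y h : W.toAffine.Point) = 0) :
    w.valuation ((a - b) * (a - c)) ≤ w.valuation m * w.valuation (x - a) := by
  obtain ⟨n1, -, -⟩ := sub_ne_of_Y_ne hW h hy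
  have hT : W.toAffine.Nonsingular a 0 := by
    subst hW
    exact nonsingular_T1 hab hac
  obtain ⟨X, Y, h', h1, hX, -⟩ := add_T hW h (sub_ne_zero.mp n1) hT
  have h3 : (2 ^ (j + 1)) • (.some X Y h' : W.toAffine.Point) = 0 := by
    rw [← h1, pow_succ, smul_add, mul_comm, mul_smul, hj, smul_zero, mul_comm, mul_smul, two_smul,
      WeierstrassCurve.Affine.Point.add_of_Y_eq rfl (by rw [negY_eq hW, neg_zero]), smul_zero,
      add_zero]
  have hXm := x_le hW h2 ha hb hc _ h' h3
  have k1 : w.valuation (X - a) ≤ w.valuation m := (w.valuation.map_sub _ _).trans (max_le hXm ha)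
  have e1 : (a - b) * (a - c) = (X - a) * (x - a) := by
    rw [hX]
    field_simp
    ring
  rw [e1, map_mul]
  exact mul_le_mul_left k1 _

/-- lower bound for `y` -/
theorem y_ge (hW : W = crv a b c) (h2 : w.valuation 2 = 1) (ha : w.valuation a ≤ w.valuation m)
    (hb : w.valuation b ≤ w.valuation m) (hc : w.valuation c ≤ w.valuation m) (hab : a ≠ b)
    (hac : a ≠ c) (hbc : b ≠ c) {x y : F} (h : W.toAffine.Nonsingular x y) (hy : y ≠ 0) {j : ℕ}
    (hj : (2 ^ j) • (.some x y h : W.toAffine.Point) = 0) :
    w.valuation ((a - b) * (a - c) * (b - c)) ^ 2 ≤ w.valuation m ^ 3 * w.valuation y ^ 2 := by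
  have l1 := sub_ge hW h2 ha hb hc hab hac h hy hj
  have l2 := sub_ge (hW.trans (crv_swap12 a b c)) h2 hb ha hc hab.symm hbc h hy hj
  have l3 := sub_ge (hW.trans ((crv_swap23 a b c).trans (crv_swap12 a c b))) h2 hc ha hb hac.symm
    hbc.symm h hy hj
  have e1 : w.valuation ((a - b) * (a - c) * (b - c)) ^ 2 =
      w.valuation ((a - b) * (a - c)) * w.valuation ((b - a) * (b - c)) *
        w.valuation ((c - a) * (c - b)) := by
    rw [← map_pow, ← map_mul, ← map_mul, ← Valuation.map_neg]
    congr 1
    ring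
  have e2 : w.valuation m ^ 3 * w.valuation y ^ 2 = (w.valuation m * w.valuation (x - a)) *
      (w.valuation m * w.valuation (x - b)) * (w.valuation m * w.valuation (x - c)) := by
    rw [← map_pow w.valuation y, eqn hW h, map_mul, map_mul, pow_three']
    simp only [mul_assoc, mul_comm, mul_left_comm]
  rw [e1, e2]
  exact mul_le_mul' (mul_le_mul' l1 l2) l3

/-- two 2-power torsion points with different `x`-coordinates are far from each other -/
theorem dist_ge (hW : W = crv a b c) (h2 : w.valuation 2 = 1) (ha : w.valuation a ≤ w.valuation m)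
    (hb : w.valuation b ≤ w.valuation m) (hc : w.valuation c ≤ w.valuation m) (hab : a ≠ b)
    (hac : a ≠ c) (hbc : b ≠ c) {x y x' y' : F} (h : W.toAffine.Nonsingular x y)
    (h' : W.toAffine.Nonsingular x' y') (hy : y ≠ 0) {j j' : ℕ}
    (hj : (2 ^ j) • (.some x y h : W.toAffine.Point) = 0)
    (hj' : (2 ^ j') • (.some x' y' h' : W.toAffine.Point) = 0) (hx : x ≠ x') :
    w.valuation ((a - b) * (a - c) * (b - c)) ^ 2 ≤
      w.valuation m ^ 4 * w.valuation (x - x') ^ 2 := by
  have hxx : x - x' ≠ 0 := sub_ne_zero.mpr hx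
  have vxx : w.valuation (x - x') ≠ 0 := (w.valuation.ne_zero_iff).mpr hxx
  have l0 := y_ge hW h2 ha hb hc hab hac hbc h hy hj
  have hxm := x_le hW h2 ha hb hc _ h hj
  have hxm' := x_le hW h2 ha hb hc _ h' hj'
  -- the general estimate for a sum
  have key : ∀ {z : F} (h'' : W.toAffine.Nonsingular x' z),
      (2 ^ j') • (.some x' z h'' : W.toAffine.Point) = 0 →
      w.valuation (y - z) ^ 2 ≤ w.valuation m * w.valuation (x - x') ^ 2 := by
    intro z h'' hz
    have hs : (.some x y h : W.toAffine.Point) + .some x' z h'' =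
        .some _ _ (nonsingular_add h h'' fun hxy => hx hxy.left) :=
      WeierstrassCurve.Affine.Point.add_of_X_ne hx
    have h3 : (2 ^ (j + j')) • (.some _ _ (nonsingular_add h h'' fun hxy => hx hxy.left) :
        W.toAffine.Point) = 0 := by
      rw [← hs, smul_add, pow_add, mul_smul, mul_smul, hz, smul_zero, smul_comm, hj, smul_zero,
        add_zero]
    have hX := x_le hW h2 ha hb hc _ _ h3
    have e3 : W.toAffine.addX x x' (W.toAffine.slope x x' y z) =
        ((y - z) / (x - x')) ^ 2 + (a + b + c) - x - x' := by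
      subst hW
      rw [WeierstrassCurve.Affine.addX, WeierstrassCurve.Affine.slope_of_X_ne hx, crv_a₁, crv_a₂]
      ring
    rw [e3] at hX
    have e4 : ((y - z) / (x - x')) ^ 2 =
        (((y - z) / (x - x')) ^ 2 + (a + b + c) - x - x') - (a + b + c) + x + x' := by ring
    have k4 : w.valuation (((y - z) / (x - x')) ^ 2) ≤ w.valuation m := by
      rw [e4]
      refine (w.valuation.map_add _ _).trans (max_le ?_ hxm')
      refine (w.valuation.map_add _ _).trans (max_le ?_ hxm)
      refine (w.valuation.map_sub _ _).trans (max_le hX ?_)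
      refine (w.valuation.map_add _ _).trans (max_le ?_ hc)
      exact (w.valuation.map_add _ _).trans (max_le ha hb)
    rw [map_pow, map_div₀, div_pow] at k4
    rwa [div_le_iff₀ (zero_lt_iff.mpr (pow_ne_zero _ vxx))] at k4
  have k1 := key h' hj'
  have hneg : -(.some x' y' h' : W.toAffine.Point) =
      .some x' (W.toAffine.negY x' y') ((nonsingular_neg ..).mpr h') := rfl
  have k2 := key ((nonsingular_neg ..).mpr h') (by rw [← hneg, smul_neg, hj', neg_zero])
  rw [negY_eq hW, sub_neg_eq_add] at k2
  have hyy : w.valuation y ^ 2 ≤ w.valuation m * w.valuation (x - x') ^ 2 := by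
    have e5 : (2 * y) = (y - y') + (y + y') := by ring
    have e6 : w.valuation y = w.valuation (2 * y) := by rw [map_mul, h2, one_mul]
    rw [e6, e5]
    rcases le_total (w.valuation (y - y')) (w.valuation (y + y')) with hle | hle
    · exact (pow_le_pow_left₀ zero_le ((w.valuation.map_add _ _).trans (max_le hle le_rfl)) 2).trans
        k2
    · exact (pow_le_pow_left₀ zero_le ((w.valuation.map_add _ _).trans (max_le le_rfl hle)) 2).trans
        k1
  calc w.valuation ((a - b) * (a - c) * (b - c)) ^ 2 ≤ w.valuation m ^ 3 * w.valuation y ^ 2 := l0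
    _ ≤ w.valuation m ^ 3 * (w.valuation m * w.valuation (x - x') ^ 2) := by gcongr
    _ = w.valuation m ^ 4 * w.valuation (x - x') ^ 2 := by rw [← mul_assoc, ← pow_succ]

end one

end Pool.Agent.SmithE
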