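import Pool.Agent.Lib.SmD.Defs
import Pool.Agent.Lib.SmD.ResMap
import Pool.Agent.Lib.SmD.Frob

/-!
SMITH, block E6, part 3: the integers of the fixed field of a decomposition group form a finite
set modulo every nonzero element.
-/

set_option autoImplicit false

namespace Pool.Agent.SmithE

open Pool.Agent.Lib.SmD IsLocalRing

variable {K Ω : Type} [Field K] [Field Ω] [Algebra K Ω] {w : ValuationSubring Ω} {π : K}

/-- finitely many representatives of the residue field of the place below -/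
private theorem ldiv_reps (hfin : Finite (ResidueField (below K w))) :
    ∃ S : Finset K, ∀ a : K, a ∈ below K w → ∃ r ∈ S, w.valuation (algebraMap K Ω (a - r)) < 1 := by
  classical
  have hsurj : Function.Surjective (residue (below K w)) := IsLocalRing.residue_surjective
  let rep : ResidueField (below K w) → K := fun c => ((Function.surjInv hsurj c : below K w) : K)
  have hf : (Set.range rep).Finite := Set.finite_range rep
  refine ⟨hf.toFinset, fun a ha => ?_⟩
  refine ⟨rep (residue _ ⟨a, ha⟩), hf.mem_toFinset.mpr ⟨_, rfl⟩, ?_⟩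
  have h1 : residue (below K w) (Function.surjInv hsurj (residue _ ⟨a, ha⟩)) = residue _ ⟨a, ha⟩ :=
    Function.surjInv_eq hsurj _
  have h2 := congrArg (resMap K w) h1
  rw [resMap_residue, resMap_residue, residue_eq_iff] at h2
  rw [map_sub, Valuation.map_sub_swap]
  exact h2

/-- `x` fixed by the decomposition group is congruent to an element of `K` -/
private theorem ldiv_res [IsGalois K Ω] (h : LocHyp K w π) {x : Ω} (hx : ∀ s ∈ dec K w, s x = x)
    (hxw : w.valuation x ≤ 1) :
    ∃ a : K, a ∈ below K w ∧ w.valuation (x - algebraMap K Ω a) < 1 := by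
  have := h.fin
  obtain ⟨φ, hφ⟩ := exists_frob (K := K) w
  have hxw' : x ∈ w := by rwa [← ValuationSubring.valuation_le_one_iff]
  have h1 := hφ.frob x hxw'
  rw [hx φ hφ.mem] at h1
  obtain ⟨a, ha⟩ := residue_fixed' K w hxw' (by rwa [Valuation.map_sub_swap])
  refine ⟨a, ?_, ha⟩
  rw [ValuationSubring.mem_comap, ← ValuationSubring.valuation_le_one_iff]
  have h2 : algebraMap K Ω a = x - (x - algebraMap K Ω a) := by ring
  rw [h2]
  exact (w.valuation.map_sub _ _).trans (max_le hxw ha.le)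

private theorem ldiv_zpow {Γ : Type} [LinearOrderedCommGroupWithZero Γ] {p : Γ} (hp0 : p ≠ 0)
    (hp : p < 1) {n : ℤ} (h : p ^ n < 1) : p ^ n ≤ p := by
  have hn : 0 < n := by
    by_contra hc
    push Not at hc
    have h1 : (1 : Γ) ≤ p ^ n := by
      have := zpow_le_zpow_right_of_le_one₀ (zero_lt_iff.mpr hp0) hp.le hc
      rwa [zpow_zero] at this
    exact absurd h (not_lt.mpr h1)
  have := zpow_le_zpow_right_of_le_one₀ (zero_lt_iff.mpr hp0) hp.le (show (1 : ℤ) ≤ n by omega)
  rwa [zpow_one] at this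

/-- approximation modulo `π ^ N` -/
private theorem ldiv_fin_pow [IsGalois K Ω] (h : LocHyp K w π)
    (hdisc : ∀ x : Ω, x ≠ 0 → (∀ s ∈ dec K w, s x = x) →
      ∃ n : ℤ, w.valuation x = w.valuation (algebraMap K Ω π) ^ n) (N : ℕ) :
    ∃ F : Finset K, ∀ x : Ω, (∀ s ∈ dec K w, s x = x) → w.valuation x ≤ 1 →
      ∃ f ∈ F, w.valuation (x - algebraMap K Ω f) ≤ w.valuation (algebraMap K Ω π) ^ N := by
  classical
  have hπ0 : algebraMap K Ω π ≠ 0 := by
    rw [Ne, map_eq_zero_iff _ (algebraMap K Ω).injective]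
    exact h.pi_ne
  have hvπ : w.valuation (algebraMap K Ω π) ≠ 0 := (Valuation.ne_zero_iff _).mpr hπ0
  induction N with
  | zero =>
    refine ⟨{0}, fun x _ hx1 => ⟨0, Finset.mem_singleton_self _, ?_⟩⟩
    rw [map_zero, sub_zero, pow_zero]
    exact hx1
  | succ N ih =>
    obtain ⟨F, hF⟩ := ih
    obtain ⟨S, hS⟩ := ldiv_reps h.fin
    refine ⟨Finset.image₂ (fun r g => r + π * g) S F, fun x hx hx1 => ?_⟩
    obtain ⟨a, ha, hxa⟩ := ldiv_res h hx hx1
    obtain ⟨r, hr, har⟩ := hS a ha
    have hxr : w.valuation (x - algebraMap K Ω r) < 1 := by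
      have e1 : x - algebraMap K Ω r = (x - algebraMap K Ω a) + algebraMap K Ω (a - r) := by
        rw [map_sub]; ring
      rw [e1]
      exact w.valuation.map_add_lt hxa har
    have hxr' : w.valuation (x - algebraMap K Ω r) ≤ w.valuation (algebraMap K Ω π) := by
      by_cases h0 : x - algebraMap K Ω r = 0
      · rw [h0, map_zero]
        exact zero_le
      · obtain ⟨n, hn⟩ := hdisc _ h0 (fun s hs => by rw [map_sub, hx s hs, s.commutes])
        rw [hn] at hxr ⊢
        exact ldiv_zpow hvπ h.pi_lt hxr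
    obtain ⟨g, hg, hyg⟩ := hF ((x - algebraMap K Ω r) / algebraMap K Ω π)
      (fun s hs => by rw [map_div₀, map_sub, hx s hs, s.commutes, s.commutes])
      (by rw [map_div₀, div_le_one₀ (zero_lt_iff.mpr hvπ)]; exact hxr')
    refine ⟨r + π * g, Finset.mem_image₂_of_mem hr hg, ?_⟩
    have e2 : x - algebraMap K Ω (r + π * g) =
        algebraMap K Ω π * ((x - algebraMap K Ω r) / algebraMap K Ω π - algebraMap K Ω g) := by
      rw [map_add, map_mul]
      field_simp
      ring
    rw [e2, map_mul, pow_succ']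
    exact mul_le_mul_right hyg _

/-- (Fin) -/
theorem ldiv_fin [IsGalois K Ω] (h : LocHyp K w π)
    (hdisc : ∀ x : Ω, x ≠ 0 → (∀ s ∈ dec K w, s x = x) →
      ∃ n : ℤ, w.valuation x = w.valuation (algebraMap K Ω π) ^ n) {t : Ω} (ht0 : t ≠ 0)
    (ht : ∀ s ∈ dec K w, s t = t) :
    ∃ F : Finset K, ∀ x : Ω, (∀ s ∈ dec K w, s x = x) → w.valuation x ≤ 1 →
      ∃ f ∈ F, w.valuation (x - algebraMap K Ω f) ≤ w.valuation t := by
  have hπ0 : algebraMap K Ω π ≠ 0 := by
    rw [Ne, map_eq_zero_iff _ (algebraMap K Ω).injective]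
    exact h.pi_ne
  have hvπ : w.valuation (algebraMap K Ω π) ≠ 0 := (Valuation.ne_zero_iff _).mpr hπ0
  obtain ⟨m, hm⟩ := hdisc t ht0 ht
  obtain ⟨F, hF⟩ := ldiv_fin_pow h hdisc m.toNat
  refine ⟨F, fun x hx hx1 => ?_⟩
  obtain ⟨f, hf, hxf⟩ := hF x hx hx1
  refine ⟨f, hf, hxf.trans ?_⟩
  rw [hm, ← zpow_natCast]
  exact zpow_le_zpow_right_of_le_one₀ (zero_lt_iff.mpr hvπ) h.pi_lt.le (Int.self_le_toNat m)

end Pool.Agent.SmithE
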