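import Pool.Agent.Lib.SM.E.Act

/-!
SMITH, block E: the isomorphism `(x, y) ↦ (d² x, d³ y)` of `E(Ω)` with the points of the quadratic
twist by `D = d²`, and its behaviour under the Galois group.
-/

set_option autoImplicit false

namespace Pool.Agent.SmithE

open WeierstrassCurve

section scale

variable {F : Type} [Field F]

/-- `W'` is `W` scaled by `d` -/
structure ScaleRel (W W' : WeierstrassCurve.Affine F) (d : F) : Prop where
  d0 : d ≠ 0
  a1 : W.a₁ = 0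
  a3 : W.a₃ = 0
  b1 : W'.a₁ = 0
  b3 : W'.a₃ = 0
  a2 : W'.a₂ = d ^ 2 * W.a₂
  a4 : W'.a₄ = d ^ 4 * W.a₄
  a6 : W'.a₆ = d ^ 6 * W.a₆

namespace ScaleRel

variable {W W' : WeierstrassCurve.Affine F} {d : F} (h : ScaleRel W W' d)

include h

lemma symm : ScaleRel W' W d⁻¹ where
  d0 := inv_ne_zero h.d0
  a1 := h.b1
  a3 := h.b3
  b1 := h.a1
  b3 := h.a3
  a2 := by
    have := h.d0
    rw [h.a2]
    field_simp
  a4 := by
    have := h.d0
    rw [h.a4]
    field_simp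
  a6 := by
    have := h.d0
    rw [h.a6]
    field_simp

lemma nonsingular {x y : F} (hn : W.Nonsingular x y) : W'.Nonsingular (d ^ 2 * x) (d ^ 3 * y) := by
  have hd := h.d0
  rw [WeierstrassCurve.Affine.nonsingular_iff, WeierstrassCurve.Affine.equation_iff] at hn ⊢
  rw [h.a1, h.a3] at hn
  rw [h.b1, h.b3, h.a2, h.a4, h.a6]
  refine ⟨by linear_combination d ^ 6 * hn.1, ?_⟩
  rcases hn.2 with h1 | h1
  · left
    intro h2
    apply h1
    have h3 : d ^ 4 ≠ 0 := pow_ne_zero 4 hd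
    apply mul_left_cancel₀ h3
    linear_combination h2
  · right
    intro h2
    apply h1
    have h3 : d ^ 3 ≠ 0 := pow_ne_zero 3 hd
    apply mul_left_cancel₀ h3
    linear_combination h2

lemma negY (x y : F) : W'.negY (d ^ 2 * x) (d ^ 3 * y) = d ^ 3 * W.negY x y := by
  rw [WeierstrassCurve.Affine.negY, WeierstrassCurve.Affine.negY, h.a1, h.a3, h.b1, h.b3]
  ring

variable [DecidableEq F]

lemma slope (x₁ x₂ y₁ y₂ : F) :
    W'.slope (d ^ 2 * x₁) (d ^ 2 * x₂) (d ^ 3 * y₁) (d ^ 3 * y₂) = d * W.slope x₁ x₂ y₁ y₂ := by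
  have hd := h.d0
  have hd2 : d ^ 2 ≠ 0 := pow_ne_zero 2 hd
  have hd3 : d ^ 3 ≠ 0 := pow_ne_zero 3 hd
  by_cases hx : x₁ = x₂
  · subst hx
    by_cases hy : y₁ = W.negY x₁ y₂
    · rw [WeierstrassCurve.Affine.slope_of_Y_eq rfl hy,
        WeierstrassCurve.Affine.slope_of_Y_eq rfl (by rw [h.negY, ← hy]), mul_zero]
    · rw [WeierstrassCurve.Affine.slope_of_Y_ne rfl hy,
        WeierstrassCurve.Affine.slope_of_Y_ne rfl
          (by rw [h.negY]; exact fun h1 => hy (mul_left_cancel₀ hd3 h1)), h.negY, h.b1, h.a1, h.a2,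
          h.a4]
      have e1 : d ^ 3 * y₁ - d ^ 3 * W.negY x₁ y₁ = d ^ 3 * (y₁ - W.negY x₁ y₁) := by ring
      have e2 : 3 * (d ^ 2 * x₁) ^ 2 + 2 * (d ^ 2 * W.a₂) * (d ^ 2 * x₁) + d ^ 4 * W.a₄ -
          0 * (d ^ 3 * y₁) = d ^ 3 * (d * (3 * x₁ ^ 2 + 2 * W.a₂ * x₁ + W.a₄ - 0 * y₁)) := by ring
      rw [e1, e2, mul_div_mul_left _ _ hd3, mul_div_assoc]
  · rw [WeierstrassCurve.Affine.slope_of_X_ne hx,
      WeierstrassCurve.Affine.slope_of_X_ne (fun h1 => hx (mul_left_cancel₀ hd2 h1))]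
    have e1 : d ^ 2 * x₁ - d ^ 2 * x₂ = d ^ 2 * (x₁ - x₂) := by ring
    have e2 : d ^ 3 * y₁ - d ^ 3 * y₂ = d ^ 2 * (d * (y₁ - y₂)) := by ring
    rw [e1, e2, mul_div_mul_left _ _ hd2, mul_div_assoc]

lemma addX (x₁ x₂ l : F) :
    W'.addX (d ^ 2 * x₁) (d ^ 2 * x₂) (d * l) = d ^ 2 * W.addX x₁ x₂ l := by
  rw [WeierstrassCurve.Affine.addX, WeierstrassCurve.Affine.addX, h.a1, h.b1, h.a2]
  ring

lemma addY (x₁ x₂ y₁ l : F) :
    W'.addY (d ^ 2 * x₁) (d ^ 2 * x₂) (d ^ 3 * y₁) (d * l) = d ^ 3 * W.addY x₁ x₂ y₁ l := by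
  rw [WeierstrassCurve.Affine.addY, WeierstrassCurve.Affine.addY,
    WeierstrassCurve.Affine.negAddY, WeierstrassCurve.Affine.negAddY, h.addX,
    WeierstrassCurve.Affine.negY, WeierstrassCurve.Affine.negY, h.a1, h.b1, h.a3, h.b3]
  ring

/-- the homomorphism `(x, y) ↦ (d² x, d³ y)` -/
def hom : W.Point →+ W'.Point where
  toFun P := match P with
    | 0 => 0
    | .some _ _ hn => .some _ _ (h.nonsingular hn)
  map_zero' := rfl
  map_add' := by
    rintro (_ | ⟨x₁, y₁, h₁⟩) (_ | ⟨x₂, y₂, h₂⟩)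
    any_goals rfl
    by_cases hxy : x₁ = x₂ ∧ y₁ = W.negY x₂ y₂
    · rw [WeierstrassCurve.Affine.Point.add_of_Y_eq hxy.left hxy.right,
        WeierstrassCurve.Affine.Point.add_of_Y_eq (by rw [hxy.left])
          (by rw [h.negY, hxy.right])]
    · have hxy' : ¬ (d ^ 2 * x₁ = d ^ 2 * x₂ ∧ d ^ 3 * y₁ = W'.negY (d ^ 2 * x₂) (d ^ 3 * y₂)) := by
        rw [h.negY]
        exact fun h1 => hxy ⟨mul_left_cancel₀ (pow_ne_zero 2 h.d0) h1.1,
          mul_left_cancel₀ (pow_ne_zero 3 h.d0) h1.2⟩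
      rw [WeierstrassCurve.Affine.Point.add_some hxy,
        WeierstrassCurve.Affine.Point.add_some hxy']
      simp only [WeierstrassCurve.Affine.Point.some.injEq]
      rw [h.slope, h.addX, h.addY]
      exact ⟨rfl, rfl⟩

lemma hom_some {x y : F} (hn : W.Nonsingular x y) :
    h.hom (.some x y hn) = .some (d ^ 2 * x) (d ^ 3 * y) (h.nonsingular hn) := rfl

lemma hom_symm_hom (P : W.Point) : h.symm.hom (h.hom P) = P := by
  have hd := h.d0
  rcases P with _ | ⟨x, y, hn⟩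
  · rfl
  · rw [hom_some, hom_some, WeierstrassCurve.Affine.Point.some.injEq]
    constructor <;> field_simp

lemma hom_hom_symm (P : W'.Point) : h.hom (h.symm.hom P) = P := by
  have hd := h.d0
  rcases P with _ | ⟨x, y, hn⟩
  · rfl
  · rw [hom_some, hom_some, WeierstrassCurve.Affine.Point.some.injEq]
    constructor <;> field_simp

/-- the isomorphism `(x, y) ↦ (d² x, d³ y)` -/
def equiv : W.Point ≃+ W'.Point :=
  { h.hom with
    invFun := h.symm.hom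
    left_inv := h.hom_symm_hom
    right_inv := h.hom_hom_symm }

lemma equiv_some {x y : F} (hn : W.Nonsingular x y) :
    h.equiv (.some x y hn) = .some (d ^ 2 * x) (d ^ 3 * y) (h.nonsingular hn) := rfl

end ScaleRel

end scale

section twist

variable {K Ω : Type} [Field K] [Field Ω] [Algebra K Ω] {e₁ e₂ e₃ D : K} {d : Ω}

lemma scaleRel_of_sq (hD : D ≠ 0) (hd : d ^ 2 = algebraMap K Ω D) :
    ScaleRel (WeierstrassCurve.Affine.baseChange (crv e₁ e₂ e₃) Ω)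
      (WeierstrassCurve.Affine.baseChange (crv (D * e₁) (D * e₂) (D * e₃)) Ω) d := by
  refine ⟨?_, ?_, ?_, ?_, ?_, ?_, ?_, ?_⟩
  · rintro rfl
    apply hD
    apply (algebraMap K Ω).injective
    rw [← hd, map_zero]
    simp
  all_goals rw [baseChange_crv]
  all_goals try rfl
  all_goals rw [baseChange_crv]
  · rw [crv_a₂, crv_a₂, hd, map_mul, map_mul, map_mul]
    ring
  · rw [crv_a₄, crv_a₄, map_mul, map_mul, map_mul, ← hd]
    ring
  · rw [crv_a₆, crv_a₆, map_mul, map_mul, map_mul, ← hd]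
    ring

variable [DecidableEq Ω]

/-- the isomorphism of `E(Ω)` with `E_D(Ω)`, `D = d ^ 2`, `(x, y) ↦ (D x, D d y)` -/
def twistEquiv (e₁ e₂ e₃ : K) (hD : D ≠ 0) (hd : d ^ 2 = algebraMap K Ω D) :
    Pt Ω e₁ e₂ e₃ ≃+ Pt Ω (D * e₁) (D * e₂) (D * e₃) := (scaleRel_of_sq hD hd).equiv

lemma twistEquiv_some (hD : D ≠ 0) (hd : d ^ 2 = algebraMap K Ω D) {x y : Ω}
    (hn : (WeierstrassCurve.Affine.baseChange (crv e₁ e₂ e₃) Ω).Nonsingular x y) :
    twistEquiv e₁ e₂ e₃ hD hd (.some x y hn) =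
      .some (d ^ 2 * x) (d ^ 3 * y) ((scaleRel_of_sq hD hd).nonsingular hn) := rfl

/-- `s φ(P) = φ(s P)` if `s` fixes `d = √D` -/
lemma smul_twistEquiv_of_fix (hD : D ≠ 0) (hd : d ^ 2 = algebraMap K Ω D) {s : Ω ≃ₐ[K] Ω}
    (hs : s d = d) (P : Pt Ω e₁ e₂ e₃) :
    s • twistEquiv e₁ e₂ e₃ hD hd P = twistEquiv e₁ e₂ e₃ hD hd (s • P) := by
  rcases P with _ | ⟨x, y, hn⟩
  · rfl
  · obtain ⟨h1, e1⟩ := smul_some s hn
    rw [e1, twistEquiv_some, twistEquiv_some]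
    obtain ⟨h2, e2⟩ := smul_some s ((scaleRel_of_sq hD hd).nonsingular hn)
    rw [e2, WeierstrassCurve.Affine.Point.some.injEq]
    simp only [map_mul, map_pow, hs, and_self]

/-- `s φ(P) = - φ(s P)` if `s d = - d` -/
lemma smul_twistEquiv_of_neg (hD : D ≠ 0) (hd : d ^ 2 = algebraMap K Ω D) {s : Ω ≃ₐ[K] Ω}
    (hs : s d = -d) (P : Pt Ω e₁ e₂ e₃) :
    s • twistEquiv e₁ e₂ e₃ hD hd P = -twistEquiv e₁ e₂ e₃ hD hd (s • P) := by
  rcases P with _ | ⟨x, y, hn⟩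
  · rfl
  · obtain ⟨h1, e1⟩ := smul_some s hn
    rw [e1, twistEquiv_some, twistEquiv_some]
    obtain ⟨h2, e2⟩ := smul_some s ((scaleRel_of_sq hD hd).nonsingular hn)
    rw [e2, WeierstrassCurve.Affine.Point.neg_some, WeierstrassCurve.Affine.Point.some.injEq,
      WeierstrassCurve.Affine.negY, (scaleRel_of_sq hD hd).b1, (scaleRel_of_sq hD hd).b3]
    simp only [map_mul, map_pow, hs]
    constructor <;> ring

/-- the twisted action `ε(s) s P` corresponds to the Galois action on `E_D(Ω)` -/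
theorem smul_twistEquiv (hD : D ≠ 0) (hd : d ^ 2 = algebraMap K Ω D) {s : Ω ≃ₐ[K] Ω}
    {ε : ℤˣ} (hs : s d = ((ε : ℤ) : Ω) * d) (P : Pt Ω e₁ e₂ e₃) :
    s • twistEquiv e₁ e₂ e₃ hD hd P = twistEquiv e₁ e₂ e₃ hD hd ((ε : ℤ) • (s • P)) := by
  rcases Int.units_eq_one_or ε with rfl | rfl
  · rw [Units.val_one, Int.cast_one, one_mul] at hs
    rw [smul_twistEquiv_of_fix hD hd hs, Units.val_one, one_smul]
  · rw [Units.val_neg, Units.val_one, Int.cast_neg, Int.cast_one, neg_one_mul] at hs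
    rw [smul_twistEquiv_of_neg hD hd hs, Units.val_neg, Units.val_one, neg_one_smul, map_neg]

end twist

end Pool.Agent.SmithE
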