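import Pool.Agent.Lib.SM.E.LDivB
import Pool.Agent.Lib.SM.E.LDivC
import Pool.Agent.Lib.SM.E.Act
import Pool.Agent.Lib.SM.E.TwistIso
import Pool.Agent.Lib.SmD.Sqrt

/-!
SMITH, block E6: points of `E(Ω)` fixed by a decomposition group are sums of points of 2-power
order and of multiples of `2 ^ j`; a coboundary `s Q - Q` on a decomposition group with values in
`E[2 ^ j]` is the coboundary of a point of 2-power order (also for the quadratic twists).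
-/

set_option autoImplicit false

namespace Pool.Agent.SmithE

open WeierstrassCurve Pool.Agent.Lib.SmD

variable {K Ω : Type} [Field K] [Field Ω] [Algebra K Ω] {w : ValuationSubring Ω} {π : K}
  {e₁ e₂ e₃ : K}

/-- square roots of elements `≡ 1` -/
private theorem e6_sqrt [IsSepClosed Ω] (h2 : w.valuation 2 = 1) {x : Ω}
    (hx : w.valuation (x - 1) < 1) (hfix : ∀ s ∈ dec K w, s x = x) :
    ∃ h : Ω, h ^ 2 = x ∧ w.valuation (h - 1) < 1 ∧ ∀ s ∈ dec K w, s h = h := by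
  obtain ⟨y, hy⟩ := exists_sqrt (two_ne_zero_Om h2) x
  have h4 : w.valuation (y - 1) * w.valuation (-y - 1) < 1 := by
    rw [← map_mul]
    have : (y - 1) * (-y - 1) = -(x - 1) := by rw [← hy]; ring
    rw [this, Valuation.map_neg]
    exact hx
  have h5 : w.valuation (y - 1) < 1 ∨ w.valuation (-y - 1) < 1 := by
    by_contra hc
    push Not at hc
    exact absurd h4 (not_lt.mpr (one_le_mul_of_one_le_of_one_le hc.1 hc.2))
  rcases h5 with h6 | h6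
  · exact ⟨y, hy, h6, fun s hs => sqrt_fix_dec h2 hs hx (hfix s hs) hy⟩
  · have hy' : (-y) ^ 2 = x := by rw [neg_sq, hy]
    exact ⟨-y, hy', h6, fun s hs => sqrt_fix_dec h2 hs hx (hfix s hs) hy'⟩

variable [DecidableEq Ω]

/-- E6, divisibility form -/
theorem e6_div [IsGalois K Ω] [IsSepClosed Ω] (h : LocHyp K w π)
    (hdisc : ∀ x : Ω, x ≠ 0 → (∀ s ∈ dec K w, s x = x) →
      ∃ n : ℤ, w.valuation x = w.valuation (algebraMap K Ω π) ^ n)
    (h12 : e₁ ≠ e₂) (h13 : e₁ ≠ e₃) (h23 : e₂ ≠ e₃) (P : Pt Ω e₁ e₂ e₃)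
    (hP : ∀ s ∈ dec K w, s • P = P) (j : ℕ) :
    ∃ (t P₁ : Pt Ω e₁ e₂ e₃) (a : ℕ), (2 : ℕ) ^ a • t = 0 ∧ P = t + (2 : ℕ) ^ j • P₁ ∧
      ∀ s ∈ dec K w, s • P₁ = P₁ := by
  set L : IntermediateField K Ω := IntermediateField.fixedField (dec K w) with hL
  have hLmem : ∀ x : Ω, x ∈ L ↔ ∀ s ∈ dec K w, s x = x := fun x =>
    IntermediateField.mem_fixedField_iff _ _
  let v : Valuation L w.ValueGroup := w.valuation.comap (algebraMap L Ω)
  have hv : ∀ x : L, v x = w.valuation (x : Ω) := fun x => rfl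
  let ι : L →ₐ[K] Ω := L.val
  -- the local theorem over `L`
  have key : ∀ Q : (WeierstrassCurve.Affine.baseChange (crv e₁ e₂ e₃) L).Point,
      ∃ (t P₁ : (WeierstrassCurve.Affine.baseChange (crv e₁ e₂ e₃) L).Point) (a : ℕ),
        (2 : ℕ) ^ a • t = 0 ∧ Q = t + (2 : ℕ) ^ j • P₁ := by
    have gen : ∀ (W : WeierstrassCurve.Affine L) (f₁ f₂ f₃ : L) (_ : W = crv f₁ f₂ f₃)
        (_ : f₁ ≠ f₂) (_ : f₁ ≠ f₃) (_ : f₂ ≠ f₃) (Q : W.Point),
        ∃ (t P₁ : W.Point) (a : ℕ), (2 : ℕ) ^ a • t = 0 ∧ Q = t + (2 : ℕ) ^ j • P₁ := by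
      intro W f₁ f₂ f₃ hW k12 k13 k23 Q
      subst hW
      refine ldiv_local v ?_ ?_ (π := algebraMap K L π) ?_ ?_ ?_ k12 k13 k23 Q j
      · exact h.two
      · intro x hx
        have hx' : w.valuation ((x : Ω) - 1) < 1 := hx
        obtain ⟨y, hy1, hy2, hy3⟩ := e6_sqrt h.two hx' ((hLmem _).mp x.2)
        exact ⟨⟨y, (hLmem _).mpr hy3⟩, Subtype.ext hy1, hy2⟩
      · rw [Ne, map_eq_zero_iff _ (algebraMap K L).injective]
        exact h.pi_ne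
      · exact h.pi_lt
      · intro t ht
        have ht' : (t : Ω) ≠ 0 := fun h0 => ht (Subtype.ext h0)
        obtain ⟨F, hF⟩ := ldiv_fin h hdisc ht' ((hLmem _).mp t.2)
        refine ⟨F.image (algebraMap K L), fun x hx => ?_⟩
        obtain ⟨f, hf, hxf⟩ := hF (x : Ω) ((hLmem _).mp x.2) hx
        exact ⟨algebraMap K L f, Finset.mem_image_of_mem _ hf, hxf⟩
    intro Q
    exact gen _ (algebraMap K L e₁) (algebraMap K L e₂) (algebraMap K L e₃)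
      (crv_map e₁ e₂ e₃ (algebraMap K L)) (fun h0 => h12 ((algebraMap K L).injective h0))
      (fun h0 => h13 ((algebraMap K L).injective h0))
      (fun h0 => h23 ((algebraMap K L).injective h0)) Q
  -- descend `P`
  let m : (WeierstrassCurve.Affine.baseChange (crv e₁ e₂ e₃) L).Point →+ Pt Ω e₁ e₂ e₃ :=
    WeierstrassCurve.Affine.Point.map (W' := crv e₁ e₂ e₃) ι
  have hmfix : ∀ (Q : (WeierstrassCurve.Affine.baseChange (crv e₁ e₂ e₃) L).Point),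
      ∀ s ∈ dec K w, s • m Q = m Q := by
    intro Q s hs
    rcases Q with _ | ⟨x, y, hn⟩
    · rfl
    · exact (smul_some_eq_iff (x := ι x) (y := ι y) s _).mpr
        ⟨(hLmem _).mp x.2 s hs, (hLmem _).mp y.2 s hs⟩
  have hPL : ∃ Q, m Q = P := by
    rcases P with _ | ⟨x, y, hn⟩
    · exact ⟨0, rfl⟩
    · have hxL : x ∈ L := (hLmem x).mpr fun s hs => ((smul_some_eq_iff s hn).mp (hP s hs)).1
      have hyL : y ∈ L := (hLmem y).mpr fun s hs => ((smul_some_eq_iff s hn).mp (hP s hs)).2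
      exact ⟨.some (⟨x, hxL⟩ : L) (⟨y, hyL⟩ : L)
        ((WeierstrassCurve.Affine.baseChange_nonsingular (crv e₁ e₂ e₃) (f := ι)
          ι.toRingHom.injective _ _).mp hn), rfl⟩
  obtain ⟨Q, rfl⟩ := hPL
  obtain ⟨t, P₁, a, h1, h3⟩ := key Q
  refine ⟨m t, m P₁, a, ?_, ?_, fun s hs => hmfix P₁ s hs⟩
  · rw [← map_nsmul, h1, map_zero]
  · rw [← map_nsmul, ← map_add, ← h3]

/-- E6: a coboundary on a decomposition group with values in `E[2 ^ j]` is the coboundary of a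
point of 2-power order -/
theorem e6 [IsGalois K Ω] [IsSepClosed Ω] (h : LocHyp K w π)
    (hdisc : ∀ x : Ω, x ≠ 0 → (∀ s ∈ dec K w, s x = x) →
      ∃ n : ℤ, w.valuation x = w.valuation (algebraMap K Ω π) ^ n)
    (h12 : e₁ ≠ e₂) (h13 : e₁ ≠ e₃) (h23 : e₂ ≠ e₃) (Q : Pt Ω e₁ e₂ e₃) (j : ℕ)
    (hQ : ∀ s ∈ dec K w, (2 : ℕ) ^ j • (s • Q - Q) = 0) :
    ∃ Q' ∈ VV Ω e₁ e₂ e₃, ∀ s ∈ dec K w, s • Q' - Q' = s • Q - Q := by
  obtain ⟨t, P₁, a, h1, h3, h4⟩ := e6_div h hdisc h12 h13 h23 ((2 : ℕ) ^ j • Q) (fun s hs => by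
    have := hQ s hs
    rwa [smul_sub, sub_eq_zero, smul_comm] at this) j
  refine ⟨Q - P₁, ⟨j + a, ?_⟩, fun s hs => ?_⟩
  · rw [pow_add, mul_comm, mul_smul, smul_sub, h3, add_sub_cancel_right, h1]
  · rw [smul_sub, h4 s hs]
    abel

/-- E6 for the twist by `D`: `ε s` is the sign with `s d = ε s d`, `d ^ 2 = D` -/
theorem e6_twist [IsGalois K Ω] [IsSepClosed Ω] (h : LocHyp K w π)
    (hdisc : ∀ x : Ω, x ≠ 0 → (∀ s ∈ dec K w, s x = x) →
      ∃ n : ℤ, w.valuation x = w.valuation (algebraMap K Ω π) ^ n)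
    (h12 : e₁ ≠ e₂) (h13 : e₁ ≠ e₃) (h23 : e₂ ≠ e₃) {D : K} (hD : D ≠ 0) {d : Ω}
    (hd : d ^ 2 = algebraMap K Ω D) (ε : (Ω ≃ₐ[K] Ω) → ℤˣ)
    (hε : ∀ s, s d = ((ε s : ℤ) : Ω) * d) (Q : Pt Ω e₁ e₂ e₃) (j : ℕ)
    (hQ : ∀ s ∈ dec K w, (2 : ℕ) ^ j • ((ε s : ℤ) • (s • Q) - Q) = 0) :
    ∃ Q' ∈ VV Ω e₁ e₂ e₃, ∀ s ∈ dec K w,
      (ε s : ℤ) • (s • Q') - Q' = (ε s : ℤ) • (s • Q) - Q := by
  set φ := twistEquiv (Ω := Ω) e₁ e₂ e₃ hD hd with hφ
  have hs : ∀ (s : Ω ≃ₐ[K] Ω) (R : Pt Ω e₁ e₂ e₃), s • φ R - φ R = φ ((ε s : ℤ) • (s • R) - R) := by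
    intro s R
    rw [map_sub, ← smul_twistEquiv hD hd (hε s) R]
  obtain ⟨Q', hQ', h4⟩ := e6 h hdisc (fun h0 => h12 (mul_left_cancel₀ hD h0))
    (fun h0 => h13 (mul_left_cancel₀ hD h0)) (fun h0 => h23 (mul_left_cancel₀ hD h0)) (φ Q) j
    (fun s hs' => by rw [hs, ← map_nsmul, hQ s hs', map_zero])
  obtain ⟨n, hn⟩ := hQ'
  refine ⟨φ.symm Q', ⟨n, ?_⟩, fun s hs' => ?_⟩
  · rw [← map_nsmul, hn, map_zero]
  · apply φ.injective
    rw [← hs, ← hs, φ.apply_symm_apply]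
    exact h4 s hs'

end Pool.Agent.SmithE
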