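import Mathlib

/-!
SMITH, block E: the curve `y ^ 2 = (x - e₁) (x - e₂) (x - e₃)` over a field of characteristic
`≠ 2`; halving of points, two-torsion, and over a separably closed field: `E(F)` is 2-divisible and
`E(F)[2 ^ n]` has `4 ^ n` elements.
-/

set_option autoImplicit false

namespace Pool.Agent.SmithE

open WeierstrassCurve

/-- the curve `y ^ 2 = (x - e₁) (x - e₂) (x - e₃)` -/
def crv {R : Type} [CommRing R] (e₁ e₂ e₃ : R) : WeierstrassCurve R :=
  ⟨0, -(e₁ + e₂ + e₃), 0, e₁ * e₂ + e₁ * e₃ + e₂ * e₃, -(e₁ * e₂ * e₃)⟩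

section basic

variable {R : Type} [CommRing R] (e₁ e₂ e₃ : R)

@[simp] lemma crv_a₁ : (crv e₁ e₂ e₃).a₁ = 0 := rfl
@[simp] lemma crv_a₃ : (crv e₁ e₂ e₃).a₃ = 0 := rfl
lemma crv_a₂ : (crv e₁ e₂ e₃).a₂ = -(e₁ + e₂ + e₃) := rfl
lemma crv_a₄ : (crv e₁ e₂ e₃).a₄ = e₁ * e₂ + e₁ * e₃ + e₂ * e₃ := rfl
lemma crv_a₆ : (crv e₁ e₂ e₃).a₆ = -(e₁ * e₂ * e₃) := rfl

lemma crv_map {S : Type} [CommRing S] (f : R →+* S) :
    (crv e₁ e₂ e₃).map f = crv (f e₁) (f e₂) (f e₃) := by
  ext <;> simp [crv, WeierstrassCurve.map]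

variable {e₁ e₂ e₃}

lemma equation_crv {x y : R} : (crv e₁ e₂ e₃).toAffine.Equation x y ↔
    y ^ 2 = (x - e₁) * (x - e₂) * (x - e₃) := by
  rw [WeierstrassCurve.Affine.equation_iff, crv_a₁, crv_a₂, crv_a₃, crv_a₄, crv_a₆]
  constructor <;> intro h <;> linear_combination h

lemma negY_crv (x y : R) : (crv e₁ e₂ e₃).toAffine.negY x y = -y := by
  rw [WeierstrassCurve.Affine.negY, crv_a₁, crv_a₃]
  ring

end basic

section field

variable {F : Type} [Field F] {e₁ e₂ e₃ : F}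

lemma nonsingular_crv_of_ne (h2 : (2 : F) ≠ 0) {x y : F}
    (h : y ^ 2 = (x - e₁) * (x - e₂) * (x - e₃)) (hy : y ≠ 0) :
    (crv e₁ e₂ e₃).toAffine.Nonsingular x y := by
  rw [WeierstrassCurve.Affine.nonsingular_iff]
  refine ⟨equation_crv.mpr h, Or.inr ?_⟩
  change y ≠ (crv e₁ e₂ e₃).toAffine.negY x y
  rw [negY_crv]
  intro h1
  have h3 : 2 * y = 0 := by linear_combination h1
  exact hy ((mul_eq_zero.mp h3).resolve_left h2)

lemma nonsingular_T1 (h12 : e₁ ≠ e₂) (h13 : e₁ ≠ e₃) :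
    (crv e₁ e₂ e₃).toAffine.Nonsingular e₁ 0 := by
  rw [WeierstrassCurve.Affine.nonsingular_iff]
  refine ⟨equation_crv.mpr (by ring), Or.inl ?_⟩
  rw [crv_a₁, crv_a₂, crv_a₄]
  intro h
  have h' : (e₁ - e₂) * (e₁ - e₃) = 0 := by linear_combination -h
  rcases mul_eq_zero.mp h' with h4 | h4
  · exact h12 (sub_eq_zero.mp h4)
  · exact h13 (sub_eq_zero.mp h4)

lemma nonsingular_T2 (h12 : e₁ ≠ e₂) (h23 : e₂ ≠ e₃) :
    (crv e₁ e₂ e₃).toAffine.Nonsingular e₂ 0 := by
  rw [WeierstrassCurve.Affine.nonsingular_iff]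
  refine ⟨equation_crv.mpr (by ring), Or.inl ?_⟩
  rw [crv_a₁, crv_a₂, crv_a₄]
  intro h
  have h' : (e₁ - e₂) * (e₂ - e₃) = 0 := by linear_combination h
  rcases mul_eq_zero.mp h' with h4 | h4
  · exact h12 (sub_eq_zero.mp h4)
  · exact h23 (sub_eq_zero.mp h4)

lemma nonsingular_T3 (h13 : e₁ ≠ e₃) (h23 : e₂ ≠ e₃) :
    (crv e₁ e₂ e₃).toAffine.Nonsingular e₃ 0 := by
  rw [WeierstrassCurve.Affine.nonsingular_iff]
  refine ⟨equation_crv.mpr (by ring), Or.inl ?_⟩
  rw [crv_a₁, crv_a₂, crv_a₄]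
  intro h
  have h' : (e₁ - e₃) * (e₂ - e₃) = 0 := by linear_combination -h
  rcases mul_eq_zero.mp h' with h4 | h4
  · exact h13 (sub_eq_zero.mp h4)
  · exact h23 (sub_eq_zero.mp h4)

variable [DecidableEq F]

/-- halving a point with `x - e₁`, `x - e₂`, `x - e₃` squares -/
theorem exists_half (h2 : (2 : F) ≠ 0) (h12 : e₁ ≠ e₂) (h13 : e₁ ≠ e₃) (h23 : e₂ ≠ e₃)
    {x y : F} (h : (crv e₁ e₂ e₃).toAffine.Nonsingular x y) (hr1 : IsSquare (x - e₁))
    (hr2 : IsSquare (x - e₂)) (hr3 : IsSquare (x - e₃)) :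
    ∃ Q : (crv e₁ e₂ e₃).toAffine.Point, WeierstrassCurve.Affine.Point.some x y h = Q + Q := by
  obtain ⟨r₁, hr1⟩ := hr1
  obtain ⟨r₂, hr2⟩ := hr2
  obtain ⟨r₃, hr3⟩ := hr3
  rw [← pow_two] at hr1 hr2 hr3
  obtain ⟨s, hs, hy⟩ : ∃ s : F, s ^ 2 = r₁ ^ 2 ∧ y = s * r₂ * r₃ := by
    have hE := equation_crv.mp h.1
    have h5 : y ^ 2 = (r₁ * r₂ * r₃) ^ 2 := by
      rw [mul_pow, mul_pow, ← hr1, ← hr2, ← hr3]
      linear_combination hE
    rcases sq_eq_sq_iff_eq_or_eq_neg.mp h5 with h6 | h6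
    · exact ⟨r₁, rfl, h6⟩
    · exact ⟨-r₁, by ring, by rw [h6]; ring⟩
  have hs1 : x - e₁ = s ^ 2 := by rw [hs, hr1]
  have n12 : s + r₂ ≠ 0 := by
    intro h0
    apply h12
    have : s = -r₂ := by linear_combination h0
    rw [this] at hs1
    linear_combination -hs1 + hr2
  have n13 : s + r₃ ≠ 0 := by
    intro h0
    apply h13
    have : s = -r₃ := by linear_combination h0
    rw [this] at hs1
    linear_combination -hs1 + hr3
  have n23 : r₂ + r₃ ≠ 0 := by
    intro h0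
    apply h23
    have : r₂ = -r₃ := by linear_combination h0
    rw [this] at hr2
    linear_combination -hr2 + hr3
  set X := x + s * r₂ + s * r₃ + r₂ * r₃ with hX
  set Y := (s + r₂) * (s + r₃) * (r₂ + r₃) with hY
  have hY0 : Y ≠ 0 := mul_ne_zero (mul_ne_zero n12 n13) n23
  have hX1 : X - e₁ = (s + r₂) * (s + r₃) := by rw [hX]; linear_combination hs1
  have hX2 : X - e₂ = (s + r₂) * (r₂ + r₃) := by rw [hX]; linear_combination hr2
  have hX3 : X - e₃ = (s + r₃) * (r₂ + r₃) := by rw [hX]; linear_combination hr3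
  have hEQ : (crv e₁ e₂ e₃).toAffine.Equation X Y := by
    rw [equation_crv, hX1, hX2, hX3, hY]
    ring
  have hYneg : Y ≠ (crv e₁ e₂ e₃).toAffine.negY X Y := by
    rw [negY_crv]
    intro h5
    have h6 : 2 * Y = 0 := by linear_combination h5
    exact hY0 ((mul_eq_zero.mp h6).resolve_left h2)
  have hNS : (crv e₁ e₂ e₃).toAffine.Nonsingular X Y := by
    rw [WeierstrassCurve.Affine.nonsingular_iff]
    exact ⟨hEQ, Or.inr hYneg⟩
  have hsl : (crv e₁ e₂ e₃).toAffine.slope X X Y Y = s + r₂ + r₃ := by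
    rw [WeierstrassCurve.Affine.slope_of_Y_ne rfl hYneg, negY_crv, crv_a₁, crv_a₂, crv_a₄]
    have h5 : (Y - -Y) = 2 * Y := by ring
    rw [h5, div_eq_iff (mul_ne_zero h2 hY0)]
    have h6 : (X - e₁) * (X - e₂) + (X - e₁) * (X - e₃) + (X - e₂) * (X - e₃) =
        2 * (s + r₂ + r₃) * Y := by
      rw [hX1, hX2, hX3, hY]; ring
    linear_combination h6
  have hx2 : (crv e₁ e₂ e₃).toAffine.addX X X (s + r₂ + r₃) = x := by
    rw [WeierstrassCurve.Affine.addX, crv_a₁, crv_a₂, hX]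
    linear_combination -hs1 - hr2 - hr3
  have hy2 : (crv e₁ e₂ e₃).toAffine.addY X X Y (s + r₂ + r₃) = y := by
    rw [WeierstrassCurve.Affine.addY, WeierstrassCurve.Affine.negAddY, hx2, negY_crv, hy, hX, hY]
    ring
  refine ⟨.some X Y hNS, ?_⟩
  rw [WeierstrassCurve.Affine.Point.add_self_of_Y_ne hYneg]
  rw [WeierstrassCurve.Affine.Point.some.injEq]
  rw [hsl]
  exact ⟨hx2.symm, hy2.symm⟩

/-- the points of order 2 -/
theorem add_self_eq_zero_iff (h2 : (2 : F) ≠ 0) (h12 : e₁ ≠ e₂) (h13 : e₁ ≠ e₃) (h23 : e₂ ≠ e₃)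
    (P : (crv e₁ e₂ e₃).toAffine.Point) :
    P + P = 0 ↔ P = 0 ∨ P = .some e₁ 0 (nonsingular_T1 h12 h13) ∨
      P = .some e₂ 0 (nonsingular_T2 h12 h23) ∨ P = .some e₃ 0 (nonsingular_T3 h13 h23) := by
  rw [add_eq_zero_iff_eq_neg]
  rcases P with _ | ⟨x, y, h⟩
  · constructor
    · intro _
      exact Or.inl rfl
    · intro _
      rfl
  · rw [WeierstrassCurve.Affine.Point.neg_some]
    simp only [WeierstrassCurve.Affine.Point.some.injEq, negY_crv, true_and, reduceCtorEq,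
      false_or]
    constructor
    · intro h1
      have hy : y = 0 := by
        have h3 : 2 * y = 0 := by linear_combination h1
        exact (mul_eq_zero.mp h3).resolve_left h2
      have hE := equation_crv.mp h.1
      rw [hy] at hE
      have h4 : (x - e₁) * (x - e₂) * (x - e₃) = 0 := by rw [← hE]; ring
      rcases mul_eq_zero.mp h4 with h5 | h5
      · rcases mul_eq_zero.mp h5 with h6 | h6
        · exact Or.inl ⟨sub_eq_zero.mp h6, hy⟩
        · exact Or.inr (Or.inl ⟨sub_eq_zero.mp h6, hy⟩)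
      · exact Or.inr (Or.inr ⟨sub_eq_zero.mp h5, hy⟩)
    · rintro (⟨-, h1⟩ | ⟨-, h1⟩ | ⟨-, h1⟩)
      all_goals rw [h1, neg_zero]

theorem card_two_torsion (h2 : (2 : F) ≠ 0) (h12 : e₁ ≠ e₂) (h13 : e₁ ≠ e₃) (h23 : e₂ ≠ e₃) :
    Nat.card {P : (crv e₁ e₂ e₃).toAffine.Point // P + P = 0} = 4 := by
  have hset : {P : (crv e₁ e₂ e₃).toAffine.Point | P + P = 0} =
      (({0, .some e₁ 0 (nonsingular_T1 h12 h13), .some e₂ 0 (nonsingular_T2 h12 h23),
        .some e₃ 0 (nonsingular_T3 h13 h23)} : Finset (crv e₁ e₂ e₃).toAffine.Point) :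
        Set (crv e₁ e₂ e₃).toAffine.Point) := by
    ext P
    simp only [Set.mem_ofPred_eq, Finset.coe_insert, Finset.coe_singleton, Set.mem_insert_iff,
      Set.mem_singleton_iff]
    exact add_self_eq_zero_iff h2 h12 h13 h23 P
  change Nat.card ({P : (crv e₁ e₂ e₃).toAffine.Point | P + P = 0} : Set _) = 4
  rw [hset, Nat.card_eq_card_toFinset, Finset.toFinset_coe]
  rw [Finset.card_insert_of_notMem, Finset.card_insert_of_notMem, Finset.card_insert_of_notMem,
    Finset.card_singleton]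
  · simp only [Finset.mem_singleton, WeierstrassCurve.Affine.Point.some.injEq, and_true]
    exact h23
  · simp only [Finset.mem_insert, Finset.mem_singleton,
      WeierstrassCurve.Affine.Point.some.injEq, and_true, not_or]
    exact ⟨h12, h13⟩
  · simp only [Finset.mem_insert, Finset.mem_singleton, not_or]
    exact ⟨(WeierstrassCurve.Affine.Point.some_ne_zero _).symm,
      (WeierstrassCurve.Affine.Point.some_ne_zero _).symm,
      (WeierstrassCurve.Affine.Point.some_ne_zero _).symm⟩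

/-- over a separably closed field every point can be halved -/
theorem exists_half_sepClosed [IsSepClosed F] (h2 : (2 : F) ≠ 0) (h12 : e₁ ≠ e₂) (h13 : e₁ ≠ e₃)
    (h23 : e₂ ≠ e₃) (P : (crv e₁ e₂ e₃).toAffine.Point) : ∃ Q, P = Q + Q := by
  have : NeZero (2 : F) := ⟨h2⟩
  rcases P with _ | ⟨x, y, h⟩
  · exact ⟨0, (add_zero _).symm⟩
  · exact exists_half h2 h12 h13 h23 h (IsSepClosed.exists_eq_mul_self _)
      (IsSepClosed.exists_eq_mul_self _) (IsSepClosed.exists_eq_mul_self _)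

end field

/-- a 2-divisible abelian group with four elements of order dividing 2 -/
theorem card_two_pow_torsion {A : Type} [AddCommGroup A] (hd : ∀ P : A, ∃ Q, P = Q + Q)
    (h4 : Nat.card {P : A // P + P = 0} = 4) (n : ℕ) :
    Nat.card {P : A // (2 ^ n) • P = 0} = 4 ^ n := by
  induction n with
  | zero =>
    have : Nat.card {P : A // (2 ^ 0) • P = 0} = Nat.card {P : A // P = 0} := by
      simp only [pow_zero, one_smul]
    rw [this, pow_zero]
    exact Nat.card_unique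
  | succ n ih =>
    have : Finite {P : A // P + P = 0} := Nat.finite_of_card_ne_zero (by rw [h4]; norm_num)
    have : Finite {P : A // (2 ^ n) • P = 0} := by
      refine Nat.finite_of_card_ne_zero ?_
      rw [ih]
      positivity
    choose hf hhf using hd
    have e : {P : A // (2 ^ (n + 1)) • P = 0} ≃
        {P : A // (2 ^ n) • P = 0} × {P : A // P + P = 0} :=
      { toFun := fun P => (⟨P.1 + P.1, by
          obtain ⟨P, hP⟩ := P
          rw [pow_succ, mul_smul, two_smul] at hP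
          exact hP⟩, ⟨P.1 - hf (P.1 + P.1), by
          have := hhf (P.1 + P.1)
          rw [sub_add_sub_comm, ← this, sub_self]⟩)
        invFun := fun q => ⟨hf q.1.1 + q.2.1, by
          obtain ⟨⟨a, ha⟩, ⟨b, hb⟩⟩ := q
          have h1 := hhf a
          rw [pow_succ, mul_smul, two_smul, add_add_add_comm, ← h1, hb, add_zero]
          exact ha⟩
        left_inv := fun P => by
          ext
          simp
        right_inv := fun q => by
          have h1 := hhf q.1.1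
          have h3 := q.2.2
          have h6 : hf q.1.1 + q.2.1 + (hf q.1.1 + q.2.1) = q.1.1 := by
            rw [add_add_add_comm, ← h1, h3, add_zero]
          ext
          · exact h6
          · simp only [h6]
            abel }
    rw [Nat.card_congr e, Nat.card_prod, ih, h4, pow_succ]

/-- over a separably closed field `E[2 ^ n]` has `4 ^ n` elements -/
theorem card_torsion_sepClosed {F : Type} [Field F] [DecidableEq F] {e₁ e₂ e₃ : F} [IsSepClosed F]
    (h2 : (2 : F) ≠ 0) (h12 : e₁ ≠ e₂) (h13 : e₁ ≠ e₃) (h23 : e₂ ≠ e₃) (n : ℕ) :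
    Nat.card {P : (crv e₁ e₂ e₃).toAffine.Point // (2 ^ n) • P = 0} = 4 ^ n :=
  card_two_pow_torsion (exists_half_sepClosed h2 h12 h13 h23)
    (card_two_torsion h2 h12 h13 h23) n

end Pool.Agent.SmithE
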