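import Pool.Agent.Lib.SM.E.RFun
import Pool.Agent.Lib.SM.E.Act
import Pool.Agent.Lib.SmD.Defs

/-!
SMITH, block E, part E2: at a good place the inertia group fixes the 2-power torsion of
`y ^ 2 = (x - e₁) (x - e₂) (x - e₃)`.
-/

set_option autoImplicit false

namespace Pool.Agent.SmithE

open WeierstrassCurve WeierstrassCurve.Affine
open Pool.Agent.Lib.SmD

section val

variable {K Om : Type} [Field K] [Field Om] [Algebra K Om] {w : ValuationSubring Om}

/-- a unit whose square is fixed by an element of the inertia group is fixed -/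
theorem iner_fix_of_sq (h2 : w.valuation 2 = 1) {s : Om ≃ₐ[K] Om} (hs : s ∈ iner K w) {r : Om}
    (hr : w.valuation r = 1) (hf : s (r ^ 2) = r ^ 2) : s r = r := by
  rw [map_pow] at hf
  rcases sq_eq_sq_iff_eq_or_eq_neg.mp hf with h | h
  · exact h
  · exfalso
    have h1 := hs.2 r ((ValuationSubring.valuation_le_one_iff w r).mp hr.le)
    have h3 : s r - r = -(2 * r) := by rw [h]; ring
    rw [h3, Valuation.map_neg, map_mul, h2, hr, one_mul] at h1
    exact lt_irrefl _ h1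

/-- three square roots of `x - e₁, x - e₂, x - e₃`, `x` fixed by an inertia element: all are
fixed if their product is -/
theorem roots_fix (h2 : w.valuation 2 = 1) {s : Om ≃ₐ[K] Om} (hs : s ∈ iner K w)
    {e₁ e₂ e₃ x r₁ r₂ r₃ : Om} (he₁ : s e₁ = e₁) (he₂ : s e₂ = e₂) (he₃ : s e₃ = e₃)
    (v₁ : w.valuation e₁ ≤ 1) (v₂ : w.valuation e₂ ≤ 1) (v₃ : w.valuation e₃ ≤ 1)
    (v₁₂ : w.valuation (e₁ - e₂) = 1) (v₁₃ : w.valuation (e₁ - e₃) = 1)
    (v₂₃ : w.valuation (e₂ - e₃) = 1) (hx : s x = x) (h₁ : x - e₁ = r₁ ^ 2)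
    (h₂ : x - e₂ = r₂ ^ 2) (h₃ : x - e₃ = r₃ ^ 2) (hp : s (r₁ * r₂ * r₃) = r₁ * r₂ * r₃) :
    s r₁ = r₁ ∧ s r₂ = r₂ ∧ s r₃ = r₃ := by
  have q₁ : s (r₁ ^ 2) = r₁ ^ 2 := by rw [← h₁, map_sub, hx, he₁]
  have q₂ : s (r₂ ^ 2) = r₂ ^ 2 := by rw [← h₂, map_sub, hx, he₂]
  have q₃ : s (r₃ ^ 2) = r₃ ^ 2 := by rw [← h₃, map_sub, hx, he₃]
  have sq1 : ∀ {z : Om}, w.valuation (z ^ 2) = 1 → w.valuation z = 1 := by
    intro z hz
    rw [map_pow] at hz
    exact (pow_eq_one_iff_of_nonneg (zero_le) two_ne_zero).mp hz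
  rcases le_or_gt (w.valuation x) 1 with hv | hv
  · -- `x` integral
    have le1 : ∀ {e : Om}, w.valuation e ≤ 1 → w.valuation (x - e) ≤ 1 := fun he =>
      (w.valuation.map_sub _ _).trans (max_le hv he)
    -- among two of them one is a unit
    have two : ∀ {e e' : Om}, w.valuation (e - e') = 1 → w.valuation e ≤ 1 → w.valuation e' ≤ 1 →
        w.valuation (x - e) < 1 → w.valuation (x - e') = 1 := by
      intro e e' h he he' hlt
      refine le_antisymm (le1 he') (not_lt.mp fun hlt' => ?_)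
      have : e - e' = (x - e') - (x - e) := by ring
      rw [this] at h
      exact absurd ((w.valuation.map_sub _ _).trans_lt (max_lt hlt' hlt)) (by rw [h]; exact lt_irrefl _)
    have fixu : ∀ {r : Om}, w.valuation (r ^ 2) = 1 → s (r ^ 2) = r ^ 2 → s r = r ∧ r ≠ 0 := by
      intro r hr hf
      refine ⟨iner_fix_of_sq h2 hs (sq1 hr) hf, ?_⟩
      rintro rfl
      simp at hr
    rcases lt_or_eq_of_le (le1 v₁) with l₁ | l₁
    · have m₂ := two v₁₂ v₁ v₂ l₁
      have m₃ := two v₁₃ v₁ v₃ l₁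
      rw [h₂] at m₂
      rw [h₃] at m₃
      obtain ⟨f₂, n₂⟩ := fixu m₂ q₂
      obtain ⟨f₃, n₃⟩ := fixu m₃ q₃
      refine ⟨?_, f₂, f₃⟩
      rw [map_mul, map_mul, f₂, f₃] at hp
      exact mul_right_cancel₀ n₂ (mul_right_cancel₀ n₃ hp)
    · rw [h₁] at l₁
      obtain ⟨f₁, n₁⟩ := fixu l₁ q₁
      rcases lt_or_eq_of_le (le1 v₂) with l₂ | l₂
      · have m₃ := two v₂₃ v₂ v₃ l₂
        rw [h₃] at m₃
        obtain ⟨f₃, n₃⟩ := fixu m₃ q₃
        refine ⟨f₁, ?_, f₃⟩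
        rw [map_mul, map_mul, f₁, f₃] at hp
        exact mul_left_cancel₀ n₁ (mul_right_cancel₀ n₃ hp)
      · rw [h₂] at l₂
        obtain ⟨f₂, n₂⟩ := fixu l₂ q₂
        refine ⟨f₁, f₂, ?_⟩
        rw [map_mul, map_mul, f₁, f₂] at hp
        exact mul_left_cancel₀ (mul_ne_zero n₁ n₂) hp
  · -- `x` not integral
    have ev : ∀ {e : Om}, w.valuation e ≤ 1 → w.valuation (x - e) = w.valuation x := fun he =>
      Valuation.map_sub_eq_of_lt_left _ (he.trans_lt hv)
    have x0 : w.valuation x ≠ 0 := (zero_lt_one.trans hv).ne'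
    have n₁ : r₁ ≠ 0 := by
      rintro rfl
      have := ev v₁
      rw [h₁] at this
      simp at this
      exact x0 (by simpa using this.symm)
    have fixq : ∀ {e r : Om}, w.valuation e ≤ 1 → x - e = r ^ 2 → s (r ^ 2) = r ^ 2 →
        s (r / r₁) = r / r₁ := by
      intro e r he hr hf
      apply iner_fix_of_sq h2 hs
      · apply sq1
        rw [div_pow, ← hr, ← h₁, map_div₀, ev he, ev v₁, div_self x0]
      · rw [div_pow, map_div₀, hf, q₁]
    have f₂ := fixq v₂ h₂ q₂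
    have f₃ := fixq v₃ h₃ q₃
    -- r₁ ^ 3 fixed
    have n₂ : r₂ ≠ 0 := by
      rintro rfl
      have := ev v₂
      rw [h₂] at this
      exact x0 (by simpa using this.symm)
    have n₃ : r₃ ≠ 0 := by
      rintro rfl
      have := ev v₃
      rw [h₃] at this
      exact x0 (by simpa using this.symm)
    have e1 : r₁ = (r₁ * r₂ * r₃) / (r₁ ^ 2 * (r₂ / r₁) * (r₃ / r₁)) := by
      field_simp
    have f₁ : s r₁ = r₁ := by
      conv_lhs => rw [e1]
      rw [map_div₀, hp, map_mul s (r₁ ^ 2 * (r₂ / r₁)), map_mul s (r₁ ^ 2), q₁, f₂, f₃, ← e1]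
    refine ⟨f₁, ?_, ?_⟩
    · rw [map_div₀, f₁] at f₂
      exact (div_left_inj' n₁).mp f₂
    · rw [map_div₀, f₁] at f₃
      exact (div_left_inj' n₁).mp f₃

end val

section main

variable {K Om : Type} [Field K] [Field Om] [Algebra K Om] [DecidableEq Om]
  {w : ValuationSubring Om} {e₁ e₂ e₃ : K}

/-- `R_a` and the Galois action -/
theorem Rf_smul (P : Pt Om e₁ e₂ e₃) (s : Om ≃ₐ[K] Om) (a b c : K) :
    Rf (algebraMap K Om a) (algebraMap K Om b) (algebraMap K Om c) (s • P) =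
      s (Rf (algebraMap K Om a) (algebraMap K Om b) (algebraMap K Om c) P) :=
  Rf_map (E := crv e₁ e₂ e₃) P (s : Om →ₐ[K] Om) (AlgHom.commutes _ a) (AlgHom.commutes _ b)
    (AlgHom.commutes _ c)

/-- points of order dividing 2 are fixed by all automorphisms -/
theorem fix_of_add_self (h2 : (2 : Om) ≠ 0) (s : Om ≃ₐ[K] Om) (P : Pt Om e₁ e₂ e₃)
    (hP : P + P = 0) : s • P = P := by
  have hW := baseChange_crv (Ω := Om) (e₁ := e₁) (e₂ := e₂) (e₃ := e₃)
  rcases P with _ | ⟨x, y, h⟩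
  · rfl
  · have hy : y = 0 := by
      by_contra hy
      obtain ⟨X, Y, h', h1, -⟩ := add_self_coord hW h2 h hy
      rw [hP] at h1
      exact WeierstrassCurve.Affine.Point.some_ne_zero _ h1.symm
    subst hy
    have he := eqn hW h
    have hx : s x = x := by
      have h0 : (x - algebraMap K Om e₁) * (x - algebraMap K Om e₂) * (x - algebraMap K Om e₃) =
        0 := by rw [← he]; ring
      rcases mul_eq_zero.mp h0 with h0 | h0
      · rcases mul_eq_zero.mp h0 with h0 | h0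
        · rw [sub_eq_zero.mp h0, AlgEquiv.commutes]
        · rw [sub_eq_zero.mp h0, AlgEquiv.commutes]
      · rw [sub_eq_zero.mp h0, AlgEquiv.commutes]
    exact (smul_some_eq_iff s h).mpr ⟨hx, map_zero s⟩

/-- **E2**: at a good place the inertia group fixes the 2-power torsion -/
theorem iner_fix_torsion (h2 : w.valuation 2 = 1)
    (v₁ : w.valuation (algebraMap K Om e₁) ≤ 1) (v₂ : w.valuation (algebraMap K Om e₂) ≤ 1)
    (v₃ : w.valuation (algebraMap K Om e₃) ≤ 1)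
    (v₁₂ : w.valuation (algebraMap K Om (e₁ - e₂)) = 1)
    (v₁₃ : w.valuation (algebraMap K Om (e₁ - e₃)) = 1)
    (v₂₃ : w.valuation (algebraMap K Om (e₂ - e₃)) = 1)
    {s : Om ≃ₐ[K] Om} (hs : s ∈ iner K w) (j : ℕ) :
    ∀ P : Pt Om e₁ e₂ e₃, (2 ^ j) • P = 0 → s • P = P := by
  have hW := baseChange_crv (Ω := Om) (e₁ := e₁) (e₂ := e₂) (e₃ := e₃)
  have h20 : (2 : Om) ≠ 0 := by
    intro h
    rw [h, map_zero] at h2
    exact zero_ne_one h2
  have ne : ∀ {a b : K}, w.valuation (algebraMap K Om (a - b)) = 1 → a ≠ b := by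
    rintro a b h rfl
    simp at h
  have n12 := ne v₁₂
  have n13 := ne v₁₃
  have n23 := ne v₂₃
  have inj := (algebraMap K Om).injective
  induction j with
  | zero =>
    intro P hP
    rw [pow_zero, one_smul] at hP
    rw [hP, smul_zero]
  | succ j ih =>
    intro P hP
    rw [pow_succ, mul_smul, two_smul] at hP
    have hQ := ih (P + P) hP
    by_cases hPP : P + P = 0
    · exact fix_of_add_self h20 _ P hPP
    obtain ⟨X, Y, h', h1, r₁, r₂, r₃⟩ := Rf_sq hW h20 hPP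
    have hY := eqn hW h'
    have hQ' := hQ
    rw [h1] at hQ
    obtain ⟨sX, sY⟩ := (smul_some_eq_iff s h').mp hQ
    rw [map_sub] at v₁₂ v₁₃ v₂₃
    have hp : s (Rf (algebraMap K Om e₁) (algebraMap K Om e₂) (algebraMap K Om e₃) P *
        Rf (algebraMap K Om e₂) (algebraMap K Om e₁) (algebraMap K Om e₃) P *
        Rf (algebraMap K Om e₃) (algebraMap K Om e₁) (algebraMap K Om e₂) P) =
        Rf (algebraMap K Om e₁) (algebraMap K Om e₂) (algebraMap K Om e₃) P *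
        Rf (algebraMap K Om e₂) (algebraMap K Om e₁) (algebraMap K Om e₃) P *
        Rf (algebraMap K Om e₃) (algebraMap K Om e₁) (algebraMap K Om e₂) P := by
      rw [r₁, r₂, r₃, ← mul_pow, ← mul_pow] at hY
      rcases sq_eq_sq_iff_eq_or_eq_neg.mp hY with h | h
      · rw [← h, sY]
      · have h5 := neg_eq_iff_eq_neg.mpr h
        rw [← h5, map_neg, sY]
    obtain ⟨f₁, f₂, f₃⟩ := roots_fix h2 hs (s.commutes e₁) (s.commutes e₂) (s.commutes e₃)
      v₁ v₂ v₃ v₁₂ v₁₃ v₂₃ sX r₁ r₂ r₃ hp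
    apply eq_of_Rf_eq hW h20 (inj.ne n12) (inj.ne n13) (inj.ne n23) hPP
    · rw [← smul_add, hQ']
    · rw [Rf_smul, f₁]
    · rw [Rf_smul, f₂]
    · rw [Rf_smul, f₃]

/-- **E2** for `V` -/
theorem iner_fix_VV (h2 : w.valuation 2 = 1)
    (v₁ : w.valuation (algebraMap K Om e₁) ≤ 1) (v₂ : w.valuation (algebraMap K Om e₂) ≤ 1)
    (v₃ : w.valuation (algebraMap K Om e₃) ≤ 1)
    (v₁₂ : w.valuation (algebraMap K Om (e₁ - e₂)) = 1)
    (v₁₃ : w.valuation (algebraMap K Om (e₁ - e₃)) = 1)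
    (v₂₃ : w.valuation (algebraMap K Om (e₂ - e₃)) = 1)
    {s : Om ≃ₐ[K] Om} (hs : s ∈ iner K w) (Q : VV Om e₁ e₂ e₃) : s • Q = Q := by
  obtain ⟨j, hj⟩ := Q.2
  exact Subtype.ext (iner_fix_torsion h2 v₁ v₂ v₃ v₁₂ v₁₃ v₂₃ hs j Q.1 hj)

end main

end Pool.Agent.SmithE
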