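import Pool.Agent.Lib.SM.E.TwD
import Pool.Agent.Lib.Sm.L.Vec

/-!
SMITH, block E, part E5: the formula for `κ` in the vocabulary of `Sm/L/Vec.lean`.
-/

set_option autoImplicit false

namespace Pool.Agent.SmithE

open Polynomial
open Pool.Agent.Sm (V1 TwData homJ kapJ chiJ)
open Pool.Agent.Lib.SmD

/-- The Kummer characters of polynomials. -/
noncomputable def chP {k : Type} [Field k] (Ω : Type) [Field Ω] [Algebra (RatFunc k) Ω]
    (f : k[X]) (s : Ω ≃ₐ[RatFunc k] Ω) : ZMod 2 :=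
  chi (RatFunc k) (algebraMap k[X] (RatFunc k) f) s

/-- **E5** for the twist by `D = ∏ p j`: if `2 z = w` then the twisted coboundary of `z` is the
homomorphism coded by `kapJ w`. -/
theorem E5J {k : Type} [Field k] [Finite k] {α β : k[X]} {Ω : Type} [Field Ω]
    [Algebra (RatFunc k) Ω] [IsSepClosure (RatFunc k) Ω] [DecidableEq Ω]
    (h2 : (2 : RatFunc k) ≠ 0) {u : k} (hu : ¬ IsSquare u) (h : NoFour α β)
    (h12 : (0 : RatFunc k) ≠ rf α) (h13 : (0 : RatFunc k) ≠ rf β) (h23 : rf α ≠ rf β)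
    {J : Type} [Fintype J] (p : J → k[X]) (z : VV Ω 0 (rf α) (rf β)) (w : V1)
    (hz : (2 : ℕ) • z = iota h2 h12 h13 h23 Ω w) (s : Ω ≃ₐ[RatFunc k] Ω) :
    Pool.Agent.Sm.dl (chiJ (chP Ω) p) z s = iota h2 h12 h13 h23 Ω
      (homJ (chP Ω) (twd u hu h) p (kapJ (twd u hu h) J w) s) := by
  rw [E5 h2 hu h h12 h13 h23 _ z w hz s]
  congr 1
  have h3 : ∑ j, chP Ω (p j) s • (kapJ (twd u hu h) J w).2.2 j = chiJ (chP Ω) p s • w := by
    rw [chiJ, Finset.sum_smul]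
    rfl
  rw [homJ, h3, add_assoc, add_comm]
  rfl

end Pool.Agent.SmithE
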