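import Pool.Agent.Lib.SM.E.RFun

/-!
SMITH, block E6, part 1: a criterion for `M = M[2 ^ ∞] + 2 ^ j M`, and coordinates of halves and
differences of points on `y ^ 2 = (x - e₁) (x - e₂) (x - e₃)`.
-/

set_option autoImplicit false

namespace Pool.Agent.SmithE

open WeierstrassCurve WeierstrassCurve.Affine

/-- If every element of `U` can be halved in `U` and every element of `M` has a positive multiple
in `U` up to an element of order two, then `M = M[2 ^ ∞] + 2 ^ j M`. -/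
theorem ldiv_group {M : Type} [AddCommGroup M] (U : Set M)
    (hU : ∀ u ∈ U, ∃ u' ∈ U, u = u' + u')
    (hM : ∀ P : M, ∃ n : ℕ, 0 < n ∧ ∃ T : M, T + T = 0 ∧ n • P + T ∈ U) (P : M) (j : ℕ) :
    ∃ (t P₁ : M) (a : ℕ), (2 : ℕ) ^ a • t = 0 ∧ P = t + (2 : ℕ) ^ j • P₁ := by
  have hk : ∀ k : ℕ, ∀ u ∈ U, ∃ u' ∈ U, u = (2 : ℕ) ^ k • u' := by
    intro k
    induction k with
    | zero => exact fun u hu => ⟨u, hu, by rw [pow_zero, one_smul]⟩
    | succ k ih =>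
      intro u hu
      obtain ⟨u', hu', h1⟩ := ih u hu
      obtain ⟨u'', hu'', h2⟩ := hU u' hu'
      exact ⟨u'', hu'', by rw [h1, h2, pow_succ, mul_smul, two_smul]⟩
  obtain ⟨n, hn, T, hT, hnU⟩ := hM P
  obtain ⟨a, m, hm, hnm⟩ := Nat.exists_eq_two_pow_mul_odd hn.ne'
  obtain ⟨u', hu', h1⟩ := hk a _ hnU
  obtain ⟨u'', -, h2⟩ := hk j _ hu'
  have hcop : IsCoprime (m : ℤ) ((2 : ℤ) ^ j) := by
    have h3 : Nat.Coprime m (2 ^ j) := Nat.Coprime.pow_right j hm.coprime_two_right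
    have h4 := Nat.isCoprime_iff_coprime.mpr h3
    rwa [Nat.cast_pow, Nat.cast_ofNat] at h4
  obtain ⟨r, s, hrs⟩ := hcop
  refine ⟨r • (m • P - u'), r • u'' + s • P, a + 1, ?_, ?_⟩
  · rw [smul_comm, pow_succ, mul_comm, mul_smul, smul_sub, ← mul_smul, ← hnm, ← h1]
    have h5 : n • P - (n • P + T) = -T := by abel
    rw [h5, smul_neg, two_smul, hT, neg_zero, smul_zero]
  · have h6 : r • (m • P - u') + (2 : ℕ) ^ j • (r • u'' + s • P) =
        (r * (m : ℤ) + s * 2 ^ j) • P + (r • ((2 : ℕ) ^ j • u'') - r • u') := by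
      rw [add_smul, mul_smul, mul_smul, smul_sub, smul_add, natCast_zsmul]
      have h7 : ((2 : ℤ) ^ j) • P = ((2 : ℕ) ^ j) • P := by
        rw [← natCast_zsmul, Nat.cast_pow, Nat.cast_ofNat]
      rw [h7, smul_comm ((2 : ℕ) ^ j) r u'', smul_comm ((2 : ℕ) ^ j) s P]
      abel
    rw [h6, hrs, ← h2, one_smul, sub_self, add_zero]

section coord

variable {F : Type} [Field F] [DecidableEq F] {e₁ e₂ e₃ : F}

/-- explicit half of a point -/
theorem half_coord (h2 : (2 : F) ≠ 0) (h12 : e₁ ≠ e₂) (h13 : e₁ ≠ e₃) (h23 : e₂ ≠ e₃)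
    {x y r₁ r₂ r₃ : F} (h : (crv e₁ e₂ e₃).toAffine.Nonsingular x y) (hr1 : x - e₁ = r₁ ^ 2)
    (hr2 : x - e₂ = r₂ ^ 2) (hr3 : x - e₃ = r₃ ^ 2) (hy : y = r₁ * r₂ * r₃) :
    ∃ (X Y : F) (h' : (crv e₁ e₂ e₃).toAffine.Nonsingular X Y),
      WeierstrassCurve.Affine.Point.some x y h = .some X Y h' + .some X Y h' ∧
      X = x + r₁ * r₂ + r₁ * r₃ + r₂ * r₃ := by
  have n12 : r₁ + r₂ ≠ 0 := by
    intro h0
    apply h12
    have : r₁ = -r₂ := by linear_combination h0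
    rw [this] at hr1
    linear_combination -hr1 + hr2
  have n13 : r₁ + r₃ ≠ 0 := by
    intro h0
    apply h13
    have : r₁ = -r₃ := by linear_combination h0
    rw [this] at hr1
    linear_combination -hr1 + hr3
  have n23 : r₂ + r₃ ≠ 0 := by
    intro h0
    apply h23
    have : r₂ = -r₃ := by linear_combination h0
    rw [this] at hr2
    linear_combination -hr2 + hr3
  set X := x + r₁ * r₂ + r₁ * r₃ + r₂ * r₃ with hX
  set Y := (r₁ + r₂) * (r₁ + r₃) * (r₂ + r₃) with hY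
  have hY0 : Y ≠ 0 := mul_ne_zero (mul_ne_zero n12 n13) n23
  have hX1 : X - e₁ = (r₁ + r₂) * (r₁ + r₃) := by rw [hX]; linear_combination hr1
  have hX2 : X - e₂ = (r₁ + r₂) * (r₂ + r₃) := by rw [hX]; linear_combination hr2
  have hX3 : X - e₃ = (r₁ + r₃) * (r₂ + r₃) := by rw [hX]; linear_combination hr3
  have hEQ : (crv e₁ e₂ e₃).toAffine.Equation X Y := by
    rw [equation_crv, hX1, hX2, hX3, hY]
    ring
  have hYneg : Y ≠ (crv e₁ e₂ e₃).toAffine.negY X Y := by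
    rw [negY_crv]
    intro h5
    have h6 : 2 * Y = 0 := by linear_combination h5
    exact hY0 ((mul_eq_zero.mp h6).resolve_left h2)
  have hNS : (crv e₁ e₂ e₃).toAffine.Nonsingular X Y := by
    rw [WeierstrassCurve.Affine.nonsingular_iff]
    exact ⟨hEQ, Or.inr hYneg⟩
  have hsl : (crv e₁ e₂ e₃).toAffine.slope X X Y Y = r₁ + r₂ + r₃ := by
    rw [WeierstrassCurve.Affine.slope_of_Y_ne rfl hYneg, negY_crv, crv_a₁, crv_a₂, crv_a₄]
    have h5 : (Y - -Y) = 2 * Y := by ring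
    rw [h5, div_eq_iff (mul_ne_zero h2 hY0)]
    have h6 : (X - e₁) * (X - e₂) + (X - e₁) * (X - e₃) + (X - e₂) * (X - e₃) =
        2 * (r₁ + r₂ + r₃) * Y := by
      rw [hX1, hX2, hX3, hY]; ring
    linear_combination h6
  have hx2 : (crv e₁ e₂ e₃).toAffine.addX X X (r₁ + r₂ + r₃) = x := by
    rw [WeierstrassCurve.Affine.addX, crv_a₁, crv_a₂, hX]
    linear_combination -hr1 - hr2 - hr3
  have hy2 : (crv e₁ e₂ e₃).toAffine.addY X X Y (r₁ + r₂ + r₃) = y := by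
    rw [WeierstrassCurve.Affine.addY, WeierstrassCurve.Affine.negAddY, hx2, negY_crv, hy, hX, hY]
    ring
  refine ⟨X, Y, hNS, ?_, rfl⟩
  rw [WeierstrassCurve.Affine.Point.add_self_of_Y_ne hYneg]
  rw [WeierstrassCurve.Affine.Point.some.injEq]
  rw [hsl]
  exact ⟨hx2.symm, hy2.symm⟩

/-- `x`-coordinate of a difference -/
theorem sub_coord {x₁ y₁ x₂ y₂ : F} (h₁ : (crv e₁ e₂ e₃).toAffine.Nonsingular x₁ y₁)
    (h₂ : (crv e₁ e₂ e₃).toAffine.Nonsingular x₂ y₂) (hx : x₁ ≠ x₂) :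
    ∃ (X Y : F) (h' : (crv e₁ e₂ e₃).toAffine.Nonsingular X Y),
      WeierstrassCurve.Affine.Point.some x₁ y₁ h₁ - .some x₂ y₂ h₂ = .some X Y h' ∧
      X = ((y₁ + y₂) / (x₁ - x₂)) ^ 2 + (e₁ + e₂ + e₃) - x₁ - x₂ := by
  rw [sub_eq_add_neg, WeierstrassCurve.Affine.Point.neg_some]
  refine ⟨_, _, _, WeierstrassCurve.Affine.Point.add_of_X_ne hx, ?_⟩
  rw [WeierstrassCurve.Affine.addX, WeierstrassCurve.Affine.slope_of_X_ne hx, crv_a₁, crv_a₂,
    negY_crv]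
  ring

end coord

end Pool.Agent.SmithE
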