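import Pool.Agent.Lib.SM.E.LDivA

/-!
SMITH, block E6, part 2: `E(L) = E(L)[2 ^ ∞] + 2 ^ j E(L)` for a valued field `L` in which `2` is a
unit, elements congruent to `1` are squares of elements congruent to `1`, and the bounded elements
modulo a small ball are finite in number.
-/

set_option autoImplicit false

namespace Pool.Agent.SmithE

open WeierstrassCurve WeierstrassCurve.Affine

section

variable {L Γ : Type*} [Field L] [LinearOrderedCommGroupWithZero Γ] (v : Valuation L Γ)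

private theorem ldiv_eq_one {a : L} (h : v (a - 1) < 1) : v a = 1 := by
  have h1 : v ((a - 1) + 1) = v (1 : L) :=
    Valuation.map_add_eq_of_lt_right v (by rwa [map_one])
  rwa [sub_add_cancel, map_one] at h1

private theorem ldiv_mul_one {a b : L} (ha : v (a - 1) < 1) (hb : v (b - 1) < 1) :
    v (a * b - 1) < 1 := by
  have h1 : a * b - 1 = a * (b - 1) + (a - 1) := by ring
  rw [h1]
  refine v.map_add_lt ?_ ha
  rw [map_mul, ldiv_eq_one v ha, one_mul]
  exact hb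

private theorem ldiv_max (a b : L) : ∃ c, v a ≤ v c ∧ v b ≤ v c := by
  rcases le_total (v a) (v b) with h | h
  · exact ⟨b, h, le_rfl⟩
  · exact ⟨a, le_rfl, h⟩

private theorem ldiv_min {a b : L} (ha : a ≠ 0) (hb : b ≠ 0) :
    ∃ c, c ≠ 0 ∧ v c ≤ v a ∧ v c ≤ v b := by
  rcases le_total (v a) (v b) with h | h
  · exact ⟨a, ha, le_rfl, h⟩
  · exact ⟨b, hb, h, le_rfl⟩

/-- a bound strictly larger than `1, e₁, e₂, e₃` -/
private theorem ldiv_bound (e₁ e₂ e₃ : L) {π : L} (hπ0 : π ≠ 0) (hπ : v π < 1) :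
    ∃ B : L, 1 < v B ∧ v e₁ < v B ∧ v e₂ < v B ∧ v e₃ < v B := by
  obtain ⟨c, hc1, hc2⟩ := ldiv_max v 1 e₁
  obtain ⟨d, hd1, hd2⟩ := ldiv_max v e₂ e₃
  obtain ⟨m, hm1, hm2⟩ := ldiv_max v c d
  rw [map_one] at hc1
  have hm : 1 ≤ v m := hc1.trans hm1
  have hvπ : v π ≠ 0 := (Valuation.ne_zero_iff v).mpr hπ0
  have key : v m < v (m / π) := by
    rw [map_div₀]
    have h0 : 0 < v m := lt_of_lt_of_le zero_lt_one hm
    rw [lt_div_iff₀ (zero_lt_iff.mpr hvπ)]
    exact (mul_lt_mul_of_pos_left hπ h0).trans_eq (mul_one _)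
  exact ⟨m / π, hm.trans_lt key, (hc2.trans hm1).trans_lt key, (hd1.trans hm2).trans_lt key,
    (hd2.trans hm2).trans_lt key⟩

end

section

variable {L Γ : Type} [Field L] [DecidableEq L] [LinearOrderedCommGroupWithZero Γ]
  (v : Valuation L Γ) {e₁ e₂ e₃ : L}

/-- points with large `x`-coordinate can be halved -/
private theorem ldiv_half (h2 : v 2 = 1)
    (hsq : ∀ x : L, v (x - 1) < 1 → ∃ h, h ^ 2 = x ∧ v (h - 1) < 1)
    (h12 : e₁ ≠ e₂) (h13 : e₁ ≠ e₃) (h23 : e₂ ≠ e₃) {B : L} (hB : 1 < v B) (hB1 : v e₁ < v B)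
    (hB2 : v e₂ < v B) (hB3 : v e₃ < v B) {x y : L}
    (h : (crv e₁ e₂ e₃).toAffine.Nonsingular x y) (hx : v B ≤ v x) :
    ∃ (X Y : L) (h' : (crv e₁ e₂ e₃).toAffine.Nonsingular X Y), v B ≤ v X ∧
      WeierstrassCurve.Affine.Point.some x y h = .some X Y h' + .some X Y h' := by
  have hvx : 0 < v x := lt_of_lt_of_le (zero_lt_one.trans hB) hx
  have hx0 : x ≠ 0 := (Valuation.ne_zero_iff v).mp hvx.ne'
  have h20 : (2 : L) ≠ 0 := by
    intro h0
    rw [h0, map_zero] at h2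
    exact zero_ne_one h2
  have hsm : ∀ e : L, v e < v B → v ((1 - e / x) - 1) < 1 := by
    intro e he
    have e1 : (1 - e / x) - 1 = -(e / x) := by ring
    rw [e1, Valuation.map_neg, map_div₀, div_lt_one₀ hvx]
    exact he.trans_le hx
  obtain ⟨h₁, k1, k1'⟩ := hsq _ (hsm e₁ hB1)
  obtain ⟨h₂, k2, k2'⟩ := hsq _ (hsm e₂ hB2)
  obtain ⟨h₃, k3, k3'⟩ := hsq _ (hsm e₃ hB3)
  have nz : ∀ a : L, v (a - 1) < 1 → a ≠ 0 := by
    intro a ha
    rw [← Valuation.ne_zero_iff v, ldiv_eq_one v ha]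
    exact one_ne_zero
  have n1 := nz _ k1'
  have n2 := nz _ k2'
  have n3 := nz _ k3'
  have he := equation_crv.mp h.1
  have s1 : x - e₁ = x * h₁ ^ 2 := by rw [k1]; field_simp
  have s2 : x - e₂ = x * h₂ ^ 2 := by rw [k2]; field_simp
  have s3 : x - e₃ = x * h₃ ^ 2 := by rw [k3]; field_simp
  set ρ := y / (x * h₁ * h₂ * h₃) with hρ
  have hρy : y = ρ * (x * h₁ * h₂ * h₃) := by
    rw [hρ, div_mul_cancel₀]
    exact mul_ne_zero (mul_ne_zero (mul_ne_zero hx0 n1) n2) n3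
  have hρ2 : ρ ^ 2 = x := by
    rw [s1, s2, s3, hρy] at he
    have e1 : (ρ ^ 2 - x) * (x * h₁ * h₂ * h₃) ^ 2 = 0 := by linear_combination he
    rcases mul_eq_zero.mp e1 with h0 | h0
    · exact sub_eq_zero.mp h0
    · exact absurd h0 (pow_ne_zero _ (mul_ne_zero (mul_ne_zero (mul_ne_zero hx0 n1) n2) n3))
  obtain ⟨X, Y, h', e4, e5⟩ := half_coord h20 h12 h13 h23 (r₁ := ρ * h₁) (r₂ := ρ * h₂)
    (r₃ := ρ * h₃) h (by rw [s1, mul_pow, hρ2]) (by rw [s2, mul_pow, hρ2])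
    (by rw [s3, mul_pow, hρ2]) (by rw [hρy, ← hρ2]; ring)
  refine ⟨X, Y, h', ?_, e4⟩
  have e6 : X = x * (4 + ((h₁ * h₂ - 1) + (h₁ * h₃ - 1) + (h₂ * h₃ - 1))) := by
    rw [e5]
    linear_combination (h₁ * h₂ + h₁ * h₃ + h₂ * h₃) * hρ2
  have e7 : v (4 + ((h₁ * h₂ - 1) + (h₁ * h₃ - 1) + (h₂ * h₃ - 1))) = 1 := by
    have e8 : v (4 : L) = 1 := by
      have : (4 : L) = 2 * 2 := by norm_num
      rw [this, map_mul, h2, one_mul]
    rw [Valuation.map_add_eq_of_lt_left v, e8]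
    rw [e8]
    exact v.map_add_lt (v.map_add_lt (ldiv_mul_one v k1' k2') (ldiv_mul_one v k1' k3'))
      (ldiv_mul_one v k2' k3')
  rw [e6, map_mul, e7, mul_one]
  exact hx

/-- a point which is close to `(e, 0)`: adding this point of order two gives a large
`x`-coordinate -/
private theorem ldiv_addT {a b c : L} (hW : crv e₁ e₂ e₃ = crv a b c) {B d : L}
    (hd0 : d ≠ 0) (hBa : v a < v B) (hB : 1 < v B) (hdb : v d ≤ v (a - b)) (hdc : v d ≤ v (a - c))
    (hT : (crv e₁ e₂ e₃).toAffine.Nonsingular a 0)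
    {x y : L} (h : (crv e₁ e₂ e₃).toAffine.Nonsingular x y) (hx : x ≠ a)
    (hs : v (x - a) < v (d ^ 2 / B)) :
    ∃ (X Y : L) (h' : (crv e₁ e₂ e₃).toAffine.Nonsingular X Y),
      WeierstrassCurve.Affine.Point.some x y h + .some a 0 hT = .some X Y h' ∧ v B ≤ v X := by
  obtain ⟨X, Y, h', e1, e2, -⟩ := add_T hW h hx hT
  refine ⟨X, Y, h', e1, ?_⟩
  have hxa : x - a ≠ 0 := sub_ne_zero.mpr hx
  have hvxa : 0 < v (x - a) := zero_lt_iff.mpr ((Valuation.ne_zero_iff v).mpr hxa)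
  have hvB : 0 < v B := zero_lt_one.trans hB
  have hvd : 0 < v d := zero_lt_iff.mpr ((Valuation.ne_zero_iff v).mpr hd0)
  have e3 : v B < v ((a - b) * (a - c) / (x - a)) := by
    rw [map_div₀, map_mul, lt_div_iff₀ hvxa]
    rw [map_div₀, map_pow, lt_div_iff₀ hvB] at hs
    calc v B * v (x - a) = v (x - a) * v B := mul_comm _ _
      _ < v d ^ 2 := hs
      _ = v d * v d := pow_two _
      _ ≤ v (a - b) * v (a - c) := mul_le_mul' hdb hdc
  rw [e2, Valuation.map_add_eq_of_lt_right v (hBa.trans e3)]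
  exact e3.le

/-- some positive multiple of a point is, up to a point of order two, large -/
private theorem ldiv_mult (h2 : v 2 = 1)
    (hfin : ∀ t : L, t ≠ 0 → ∃ F : Finset L, ∀ x, v x ≤ 1 → ∃ f ∈ F, v (x - f) ≤ v t)
    (h12 : e₁ ≠ e₂) (h13 : e₁ ≠ e₃) (h23 : e₂ ≠ e₃) {B : L} (hB : 1 < v B) (hB1 : v e₁ < v B)
    (hB2 : v e₂ < v B) (hB3 : v e₃ < v B) (P : (crv e₁ e₂ e₃).toAffine.Point) :
    ∃ n : ℕ, 0 < n ∧ ∃ T : (crv e₁ e₂ e₃).toAffine.Point, T + T = 0 ∧
      (n • P + T = 0 ∨ ∃ (x y : L) (h : (crv e₁ e₂ e₃).toAffine.Nonsingular x y),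
        n • P + T = .some x y h ∧ v B ≤ v x) := by
  by_contra hcon
  push Not at hcon
  have h20 : (2 : L) ≠ 0 := by
    intro h0
    rw [h0, map_zero] at h2
    exact zero_ne_one h2
  have hB0 : B ≠ 0 := (Valuation.ne_zero_iff v).mp (zero_lt_one.trans hB).ne'
  have hvB : 0 < v B := zero_lt_one.trans hB
  have hnt : ∀ n : ℕ, 0 < n → n • P ≠ 0 := fun n hn h0 => by
    have := (hcon n hn 0 (add_zero 0)).1
    rw [add_zero] at this
    exact this h0
  -- coordinates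
  have hco : ∀ n : ℕ, ∃ (x y : L) (h : (crv e₁ e₂ e₃).toAffine.Nonsingular x y),
      (n + 1) • P = .some x y h := by
    intro n
    rcases hP : (n + 1) • P with _ | ⟨x, y, h⟩
    · exact absurd hP (hnt _ n.succ_pos)
    · exact ⟨x, y, h, rfl⟩
  choose x y hns hxy using hco
  have hxlt : ∀ n, v (x n) < v B := by
    intro n
    have := (hcon (n + 1) n.succ_pos 0 (add_zero 0)).2 (x n) (y n) (hns n)
      (by rw [add_zero, hxy n])
    exact this
  have hxe : ∀ n, ∀ e : L, v e < v B → v (x n - e) < v B := fun n e he =>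
    v.map_sub_lt (hxlt n) he
  have hyle : ∀ n, v (y n) ≤ v B ^ 2 := by
    intro n
    have he := equation_crv.mp (hns n).1
    have h1 : v (y n) ^ 2 ≤ (v B ^ 2) ^ 2 := by
      rw [← map_pow, he, map_mul, map_mul]
      calc v (x n - e₁) * v (x n - e₂) * v (x n - e₃) ≤ v B * v B * v B :=
            mul_le_mul' (mul_le_mul' (hxe n e₁ hB1).le (hxe n e₂ hB2).le) (hxe n e₃ hB3).le
        _ ≤ v B * v B * v B * v B := le_mul_of_one_le_right' hB.le
        _ = (v B ^ 2) ^ 2 := by rw [← pow_mul, pow_succ, pow_succ, pow_succ, pow_one]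
    exact (pow_le_pow_iff_left₀ zero_le zero_le two_ne_zero).mp h1
  -- the smallest difference
  obtain ⟨d', hd'0, hd'1, hd'2⟩ := ldiv_min v (sub_ne_zero.mpr h12) (sub_ne_zero.mpr h13)
  obtain ⟨d, hd0, hdd, hd3⟩ := ldiv_min v hd'0 (sub_ne_zero.mpr h23)
  have hd1 := hdd.trans hd'1
  have hd2 := hdd.trans hd'2
  have hvd : 0 < v d := zero_lt_iff.mpr ((Valuation.ne_zero_iff v).mpr hd0)
  -- pigeonhole
  set t : L := d ^ 3 / B ^ 4 with ht
  have ht0 : t ≠ 0 := div_ne_zero (pow_ne_zero _ hd0) (pow_ne_zero _ hB0)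
  obtain ⟨F, hF⟩ := hfin t ht0
  have hxb : ∀ n, v (x n / B ^ 2) ≤ 1 := by
    intro n
    rw [map_div₀, map_pow, div_le_one₀ (pow_pos hvB 2)]
    calc v (x n) ≤ v B := (hxlt n).le
      _ ≤ v B * v B := le_mul_of_one_le_right' hB.le
      _ = v B ^ 2 := (pow_two _).symm
  have hyb : ∀ n, v (y n / B ^ 2) ≤ 1 := by
    intro n
    rw [map_div₀, map_pow, div_le_one₀ (pow_pos hvB 2)]
    exact hyle n
  choose f hfF hf using fun n => hF _ (hxb n)
  choose g hgF hg using fun n => hF _ (hyb n)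
  obtain ⟨n, m, hnm, hfg⟩ := Finite.exists_ne_map_eq_of_infinite
    (fun n : ℕ => ((⟨f n, hfF n⟩, ⟨g n, hgF n⟩) : F × F))
  rw [Prod.mk.injEq, Subtype.mk.injEq, Subtype.mk.injEq] at hfg
  obtain ⟨hf', hg'⟩ := hfg
  -- WLOG `m < n`
  have main : ∀ n m : ℕ, m < n → f n = f m → g n = g m → False := by
    intro n m hmn hf' hg'
    have hclose : ∀ a b c : L, v (a / B ^ 2 - c) ≤ v t → v (b / B ^ 2 - c) ≤ v t →
        v (a - b) ≤ v (d ^ 3 / B ^ 2) := by
      intro a b c ha hb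
      have e1 : a - b = B ^ 2 * ((a / B ^ 2 - c) - (b / B ^ 2 - c)) := by
        field_simp
        ring
      have e2 : d ^ 3 / B ^ 2 = B ^ 2 * t := by
        rw [ht]
        field_simp
      rw [e1, e2, map_mul, map_mul]
      exact mul_le_mul_right ((v.map_sub _ _).trans (max_le ha hb)) _
    have hx12 : v (x n - x m) ≤ v (d ^ 3 / B ^ 2) :=
      hclose _ _ (f n) (hf n) (by rw [hf']; exact hf m)
    have hy12 : v (y n - y m) ≤ v (d ^ 3 / B ^ 2) :=
      hclose _ _ (g n) (hg n) (by rw [hg']; exact hg m)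
    set T := d ^ 3 / B ^ 2 with hT
    have hvT : 0 < v T := by
      rw [hT, map_div₀, map_pow, map_pow]
      exact div_pos (pow_pos hvd 3) (pow_pos hvB 2)
    obtain ⟨k, hk⟩ := Nat.exists_eq_add_of_lt hmn
    have hsub : (n + 1) • P - (m + 1) • P = (k + 1) • P := by
      rw [hk]
      have : m + k + 1 + 1 = (m + 1) + (k + 1) := by ring
      rw [this, add_smul, add_sub_cancel_left]
    have hadd : (n + 1) • P + (m + 1) • P = (n + m + 2) • P := by
      rw [← add_smul]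
      congr 1
      ring
    have hxne : x n ≠ x m := by
      intro h0
      rcases (WeierstrassCurve.Affine.Point.X_eq_iff (h₁ := hns n) (h₂ := hns m)).mp h0 with h1 | h1
      · rw [← hxy n, ← hxy m] at h1
        rw [h1, sub_self] at hsub
        exact hnt (k + 1) k.succ_pos hsub.symm
      · rw [← hxy n, ← hxy m] at h1
        rw [h1, neg_add_cancel] at hadd
        exact hnt (n + m + 2) (by omega) hadd.symm
    have hx0 : 0 < v (x n - x m) :=
      zero_lt_iff.mpr ((Valuation.ne_zero_iff v).mpr (sub_ne_zero.mpr hxne))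
    rcases le_or_gt (v B * v T ^ 2) (v (y n) ^ 2) with hc | hc
    · -- the difference is large
      obtain ⟨X, Y, h', e1, e2⟩ := sub_coord (hns n) (hns m) hxne
      have hyT : v T < v (y n) := by
        have h1 : v T ^ 2 < v (y n) ^ 2 := by
          refine lt_of_lt_of_le ?_ hc
          calc v T ^ 2 = 1 * v T ^ 2 := (one_mul _).symm
            _ < v B * v T ^ 2 := mul_lt_mul_of_pos_right hB (pow_pos hvT 2)
        exact (pow_lt_pow_iff_left₀ zero_le zero_le two_ne_zero).mp h1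
      have hys : v (y n + y m) = v (y n) := by
        have e3 : y n + y m = 2 * y n - (y n - y m) := by ring
        have e4 : v (2 * y n) = v (y n) := by rw [map_mul, h2, one_mul]
        rw [e3, Valuation.map_sub_eq_of_lt_left v, e4]
        rw [e4]
        exact hy12.trans_lt hyT
      have hsl : v B ≤ v (((y n + y m) / (x n - x m)) ^ 2) := by
        rw [map_pow, map_div₀, hys, div_pow, le_div_iff₀ (pow_pos hx0 2)]
        refine le_trans ?_ hc
        exact mul_le_mul_right (pow_le_pow_left₀ zero_le hx12 2) _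
      have hX : v B ≤ v X := by
        have e5 : X = ((y n + y m) / (x n - x m)) ^ 2 + (e₁ + e₂ + e₃ - x n - x m) := by
          rw [e2]; ring
        have e6 : v (e₁ + e₂ + e₃ - x n - x m) < v B :=
          v.map_sub_lt (v.map_sub_lt (v.map_add_lt (v.map_add_lt hB1 hB2) hB3) (hxlt n)) (hxlt m)
        rw [e5, Valuation.map_add_eq_of_lt_left v (e6.trans_le hsl)]
        exact hsl
      rw [← hxy n, ← hxy m, hsub] at e1
      have := (hcon (k + 1) k.succ_pos 0 (add_zero 0)).2 X Y h' (by rw [add_zero, e1])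
      exact absurd hX (not_le.mpr this)
    · -- the point is close to a point of order two
      have he := equation_crv.mp (hns n).1
      have hBT : v B * v T ^ 2 = v (d ^ 2 / B) ^ 3 := by
        rw [hT]
        simp only [map_div₀, map_pow]
        have := hvB.ne'
        field_simp
      have hex : v (x n - e₁) < v (d ^ 2 / B) ∨ v (x n - e₂) < v (d ^ 2 / B) ∨
          v (x n - e₃) < v (d ^ 2 / B) := by
        by_contra hno
        push Not at hno
        obtain ⟨a1, a2, a3⟩ := hno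
        have h1 : v (d ^ 2 / B) ^ 3 ≤ v (y n) ^ 2 := by
          rw [← map_pow v (y n), he, map_mul, map_mul, pow_succ, pow_two]
          exact mul_le_mul' (mul_le_mul' a1 a2) a3
        rw [← hBT] at h1
        exact absurd hc (not_lt.mpr h1)
      have hy0 : y n ≠ 0 := by
        intro h0
        apply hnt (2 * (n + 1)) (by omega)
        rw [mul_smul, two_smul, hxy n]
        exact WeierstrassCurve.Affine.Point.add_of_Y_eq rfl (by rw [negY_crv, h0, neg_zero])
      obtain ⟨n1, n2, n3⟩ := sub_ne_of_Y_ne rfl (hns n) hy0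
      have fin : ∀ T₀ : (crv e₁ e₂ e₃).toAffine.Point, T₀ + T₀ = 0 →
          (∃ (X Y : L) (h' : (crv e₁ e₂ e₃).toAffine.Nonsingular X Y),
            WeierstrassCurve.Affine.Point.some (x n) (y n) (hns n) + T₀ = .some X Y h' ∧
            v B ≤ v X) → False := by
        rintro T₀ hT₀ ⟨X, Y, h', e1, e2⟩
        have := (hcon (n + 1) n.succ_pos T₀ hT₀).2 X Y h' (by rw [hxy n, e1])
        exact absurd e2 (not_le.mpr this)
      rcases hex with hs | hs | hs
      · exact fin _ ((add_self_eq_zero_iff h20 h12 h13 h23 _).mpr (Or.inr (Or.inl rfl)))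
          (ldiv_addT v rfl hd0 hB1 hB hd1 hd2 (nonsingular_T1 h12 h13) (hns n)
            (sub_ne_zero.mp n1) hs)
      · exact fin _ ((add_self_eq_zero_iff h20 h12 h13 h23 _).mpr (Or.inr (Or.inr (Or.inl rfl))))
          (ldiv_addT v (crv_swap12 e₁ e₂ e₃) hd0 hB2 hB (by rwa [Valuation.map_sub_swap]) hd3
            (nonsingular_T2 h12 h23) (hns n) (sub_ne_zero.mp n2) hs)
      · exact fin _ ((add_self_eq_zero_iff h20 h12 h13 h23 _).mpr (Or.inr (Or.inr (Or.inr rfl))))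
          (ldiv_addT v ((crv_swap23 e₁ e₂ e₃).trans (crv_swap12 e₁ e₃ e₂)) hd0 hB3 hB
            (by rwa [Valuation.map_sub_swap]) (by rwa [Valuation.map_sub_swap])
            (nonsingular_T3 h13 h23) (hns n) (sub_ne_zero.mp n3) hs)
  rcases lt_or_gt_of_ne hnm with h | h
  · exact main m n h hf'.symm hg'.symm
  · exact main n m h hf' hg'

/-- `E(L) = E(L)[2 ^ ∞] + 2 ^ j E(L)` -/
theorem ldiv_local (h2 : v 2 = 1)
    (hsq : ∀ x : L, v (x - 1) < 1 → ∃ h, h ^ 2 = x ∧ v (h - 1) < 1)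
    {π : L} (hπ0 : π ≠ 0) (hπ : v π < 1)
    (hfin : ∀ t : L, t ≠ 0 → ∃ F : Finset L, ∀ x, v x ≤ 1 → ∃ f ∈ F, v (x - f) ≤ v t)
    (h12 : e₁ ≠ e₂) (h13 : e₁ ≠ e₃) (h23 : e₂ ≠ e₃) (P : (crv e₁ e₂ e₃).toAffine.Point) (j : ℕ) :
    ∃ (t P₁ : (crv e₁ e₂ e₃).toAffine.Point) (a : ℕ),
      (2 : ℕ) ^ a • t = 0 ∧ P = t + (2 : ℕ) ^ j • P₁ := by
  obtain ⟨B, hB, hB1, hB2, hB3⟩ := ldiv_bound v e₁ e₂ e₃ hπ0 hπ
  refine ldiv_group {Q | Q = 0 ∨ ∃ (x y : L) (h : (crv e₁ e₂ e₃).toAffine.Nonsingular x y),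
    Q = .some x y h ∧ v B ≤ v x} ?_ ?_ P j
  · rintro u (rfl | ⟨x, y, h, rfl, hx⟩)
    · exact ⟨0, Or.inl rfl, (add_zero 0).symm⟩
    · obtain ⟨X, Y, h', e1, e2⟩ := ldiv_half v h2 hsq h12 h13 h23 hB hB1 hB2 hB3 h hx
      exact ⟨.some X Y h', Or.inr ⟨X, Y, h', rfl, e1⟩, e2⟩
  · intro Q
    exact ldiv_mult v h2 hfin h12 h13 h23 hB hB1 hB2 hB3 Q

end

end Pool.Agent.SmithE
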