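import Pool.Agent.Lib.SM.E.Half

/-!
SMITH, block E: the three functions `R_a, R_b, R_c` on `y ^ 2 = (x - a) (x - b) (x - c)`,
`R_a (x, y) = ((x - a) ^ 2 - (a - b) (a - c)) / (2 y)`:
`x (2 Q) - a = R_a (Q) ^ 2`, `R_a (- Q) = - R_a (Q)`, `R_a (Q + T_a) = R_a (Q)`,
`R_a (Q + T_b) = - R_a (Q)`.
-/

set_option autoImplicit false

namespace Pool.Agent.SmithE

open WeierstrassCurve WeierstrassCurve.Affine

variable {F : Type} [Field F] {W : WeierstrassCurve F} {a b c : F}

/-- the function `R_a` -/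
noncomputable def Rf (a b c : F) : W.toAffine.Point → F
  | .zero => 0
  | .some x y _ => ((x - a) ^ 2 - (a - b) * (a - c)) / (2 * y)

lemma Rf_some {x y : F} (h : W.toAffine.Nonsingular x y) :
    Rf a b c (.some x y h : W.toAffine.Point) = ((x - a) ^ 2 - (a - b) * (a - c)) / (2 * y) := rfl

lemma Rf_zero : Rf a b c (0 : W.toAffine.Point) = 0 := rfl

lemma Rf_comm (P : W.toAffine.Point) : Rf a b c P = Rf a c b P := by
  rcases P with _ | ⟨x, y, h⟩
  · rfl
  · rw [Rf_some, Rf_some, mul_comm (a - b)]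

lemma crv_swap12 (a b c : F) : crv a b c = crv b a c := by
  ext
  · rfl
  · rw [crv_a₂, crv_a₂]; ring
  · rfl
  · rw [crv_a₄, crv_a₄]; ring
  · rw [crv_a₆, crv_a₆]; ring

lemma crv_swap23 (a b c : F) : crv a b c = crv a c b := by
  ext
  · rfl
  · rw [crv_a₂, crv_a₂]; ring
  · rfl
  · rw [crv_a₄, crv_a₄]; ring
  · rw [crv_a₆, crv_a₆]; ring

lemma negY_eq (hW : W = crv a b c) (x y : F) : W.toAffine.negY x y = -y := by
  subst hW
  exact negY_crv x y

lemma eqn (hW : W = crv a b c) {x y : F} (h : W.toAffine.Nonsingular x y) :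
    y ^ 2 = (x - a) * (x - b) * (x - c) := by
  subst hW
  exact equation_crv.mp h.1

lemma Rf_neg (hW : W = crv a b c) (P : W.toAffine.Point) : Rf a b c (-P) = - Rf a b c P := by
  rcases P with _ | ⟨x, y, h⟩
  · change (0 : F) = - 0
    rw [neg_zero]
  · rw [WeierstrassCurve.Affine.Point.neg_some, Rf_some, Rf_some, negY_eq hW, mul_neg, div_neg]

lemma sub_ne_of_Y_ne (hW : W = crv a b c) {x y : F} (h : W.toAffine.Nonsingular x y)
    (hy : y ≠ 0) : x - a ≠ 0 ∧ x - b ≠ 0 ∧ x - c ≠ 0 := by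
  have h1 := eqn hW h
  refine ⟨?_, ?_, ?_⟩ <;> intro h0 <;> apply hy <;> rw [h0] at h1 <;>
    exact pow_eq_zero_iff (two_ne_zero) |>.mp (by rw [h1]; ring)

variable [DecidableEq F]

/-- coordinates of `Q + T_a` -/
theorem add_T (hW : W = crv a b c) {x y : F} (h : W.toAffine.Nonsingular x y)
    (hx : x ≠ a) (hT : W.toAffine.Nonsingular a 0) :
    ∃ (X Y : F) (h' : W.toAffine.Nonsingular X Y),
      (.some x y h : W.toAffine.Point) + .some a 0 hT = .some X Y h' ∧
      X = a + (a - b) * (a - c) / (x - a) ∧ Y = -y * ((a - b) * (a - c)) / (x - a) ^ 2 := by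
  subst hW
  have hxa : x - a ≠ 0 := sub_ne_zero.mpr hx
  have he := equation_crv.mp h.1
  refine ⟨_, _, _, WeierstrassCurve.Affine.Point.add_of_X_ne hx, ?_, ?_⟩
  · rw [WeierstrassCurve.Affine.addX, WeierstrassCurve.Affine.slope_of_X_ne hx, crv_a₁, crv_a₂]
    field_simp
    linear_combination he
  · rw [WeierstrassCurve.Affine.addY, WeierstrassCurve.Affine.negAddY,
      WeierstrassCurve.Affine.addX, WeierstrassCurve.Affine.slope_of_X_ne hx, negY_crv,
      crv_a₁, crv_a₂]
    field_simp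
    linear_combination (-y) * he

/-- coordinates of `Q + Q` -/
theorem add_self_coord (hW : W = crv a b c) (h2 : (2 : F) ≠ 0) {x y : F}
    (h : W.toAffine.Nonsingular x y) (hy : y ≠ 0) :
    ∃ (X Y : F) (h' : W.toAffine.Nonsingular X Y),
      (.some x y h : W.toAffine.Point) + .some x y h = .some X Y h' ∧
      X - a = (((x - a) ^ 2 - (a - b) * (a - c)) / (2 * y)) ^ 2 ∧
      X - b = (((x - b) ^ 2 - (b - a) * (b - c)) / (2 * y)) ^ 2 ∧
      X - c = (((x - c) ^ 2 - (c - a) * (c - b)) / (2 * y)) ^ 2 := by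
  subst hW
  have he := equation_crv.mp h.1
  have hYneg : y ≠ (crv a b c).toAffine.negY x y := by
    rw [negY_crv]
    intro h5
    have h6 : 2 * y = 0 := by linear_combination h5
    exact hy ((mul_eq_zero.mp h6).resolve_left h2)
  have hyy : y - -y = 2 * y := by ring
  refine ⟨_, _, _, WeierstrassCurve.Affine.Point.add_self_of_Y_ne hYneg, ?_, ?_, ?_⟩
  · rw [WeierstrassCurve.Affine.addX, WeierstrassCurve.Affine.slope_of_Y_ne rfl hYneg, negY_crv,
      crv_a₁, crv_a₂, crv_a₄, hyy]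
    field_simp
    linear_combination (-4 * (2 * x - b - c)) * he
  · rw [WeierstrassCurve.Affine.addX, WeierstrassCurve.Affine.slope_of_Y_ne rfl hYneg, negY_crv,
      crv_a₁, crv_a₂, crv_a₄, hyy]
    field_simp
    linear_combination (-4 * (2 * x - a - c)) * he
  · rw [WeierstrassCurve.Affine.addX, WeierstrassCurve.Affine.slope_of_Y_ne rfl hYneg, negY_crv,
      crv_a₁, crv_a₂, crv_a₄, hyy]
    field_simp
    linear_combination (-4 * (2 * x - a - b)) * he

/-- a point which is not of order dividing 2 has `y ≠ 0` -/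
lemma exists_of_add_self_ne (hW : W = crv a b c) {P : W.toAffine.Point} (hP : P + P ≠ 0) :
    ∃ (x y : F) (h : W.toAffine.Nonsingular x y), P = .some x y h ∧ y ≠ 0 := by
  rcases P with _ | ⟨x, y, h⟩
  · exact absurd (add_zero _) hP
  · refine ⟨x, y, h, rfl, ?_⟩
    rintro rfl
    exact hP (WeierstrassCurve.Affine.Point.add_of_Y_eq rfl (by rw [negY_eq hW, neg_zero]))

/-- `x (2 Q) - e = R_e (Q) ^ 2` -/
theorem Rf_sq (hW : W = crv a b c) (h2 : (2 : F) ≠ 0) {P : W.toAffine.Point} (hP : P + P ≠ 0) :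
    ∃ (X Y : F) (h : W.toAffine.Nonsingular X Y), P + P = .some X Y h ∧
      X - a = (Rf a b c P) ^ 2 ∧ X - b = (Rf b a c P) ^ 2 ∧ X - c = (Rf c a b P) ^ 2 := by
  obtain ⟨x, y, h, rfl, hy⟩ := exists_of_add_self_ne hW hP
  exact add_self_coord hW h2 h hy

/-- `R_a (Q + T_a) = R_a (Q)` -/
theorem Rf_add_same (hW : W = crv a b c) (h2 : (2 : F) ≠ 0) (hab : a ≠ b) (hac : a ≠ c)
    {P : W.toAffine.Point} (hP : P + P ≠ 0) (hT : W.toAffine.Nonsingular a 0) :
    Rf a b c (P + .some a 0 hT) = Rf a b c P := by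
  obtain ⟨x, y, h, rfl, hy⟩ := exists_of_add_self_ne hW hP
  obtain ⟨n1, -, -⟩ := sub_ne_of_Y_ne hW h hy
  obtain ⟨X, Y, h', h1, hX, hY⟩ := add_T hW h (sub_ne_zero.mp n1) hT
  have m1 : a - b ≠ 0 := sub_ne_zero.mpr hab
  have m2 : a - c ≠ 0 := sub_ne_zero.mpr hac
  rw [h1, Rf_some, Rf_some, hX, hY]
  field_simp
  ring

/-- `R_a (Q + T_b) = - R_a (Q)` -/
theorem Rf_add_other (hW : W = crv a b c) (h2 : (2 : F) ≠ 0) (hab : a ≠ b) (hbc : b ≠ c)
    {P : W.toAffine.Point} (hP : P + P ≠ 0) (hT : W.toAffine.Nonsingular b 0) :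
    Rf a b c (P + .some b 0 hT) = - Rf a b c P := by
  obtain ⟨x, y, h, rfl, hy⟩ := exists_of_add_self_ne hW hP
  obtain ⟨-, n1, -⟩ := sub_ne_of_Y_ne hW h hy
  obtain ⟨X, Y, h', h1, hX, hY⟩ := add_T (hW.trans (crv_swap12 a b c)) h (sub_ne_zero.mp n1) hT
  have m1 : b - a ≠ 0 := sub_ne_zero.mpr hab.symm
  have m2 : b - c ≠ 0 := sub_ne_zero.mpr hbc
  rw [h1, Rf_some, Rf_some, hX, hY]
  field_simp
  ring

/-- two points with the same double on which `R_a`, `R_b` and `R_c` agree are equal -/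
theorem eq_of_Rf_eq (hW : W = crv a b c) (h2 : (2 : F) ≠ 0) (hab : a ≠ b) (hac : a ≠ c)
    (hbc : b ≠ c) {P Q : W.toAffine.Point} (hP : P + P ≠ 0) (hPQ : Q + Q = P + P)
    (ha : Rf a b c Q = Rf a b c P) (hb : Rf b a c Q = Rf b a c P)
    (hc : Rf c a b Q = Rf c a b P) : Q = P := by
  subst hW
  have h0 : (Q - P) + (Q - P) = 0 := by rw [sub_add_sub_comm, hPQ, sub_self]
  have key : ∀ z : F, z = -z → z = 0 := by
    intro z hz
    have h3 : 2 * z = 0 := by linear_combination hz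
    exact (mul_eq_zero.mp h3).resolve_left h2
  obtain ⟨X, Y, hXY, hd, s1, s2, s3⟩ := Rf_sq rfl h2 hP
  have hbac : crv a b c = crv b a c := crv_swap12 a b c
  have hcab : crv a b c = crv c a b := (crv_swap23 a b c).trans (crv_swap12 a c b)
  rcases (add_self_eq_zero_iff h2 hab hac hbc _).mp h0 with h1 | h1 | h1 | h1
  · exact sub_eq_zero.mp h1
  · exfalso
    have hQ : Q = P + .some a 0 (nonsingular_T1 hab hac) := by rw [← h1]; abel
    have e1 : Rf b a c Q = - Rf b a c P := by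
      rw [hQ]; exact Rf_add_other hbac h2 hab.symm hac hP _
    have e2 : Rf c a b Q = - Rf c a b P := by
      rw [hQ]; exact Rf_add_other hcab h2 hac.symm hab hP _
    have z1 := key _ (hb ▸ e1)
    have z2 := key _ (hc ▸ e2)
    rw [z1] at s2
    rw [z2] at s3
    exact hbc (by linear_combination s3 - s2)
  · exfalso
    have hQ : Q = P + .some b 0 (nonsingular_T2 hab hbc) := by rw [← h1]; abel
    have e1 : Rf a b c Q = - Rf a b c P := by
      rw [hQ]; exact Rf_add_other rfl h2 hab hbc hP _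
    have e2 : Rf c a b Q = - Rf c a b P := by
      rw [hQ, Rf_comm, Rf_comm P]
      exact Rf_add_other (hcab.trans (crv_swap23 c a b)) h2 hbc.symm hab.symm hP _
    have z1 := key _ (ha ▸ e1)
    have z2 := key _ (hc ▸ e2)
    rw [z1] at s1
    rw [z2] at s3
    exact hac (by linear_combination s3 - s1)
  · exfalso
    have hQ : Q = P + .some c 0 (nonsingular_T3 hac hbc) := by rw [← h1]; abel
    have e1 : Rf a b c Q = - Rf a b c P := by
      rw [hQ, Rf_comm, Rf_comm P]
      exact Rf_add_other (crv_swap23 a b c) h2 hac hbc.symm hP _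
    have e2 : Rf b a c Q = - Rf b a c P := by
      rw [hQ, Rf_comm, Rf_comm P]
      exact Rf_add_other (hbac.trans (crv_swap23 b a c)) h2 hbc hac.symm hP _
    have z1 := key _ (ha ▸ e1)
    have z2 := key _ (hb ▸ e2)
    rw [z1] at s1
    rw [z2] at s2
    exact hab (by linear_combination s2 - s1)

section Galois

variable {K : Type} [Field K] [Algebra K F] {E : WeierstrassCurve K}

/-- `R_a` and the Galois action -/
theorem Rf_map (P : (E.baseChange F).toAffine.Point) (s : F →ₐ[K] F) (ha : s a = a) (hb : s b = b)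
    (hc : s c = c) :
    Rf a b c (WeierstrassCurve.Affine.Point.map (W' := E) s P) = s (Rf a b c P) := by
  rcases P with _ | ⟨x, y, h⟩
  · exact (map_zero s).symm
  · rw [WeierstrassCurve.Affine.Point.map_some, Rf_some, Rf_some]
    simp only [map_div₀, map_sub, map_pow, map_mul, map_ofNat, ha, hb, hc]

end Galois

end Pool.Agent.SmithE
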